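import Mathlib

set_option autoImplicit false

open Finset

/-!
Tree-sparse recovery with a constant approximation factor and `O(k (log log (n/k))^3)` measurements.

The nodes of the tree are partitioned into classes by a nested sequence of partitions (level `j` has
about `k 2^(2^j)` classes, and every rooted subtree with at most `2k` nodes has `O(k/2^j)` collisions
in it; the last level consists of singletons). For every level the vector of class sums is measured
by a sparse expander matrix. Since the partitions are nested, the classes of the nodes of a rooted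
subtree that are isolated for the first time at their level are pairwise disjoint, so the mass
outside of the subtree is counted only once.
-/

namespace Pool.Agent.Results.MP_d546a0_lc.LogLogCubed

/-- exponential moment of the number of collisions of a random hash function on a set -/
theorem hash_moment {V B X : Type} [Fintype V] [DecidableEq V] [Fintype B] [DecidableEq B] [Nonempty B]
    [DecidableEq X] (π : B → X) (M lam : ℝ) (hM : 0 < M) (hlam : 1 ≤ lam)
    (hfib : ∀ x, M * ((univ.filter fun b => π b = x).card : ℝ) ≤ (Fintype.card B : ℝ))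
    (S : Finset V) :
    ∑ g : V → B, lam ^ (S.card - (S.image fun v => π (g v)).card) ≤
      (Fintype.card B : ℝ) ^ (Fintype.card V) * (1 + lam * S.card / M) ^ S.card := by
  induction S using Finset.induction_on with
  | empty => simp
  | insert v S hv ih =>
    have hB : (0 : ℝ) < Fintype.card B := by
      have := Fintype.card_pos (α := B)
      exact_mod_cast this
    -- average over the value at v
    have key : (Fintype.card B : ℝ) *
        ∑ g : V → B, lam ^ ((insert v S).card - ((insert v S).image fun v => π (g v)).card) =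
        ∑ g : V → B, ∑ b : B, lam ^ ((insert v S).card -
          ((insert v S).image fun u => π (Function.update g v b u)).card) := by
      rw [Finset.sum_comm]
      have h1 : ∀ b : B, ∑ g : V → B, lam ^ ((insert v S).card -
          ((insert v S).image fun u => π (Function.update g v b u)).card) =
          (Fintype.card B : ℝ) * ∑ g ∈ univ.filter (fun g : V → B => g v = b),
            lam ^ ((insert v S).card - ((insert v S).image fun v => π (g v)).card) := by
        intro b
        have h2 := Finset.sum_fiberwise_of_maps_to (s := (univ : Finset (V → B)))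
          (t := univ.filter (fun g : V → B => g v = b))
          (g := fun g => Function.update g v b) (fun g _ => by simp)
          (fun g => lam ^ ((insert v S).card -
            ((insert v S).image fun u => π (Function.update g v b u)).card))
        rw [← h2, Finset.mul_sum]
        apply Finset.sum_congr rfl
        intro g hg
        rw [Finset.mem_filter] at hg
        have h3 : ∀ g' ∈ univ.filter (fun g' : V → B => Function.update g' v b = g),
            lam ^ ((insert v S).card -
              ((insert v S).image fun u => π (Function.update g' v b u)).card) =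
            lam ^ ((insert v S).card - ((insert v S).image fun v => π (g v)).card) := by
          intro g' hg'
          rw [Finset.mem_filter] at hg'
          rw [hg'.2]
        rw [Finset.sum_congr rfl h3, Finset.sum_const, nsmul_eq_mul]
        congr 1
        -- the fibre has card B elements
        have h4 : (univ.filter (fun g' : V → B => Function.update g' v b = g)) =
            univ.image (fun c : B => Function.update g v c) := by
          ext g'
          simp only [Finset.mem_filter, Finset.mem_univ, true_and, Finset.mem_image]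
          constructor
          · intro h
            refine ⟨g' v, ?_⟩
            rw [← h]
            simp
          · rintro ⟨c, rfl⟩
            rw [Function.update_idem, ← hg.2, Function.update_eq_self]
        rw [h4, Finset.card_image_of_injective]
        · simp
        · intro c c' hcc
          have := congrFun hcc v
          simpa using this
      rw [Finset.sum_congr rfl (fun b _ => h1 b), ← Finset.mul_sum]
      congr 1
      rw [← Finset.sum_fiberwise_of_maps_to (s := (univ : Finset (V → B))) (t := (univ : Finset B))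
        (g := fun g => g v) (fun _ _ => Finset.mem_univ _)]
    -- inner sum
    have inner : ∀ g : V → B, ∑ b : B, lam ^ ((insert v S).card -
          ((insert v S).image fun u => π (Function.update g v b u)).card) ≤
        lam ^ (S.card - (S.image fun v => π (g v)).card) *
          ((Fintype.card B : ℝ) * (1 + lam * S.card / M)) := by
      intro g
      set I := S.image fun v => π (g v) with hI
      have hIc : I.card ≤ S.card := Finset.card_image_le
      have himg : ∀ b, ((insert v S).image fun u => π (Function.update g v b u)) =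
          insert (π b) I := by
        intro b
        rw [Finset.image_insert]
        congr 1
        · simp
        · rw [hI]
          apply Finset.image_congr
          intro u hu
          have : u ≠ v := fun h => hv (h ▸ hu)
          simp [Function.update_of_ne this]
      have hb : ∀ b : B, lam ^ ((insert v S).card -
          ((insert v S).image fun u => π (Function.update g v b u)).card) ≤
          lam ^ (S.card - I.card) * (1 + if π b ∈ I then lam else 0) := by
        intro b
        rw [himg b, Finset.card_insert_of_notMem hv]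
        by_cases hmem : π b ∈ I
        · rw [Finset.insert_eq_of_mem hmem, if_pos hmem]
          have : S.card + 1 - I.card = (S.card - I.card) + 1 := by omega
          rw [this, pow_succ]
          have h0 : 0 ≤ lam ^ (S.card - I.card) := by positivity
          nlinarith
        · rw [Finset.card_insert_of_notMem hmem, if_neg hmem]
          have : S.card + 1 - (I.card + 1) = S.card - I.card := by omega
          rw [this]; simp
      refine (Finset.sum_le_sum fun b _ => hb b).trans ?_
      rw [← Finset.mul_sum]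
      apply mul_le_mul_of_nonneg_left _ (by positivity)
      rw [Finset.sum_add_distrib, Finset.sum_ite, Finset.sum_const, Finset.sum_const_zero, add_zero,
        Finset.sum_const, nsmul_eq_mul, nsmul_eq_mul, mul_one, Finset.card_univ, mul_add, mul_one]
      have hcount : M * ((univ.filter fun b => π b ∈ I).card : ℝ) ≤
          (S.card : ℝ) * (Fintype.card B : ℝ) := by
        have h5 : ((univ.filter fun b => π b ∈ I).card : ℝ) =
            ∑ x ∈ I, ((univ.filter fun b => π b = x).card : ℝ) := by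
          rw [← Nat.cast_sum]
          congr 1
          rw [Finset.card_eq_sum_card_fiberwise (f := π) (t := I)]
          · apply Finset.sum_congr rfl
            intro x hx
            congr 1
            ext b
            simp only [Finset.mem_filter, Finset.mem_univ, true_and]
            constructor
            · exact fun h => h.2
            · intro h; exact ⟨h ▸ hx, h⟩
          · intro b hb
            simpa using hb
        rw [h5, Finset.mul_sum]
        calc ∑ x ∈ I, M * ((univ.filter fun b => π b = x).card : ℝ) ≤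
              ∑ x ∈ I, (Fintype.card B : ℝ) := Finset.sum_le_sum fun x _ => hfib x
          _ = I.card * (Fintype.card B : ℝ) := by rw [Finset.sum_const, nsmul_eq_mul]
          _ ≤ (S.card : ℝ) * (Fintype.card B : ℝ) := by
              apply mul_le_mul_of_nonneg_right _ hB.le
              exact_mod_cast hIc
      have h6 : ((univ.filter fun b => π b ∈ I).card : ℝ) * lam ≤
          (Fintype.card B : ℝ) * (lam * S.card / M) := by
        rw [← mul_div_assoc, le_div_iff₀ hM]
        nlinarith
      linarith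
    have h7 : (Fintype.card B : ℝ) *
        ∑ g : V → B, lam ^ ((insert v S).card - ((insert v S).image fun v => π (g v)).card) ≤
        (Fintype.card B : ℝ) * ((Fintype.card B : ℝ) ^ (Fintype.card V) *
          (1 + lam * S.card / M) ^ S.card * (1 + lam * S.card / M)) := by
      rw [key]
      calc ∑ g : V → B, ∑ b : B, lam ^ ((insert v S).card -
            ((insert v S).image fun u => π (Function.update g v b u)).card)
          ≤ ∑ g : V → B, lam ^ (S.card - (S.image fun v => π (g v)).card) *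
            ((Fintype.card B : ℝ) * (1 + lam * S.card / M)) :=
            Finset.sum_le_sum fun g _ => inner g
        _ = (∑ g : V → B, lam ^ (S.card - (S.image fun v => π (g v)).card)) *
            ((Fintype.card B : ℝ) * (1 + lam * S.card / M)) := by rw [Finset.sum_mul]
        _ ≤ ((Fintype.card B : ℝ) ^ (Fintype.card V) * (1 + lam * S.card / M) ^ S.card) *
            ((Fintype.card B : ℝ) * (1 + lam * S.card / M)) := by
            apply mul_le_mul_of_nonneg_right ih
            positivity
        _ = _ := by ring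
    have h8 := le_of_mul_le_mul_left h7 hB
    refine h8.trans ?_
    rw [Finset.card_insert_of_notMem hv, mul_assoc, ← pow_succ]
    apply mul_le_mul_of_nonneg_left _ (by positivity)
    apply pow_le_pow_left₀ (by positivity)
    push_cast
    have : lam * (S.card : ℝ) / M ≤ lam * ((S.card : ℝ) + 1) / M := by
      apply div_le_div_of_nonneg_right _ hM.le
      nlinarith
    linarith

theorem exp_one_le_three : Real.exp 1 ≤ 3 := by
  have := Real.exp_one_lt_d9
  linarith

theorem one_add_pow_le (n : ℕ) (hn : 1 ≤ n) : (1 + 1 / (n : ℝ)) ^ n ≤ 3 := by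
  have hn0 : (0 : ℝ) < n := by exact_mod_cast hn
  calc (1 + 1 / (n : ℝ)) ^ n ≤ (Real.exp (1 / (n : ℝ))) ^ n := by
        apply pow_le_pow_left₀ (by positivity)
        have := Real.add_one_le_exp (1 / (n : ℝ))
        linarith
    _ = Real.exp 1 := by
        rw [← Real.exp_nat_mul]
        congr 1
        field_simp
    _ ≤ 3 := exp_one_le_three

theorem self_pow_le (a : ℕ) : (a : ℝ) ^ a / (a.factorial : ℝ) ≤ 3 ^ a := by
  have h := Real.pow_div_factorial_le_exp (a : ℝ) (Nat.cast_nonneg a) a
  refine h.trans ?_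
  have : Real.exp (a : ℝ) = Real.exp 1 ^ a := by
    rw [← Real.exp_nat_mul, mul_one]
  rw [this]
  exact pow_le_pow_left₀ (Real.exp_pos 1).le exp_one_le_three a

/-- the union bound term -/
theorem term_bound (s D N a : ℕ) (hs : 1 ≤ s) (hN : N ≤ s * 2 ^ D) (ha2 : a ≤ 2 * s) :
    (N.choose a : ℝ) * ((a : ℝ) / (4 * s)) ^ (a * (D + 2)) ≤ (3 / 8) ^ a := by
  have hs0 : (0 : ℝ) < s := by exact_mod_cast hs
  have hx0 : (0 : ℝ) ≤ (a : ℝ) / (4 * s) := by positivity
  have hx : (a : ℝ) / (4 * s) ≤ 1 / 2 := by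
    rw [div_le_iff₀ (by positivity)]
    have : (a : ℝ) ≤ 2 * s := by exact_mod_cast ha2
    linarith
  have h1 : (N.choose a : ℝ) ≤ (s * 2 ^ D : ℝ) ^ a / a.factorial := by
    refine (Nat.choose_le_pow_div a N).trans ?_
    apply div_le_div_of_nonneg_right _ (by positivity)
    apply pow_le_pow_left₀ (by positivity)
    exact_mod_cast hN
  have h2 : ((a : ℝ) / (4 * s)) ^ (a * (D + 2)) ≤ ((a : ℝ) / (4 * s) * (1 / 2) ^ (D + 1)) ^ a := by
    rw [mul_comm a (D + 2), pow_mul]
    apply pow_le_pow_left₀ (by positivity)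
    rw [show D + 2 = (D + 1) + 1 by ring, pow_succ, mul_comm]
    apply mul_le_mul_of_nonneg_left _ hx0
    exact pow_le_pow_left₀ hx0 hx _
  have h3 : (0 : ℝ) < a.factorial := by positivity
  calc (N.choose a : ℝ) * ((a : ℝ) / (4 * s)) ^ (a * (D + 2))
      ≤ ((s * 2 ^ D : ℝ) ^ a / a.factorial) * ((a : ℝ) / (4 * s) * (1 / 2) ^ (D + 1)) ^ a :=
        mul_le_mul h1 h2 (by positivity) (by positivity)
    _ = ((s * 2 ^ D : ℝ) * ((a : ℝ) / (4 * s) * (1 / 2) ^ (D + 1))) ^ a / a.factorial := by
        rw [mul_pow (s * 2 ^ D : ℝ) ((a : ℝ) / (4 * s) * (1 / 2) ^ (D + 1))]; ring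
    _ = ((a : ℝ) * (1 / 8)) ^ a / a.factorial := by
        congr 2
        rw [one_div_pow, pow_succ]
        field_simp
        ring
    _ = ((a : ℝ) ^ a / a.factorial) * (1 / 8) ^ a := by
        rw [mul_pow]; ring
    _ ≤ 3 ^ a * (1 / 8) ^ a := by
        apply mul_le_mul_of_nonneg_right (self_pow_le a) (by positivity)
    _ = (3 / 8) ^ a := by rw [← mul_pow]; norm_num

theorem geom_bound (n : ℕ) : ∑ a ∈ Finset.range n, (3 / 8 : ℝ) ^ (a + 1) < 1 := by
  have h : ∑ a ∈ Finset.range n, (3 / 8 : ℝ) ^ (a + 1) = (3 / 5) * (1 - (3 / 8) ^ n) := by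
    induction n with
    | zero => simp
    | succ n ih => rw [Finset.sum_range_succ, ih, pow_succ]; ring
  rw [h]
  have : (0 : ℝ) < (3 / 8) ^ n := by positivity
  linarith

theorem expander (s t D N : ℕ) (hs : 1 ≤ s) (ht : 1 ≤ t) (hN : N ≤ s * 2 ^ D) :
    ∃ E : Fin (4 * t * (D + 2)) → Fin N → Fin (48 * s * t),
      ∀ S : Finset (Fin N), S.card ≤ 2 * s →
        ∑ i, (S.card - (S.image (E i)).card) ≤ (D + 2) * S.card := by
  classical
  by_contra hcon
  push Not at hcon
  have hMpos : 0 < 48 * s * t := by positivity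
  have : Nonempty (Fin (48 * s * t)) := ⟨⟨0, hMpos⟩⟩
  have hs0 : (0 : ℝ) < s := by exact_mod_cast hs
  have ht0 : (0 : ℝ) < t := by exact_mod_cast ht
  set M : ℝ := 48 * s * t with hMdef
  have hM0 : 0 < M := by positivity
  have hcardB : (Fintype.card (Fin (48 * s * t)) : ℝ) = M := by
    rw [Fintype.card_fin]; push_cast; rfl
  -- the bad sets
  let 𝒮 : Finset (Finset (Fin N)) := (univ : Finset (Fin N)).powerset.filter
    (fun S => 1 ≤ S.card ∧ S.card ≤ 2 * s)
  have hbadS : ∀ S ∈ 𝒮, ∑ E : Fin (4 * t * (D + 2)) → Fin N → Fin (48 * s * t),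
      (if (D + 2) * S.card < ∑ i, (S.card - (S.image (E i)).card) then (1 : ℝ) else 0) ≤
      (M ^ N) ^ (4 * t * (D + 2)) * ((S.card : ℝ) / (4 * s)) ^ (S.card * (D + 2)) := by
    intro S hS
    rw [Finset.mem_filter] at hS
    obtain ⟨_, h1, h2⟩ := hS
    set a := S.card with ha
    have ha0 : (0 : ℝ) < a := by exact_mod_cast h1
    have ha2 : (a : ℝ) ≤ 2 * s := by exact_mod_cast h2
    set lam : ℝ := 12 * s / a with hlam
    have hlam1 : 1 ≤ lam := by
      rw [hlam, le_div_iff₀ ha0]; linarith
    have hlam0 : 0 < lam := by linarith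
    have hmom := hash_moment (V := Fin N) (B := Fin (48 * s * t)) (X := Fin (48 * s * t)) id M lam
      hM0 hlam1 (by
        intro x
        have : (univ.filter fun b : Fin (48 * s * t) => id b = x) = {x} := by
          ext b; simp
        rw [this, Finset.card_singleton, hcardB]; simp) S
    simp only [id] at hmom
    rw [hcardB, Fintype.card_fin, ← ha] at hmom
    have hstep : ∀ E : Fin (4 * t * (D + 2)) → Fin N → Fin (48 * s * t),
        (if (D + 2) * a < ∑ i, (a - (S.image (E i)).card) then (1 : ℝ) else 0) ≤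
        (∏ i, lam ^ (a - (S.image (E i)).card)) / lam ^ (a * (D + 2)) := by
      intro E
      rw [Finset.prod_pow_eq_pow_sum]
      split_ifs with hc
      · rw [le_div_iff₀ (by positivity), one_mul]
        apply pow_le_pow_right₀ hlam1
        rw [mul_comm a]
        exact hc.le
      · positivity
    refine (Finset.sum_le_sum fun E _ => hstep E).trans ?_
    rw [← Finset.sum_div, ← Fintype.sum_pow (fun g : Fin N → Fin (48 * s * t) =>
      lam ^ (a - (S.image g).card))]
    have h3 : (∑ g : Fin N → Fin (48 * s * t), lam ^ (a - (S.image g).card)) ≤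
        M ^ N * (1 + lam * a / M) ^ a := hmom
    have h4 : lam * a / M = 1 / ((4 * t : ℕ) : ℝ) := by
      rw [hlam, hMdef]
      push_cast
      field_simp
      norm_num
    rw [h4] at h3
    have h5 : (∑ g : Fin N → Fin (48 * s * t), lam ^ (a - (S.image g).card)) ^ (4 * t * (D + 2)) ≤
        (M ^ N) ^ (4 * t * (D + 2)) * 3 ^ (a * (D + 2)) := by
      refine (pow_le_pow_left₀ (by positivity) h3 _).trans ?_
      rw [mul_pow]
      apply mul_le_mul_of_nonneg_left _ (by positivity)
      rw [← pow_mul, show a * (4 * t * (D + 2)) = (4 * t) * (a * (D + 2)) by ring, pow_mul]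
      apply pow_le_pow_left₀ (by positivity)
      exact one_add_pow_le (4 * t) (by omega)
    rw [div_le_iff₀ (by positivity)]
    refine h5.trans ?_
    have h6 : (3 : ℝ) ^ (a * (D + 2)) ≤ ((a : ℝ) / (4 * s)) ^ (a * (D + 2)) * lam ^ (a * (D + 2)) := by
      rw [← mul_pow]
      apply pow_le_pow_left₀ (by norm_num)
      rw [hlam]
      apply le_of_eq
      field_simp
      norm_num
    calc (M ^ N) ^ (4 * t * (D + 2)) * 3 ^ (a * (D + 2)) ≤ (M ^ N) ^ (4 * t * (D + 2)) *
          (((a : ℝ) / (4 * s)) ^ (a * (D + 2)) * lam ^ (a * (D + 2))) :=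
          mul_le_mul_of_nonneg_left h6 (by positivity)
      _ = _ := by ring
  -- total count
  have htot : ((M ^ N) ^ (4 * t * (D + 2)) : ℝ) ≤
      ∑ E : Fin (4 * t * (D + 2)) → Fin N → Fin (48 * s * t), ∑ S ∈ 𝒮,
        (if (D + 2) * S.card < ∑ i, (S.card - (S.image (E i)).card) then (1 : ℝ) else 0) := by
    have h1 : ((M ^ N) ^ (4 * t * (D + 2)) : ℝ) =
        ∑ E : Fin (4 * t * (D + 2)) → Fin N → Fin (48 * s * t), (1 : ℝ) := by
      rw [Finset.sum_const, nsmul_eq_mul, mul_one, Finset.card_univ, Fintype.card_fun,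
        Fintype.card_fun, Fintype.card_fin, Fintype.card_fin, Fintype.card_fin]
      push_cast
      rfl
    rw [h1]
    apply Finset.sum_le_sum
    intro E _
    obtain ⟨S, hS1, hS2⟩ := hcon E
    have hS0 : 1 ≤ S.card := by
      by_contra h0
      have : S.card = 0 := by omega
      rw [this] at hS2
      simp at hS2
    have hmem : S ∈ 𝒮 := by
      simp only [𝒮, Finset.mem_filter, Finset.mem_powerset, Finset.subset_univ, true_and]
      exact ⟨hS0, hS1⟩
    calc (1 : ℝ) = (if (D + 2) * S.card < ∑ i, (S.card - (S.image (E i)).card) then (1 : ℝ) else 0) := by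
          rw [if_pos hS2]
      _ ≤ _ := Finset.single_le_sum (f := fun S : Finset (Fin N) =>
          (if (D + 2) * S.card < ∑ i, (S.card - (S.image (E i)).card) then (1 : ℝ) else 0))
          (fun S _ => by split_ifs <;> norm_num) hmem
  rw [Finset.sum_comm] at htot
  have hsum : ∑ S ∈ 𝒮, ((S.card : ℝ) / (4 * s)) ^ (S.card * (D + 2)) < 1 := by
    have h1 : ∑ S ∈ 𝒮, ((S.card : ℝ) / (4 * s)) ^ (S.card * (D + 2)) =
        ∑ S ∈ (univ : Finset (Fin N)).powerset,
          (fun a : ℕ => if 1 ≤ a ∧ a ≤ 2 * s then ((a : ℝ) / (4 * s)) ^ (a * (D + 2)) else 0) S.card := by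
      rw [Finset.sum_filter]
    have h1' := Finset.sum_powerset_apply_card
      (fun a : ℕ => if 1 ≤ a ∧ a ≤ 2 * s then ((a : ℝ) / (4 * s)) ^ (a * (D + 2)) else 0)
      (x := (univ : Finset (Fin N)))
    rw [h1.trans h1', Finset.card_univ, Fintype.card_fin, Finset.sum_range_succ']
    simp only [nsmul_eq_mul]
    have h2 : ∀ a ∈ Finset.range N, ((N.choose (a + 1) : ℕ) : ℝ) *
        (if 1 ≤ a + 1 ∧ a + 1 ≤ 2 * s then (((a + 1 : ℕ) : ℝ) / (4 * s)) ^ ((a + 1) * (D + 2)) else 0) ≤
        (3 / 8) ^ (a + 1) := by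
      intro a _
      split_ifs with hc
      · exact term_bound s D N (a + 1) hs hN hc.2
      · rw [mul_zero]; positivity
    have h3 := Finset.sum_le_sum h2
    have h4 := geom_bound N
    have h5 : ¬ (1 ≤ 0 ∧ 0 ≤ 2 * s) := by omega
    rw [if_neg h5, mul_zero, add_zero]
    linarith
  have h6 := htot.trans (Finset.sum_le_sum hbadS)
  rw [← Finset.mul_sum] at h6
  have h7 : (0 : ℝ) < (M ^ N) ^ (4 * t * (D + 2)) := by positivity
  nlinarith

/-- kernel property of an expander -/
theorem nsp_of_expander (s t e d Dp N M : ℕ) (hs : 1 ≤ s) (ht : 1 ≤ t)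
    (hd : d = 4 * t * e) (hDp : Dp + e = d) (he : 1 ≤ e)
    (E : Fin d → Fin N → Fin M)
    (hE : ∀ S : Finset (Fin N), S.card ≤ 2 * s →
      ∑ i, (S.card - (S.image (E i)).card) ≤ e * S.card)
    (x : Fin N → ℝ) (hx : ∀ i b, ∑ c ∈ univ.filter (fun c => E i c = b), x c = 0)
    (S : Finset (Fin N)) (hS : S.card ≤ s) :
    t * ∑ c ∈ S, |x c| ≤ ∑ c, |x c| := by
  classical
  -- a maximising set
  obtain ⟨S0, hS0mem, hS0max⟩ := Finset.exists_max_image
    ((univ : Finset (Finset (Fin N))).filter (fun S => S.card ≤ s)) (fun S => ∑ c ∈ S, |x c|)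
    ⟨∅, by simp⟩
  have hS0 : S0.card ≤ s := by simpa using hS0mem
  have hmax : ∀ S : Finset (Fin N), S.card ≤ s → ∑ c ∈ S, |x c| ≤ ∑ c ∈ S0, |x c| := by
    intro S hS
    exact hS0max S (by simpa using hS)
  set X0 := ∑ c ∈ S0, |x c| with hX0
  have hX0nn : 0 ≤ X0 := Finset.sum_nonneg fun _ _ => abs_nonneg _
  have hout : ∀ c, c ∉ S0 → s * |x c| ≤ X0 := by
    intro c hc
    by_cases hcard : S0.card < s
    · have h1 := hmax (insert c S0) (by rw [Finset.card_insert_of_notMem hc]; omega)
      rw [Finset.sum_insert hc] at h1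
      have h2 : |x c| ≤ 0 := by linarith
      have h3 := abs_nonneg (x c)
      have h4 : |x c| = 0 := le_antisymm h2 h3
      rw [h4, mul_zero]; exact hX0nn
    · have hc2 : S0.card = s := by omega
      have h1 : ∀ c' ∈ S0, |x c| ≤ |x c'| := by
        intro c' hc'
        have hne : c ∉ S0.erase c' := fun h => hc (Finset.mem_of_mem_erase h)
        have h2 := hmax (insert c (S0.erase c')) (by
          rw [Finset.card_insert_of_notMem hne, Finset.card_erase_of_mem hc']
          have : 1 ≤ S0.card := Finset.card_pos.mpr ⟨c', hc'⟩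
          omega)
        rw [Finset.sum_insert hne] at h2
        have h3 := Finset.add_sum_erase S0 (fun c => |x c|) hc'
        linarith
      have h2 := Finset.sum_le_sum h1
      rw [Finset.sum_const, nsmul_eq_mul, hc2] at h2
      exact h2
  -- Hall
  let row : Fin N → Finset (Fin d × Fin M) := fun c => univ.image (fun i => (i, E i c))
  have hmemrow : ∀ c i b, (i, b) ∈ row c ↔ E i c = b := by
    intro c i b
    simp only [row, Finset.mem_image, Finset.mem_univ, true_and, Prod.mk.injEq]
    constructor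
    · rintro ⟨j, rfl, h⟩; exact h
    · intro h; exact ⟨i, rfl, h⟩
  have hrowcard : ∀ c, (row c).card = d := by
    intro c
    rw [Finset.card_image_of_injective, Finset.card_univ, Fintype.card_fin]
    intro i j hij
    exact (Prod.mk.inj hij).1
  have hN : ∀ U : Finset (Fin N), (U.biUnion row).card = ∑ i, (U.image (E i)).card := by
    intro U
    rw [Finset.card_eq_sum_card_fiberwise (f := Prod.fst) (t := univ) (fun _ _ => by simp)]
    apply Finset.sum_congr rfl
    intro i _
    apply Finset.card_bij (fun p _ => p.2)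
    · intro p hp
      simp only [Finset.mem_filter, Finset.mem_biUnion] at hp
      obtain ⟨⟨c, hc, hp1⟩, hp2⟩ := hp
      have : E i c = p.2 := by
        rw [← hmemrow]
        rw [← hp2]; exact hp1
      exact Finset.mem_image.mpr ⟨c, hc, this⟩
    · intro p hp q hq h
      simp only [Finset.mem_filter] at hp hq
      exact Prod.ext (hp.2.trans hq.2.symm) h
    · intro b hb
      obtain ⟨c, hc, h⟩ := Finset.mem_image.mp hb
      refine ⟨(i, b), ?_, rfl⟩
      simp only [Finset.mem_filter, Finset.mem_biUnion]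
      exact ⟨⟨c, hc, (hmemrow c i b).mpr h⟩, trivial⟩
  have hexp : ∀ U : Finset (Fin N), U.card ≤ 2 * s →
      Dp * U.card ≤ (U.biUnion row).card := by
    intro U hU
    rw [hN]
    have h1 := hE U hU
    have h2 : ∑ i : Fin d, (U.card - (U.image (E i)).card) +
        ∑ i, (U.image (E i)).card = d * U.card := by
      rw [← Finset.sum_add_distrib]
      have : ∀ i ∈ (univ : Finset (Fin d)),
          (U.card - (U.image (E i)).card) + (U.image (E i)).card = U.card := by
        intro i _
        have := Finset.card_image_le (s := U) (f := E i)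
        omega
      rw [Finset.sum_congr rfl this, Finset.sum_const, Finset.card_univ, Fintype.card_fin,
        smul_eq_mul]
    have h4 : d * U.card = Dp * U.card + e * U.card := by rw [← hDp]; ring
    omega
  obtain ⟨f, hfinj, hf⟩ := (Finset.all_card_le_biUnion_card_iff_exists_injective
    (fun p : {c // c ∈ S0} × Fin Dp => row p.1.1)).mp (by
      intro A
      let U := A.image (fun p => p.1.1)
      have hU1 : U ⊆ S0 := by
        intro c hc
        simp only [U, Finset.mem_image] at hc
        obtain ⟨p, _, rfl⟩ := hc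
        exact p.1.2
      have hU2 : A.biUnion (fun p => row p.1.1) = U.biUnion row := by
        simp only [U, Finset.image_biUnion]
      rw [hU2]
      have hU3 : U.card ≤ 2 * s := by
        have := Finset.card_le_card hU1
        omega
      refine le_trans ?_ (hexp U hU3)
      have h1 : A.card ≤ (U ×ˢ (univ : Finset (Fin Dp))).card := by
        apply Finset.card_le_card_of_injOn (fun p => (p.1.1, p.2))
        · intro p hp
          simp only [Finset.coe_product, Set.mem_prod, Finset.mem_coe, Finset.mem_univ, and_true]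
          exact Finset.mem_image_of_mem _ hp
        · rintro ⟨⟨c, hc⟩, j⟩ _ ⟨⟨c', hc'⟩, j'⟩ _ h
          simp only [Prod.mk.injEq] at h
          obtain ⟨rfl, rfl⟩ := h
          rfl
      rw [Finset.card_product, Finset.card_univ, Fintype.card_fin, mul_comm] at h1
      exact h1)
  -- the basic inequality for every row
  have hrow : ∀ p : {c // c ∈ S0} × Fin Dp,
      |x p.1.1| ≤ ∑ c, if c ≠ p.1.1 ∧ f p ∈ row c then |x c| else 0 := by
    intro p
    have h1 := hf p
    obtain ⟨⟨i, b⟩, hi⟩ : ∃ r, r = f p := ⟨_, rfl⟩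
    rw [← hi, hmemrow] at h1
    have h2 := hx i b
    have h3 : p.1.1 ∈ univ.filter (fun c => E i c = b) := by simp [h1]
    rw [← Finset.add_sum_erase _ _ h3] at h2
    have h4 : |x p.1.1| ≤ ∑ c ∈ (univ.filter (fun c => E i c = b)).erase p.1.1, |x c| := by
      have h5 : x p.1.1 = -∑ c ∈ (univ.filter (fun c => E i c = b)).erase p.1.1, x c := by
        linarith
      rw [h5, abs_neg]
      exact Finset.abs_sum_le_sum_abs _ _
    refine h4.trans ?_
    rw [← Finset.sum_filter]
    apply Finset.sum_le_sum_of_subset_of_nonneg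
    · intro c hc
      simp only [Finset.mem_erase, Finset.mem_filter, Finset.mem_univ, true_and] at hc ⊢
      refine ⟨hc.1, ?_⟩
      rw [← hi, hmemrow]
      exact hc.2
    · intro _ _ _; exact abs_nonneg _
  -- number of selected rows through c
  let cnt : Fin N → ℕ := fun c => (univ.filter (fun p : {c // c ∈ S0} × Fin Dp =>
    c ≠ p.1.1 ∧ f p ∈ row c)).card
  have hsum : (Dp : ℝ) * X0 ≤ ∑ c, |x c| * cnt c := by
    have h1 : ∑ p : {c // c ∈ S0} × Fin Dp, |x p.1.1| = (Dp : ℝ) * X0 := by
      rw [Fintype.sum_prod_type]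
      simp only [Finset.sum_const, Finset.card_univ, Fintype.card_fin, nsmul_eq_mul]
      rw [← Finset.mul_sum, hX0, ← Finset.sum_coe_sort S0 (fun c => |x c|)]
    rw [← h1]
    refine (Finset.sum_le_sum fun p _ => hrow p).trans ?_
    rw [Finset.sum_comm]
    apply le_of_eq
    apply Finset.sum_congr rfl
    intro c _
    rw [← Finset.sum_filter, Finset.sum_const, nsmul_eq_mul, mul_comm]
  have hcnt_in : ∀ c ∈ S0, cnt c ≤ e := by
    intro c hc
    have h2 : ((univ.filter (fun p : {c // c ∈ S0} × Fin Dp =>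
        c ≠ p.1.1 ∧ f p ∈ row c)) ∪ (univ.image (fun j => ((⟨c, hc⟩ : {c // c ∈ S0}), j)))).image f
        ⊆ row c := by
      intro r hr
      simp only [Finset.mem_image, Finset.mem_union, Finset.mem_filter, Finset.mem_univ,
        true_and] at hr
      obtain ⟨p, hp | ⟨j, hj⟩, rfl⟩ := hr
      · exact hp.2
      · have := hf p
        rw [← hj] at this ⊢
        exact this
    have h3 := Finset.card_le_card h2
    rw [Finset.card_image_of_injective _ hfinj, hrowcard, Finset.card_union_of_disjoint,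
      Finset.card_image_of_injective, Finset.card_univ, Fintype.card_fin] at h3
    · show (univ.filter (fun p : {c // c ∈ S0} × Fin Dp =>
        c ≠ p.1.1 ∧ f p ∈ row c)).card ≤ e
      omega
    · intro j j' h
      exact (Prod.mk.inj h).2
    · rw [Finset.disjoint_left]
      intro p hp hp'
      simp only [Finset.mem_image, Finset.mem_filter, Finset.mem_univ, true_and] at hp hp'
      obtain ⟨j, rfl⟩ := hp'
      exact hp.1 rfl
  -- hits outside
  let hit : Fin N → ℕ := fun c => (univ.filter (fun i => E i c ∈ S0.image (E i))).card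
  have hcnt_out : ∀ c, cnt c ≤ hit c := by
    intro c
    apply Finset.card_le_card_of_injOn (fun p => (f p).1)
    · intro p hp
      simp only [Finset.coe_filter, Finset.mem_univ, true_and, Set.mem_setOf_eq] at hp ⊢
      obtain ⟨⟨i, b⟩, hi⟩ : ∃ r, r = f p := ⟨_, rfl⟩
      have h1 := hp.2
      have h2 := hf p
      rw [← hi, hmemrow] at h1 h2
      rw [← hi]
      simp only
      rw [h1, ← h2]
      exact Finset.mem_image_of_mem _ p.1.2
    · intro p hp q hq h
      simp only [Finset.coe_filter, Finset.mem_univ, true_and, Set.mem_setOf_eq] at hp hq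
      apply hfinj
      obtain ⟨⟨i, b⟩, hi⟩ : ∃ r, r = f p := ⟨_, rfl⟩
      obtain ⟨⟨i', b'⟩, hi'⟩ : ∃ r, r = f q := ⟨_, rfl⟩
      have h1 := hp.2
      have h2 := hq.2
      simp only at h
      rw [← hi, ← hi'] at h ⊢
      simp only at h
      rw [← hi, hmemrow] at h1
      rw [← hi', hmemrow] at h2
      subst h
      rw [← h1, ← h2]
  have hhit : ∀ U : Finset (Fin N), Disjoint S0 U → U.card ≤ s →
      ∑ c ∈ U, hit c ≤ 2 * e * s := by
    intro U hd hU
    have h1 := hE (S0 ∪ U) (by rw [Finset.card_union_of_disjoint hd]; omega)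
    have h2 : ∑ c ∈ U, hit c = ∑ i, (U.filter (fun c => E i c ∈ S0.image (E i))).card := by
      simp only [hit, Finset.card_filter]
      rw [Finset.sum_comm]
    rw [h2]
    have h3 : ∀ i ∈ (univ : Finset (Fin d)), (U.filter (fun c => E i c ∈ S0.image (E i))).card ≤
        (S0 ∪ U).card - ((S0 ∪ U).image (E i)).card := by
      intro i _
      rw [Finset.card_union_of_disjoint hd, Finset.image_union]
      have h4 : (S0.image (E i) ∪ U.image (E i)).card ≤ S0.card +
          (U.filter (fun c => ¬ E i c ∈ S0.image (E i))).card := by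
        calc (S0.image (E i) ∪ U.image (E i)).card ≤
              (S0.image (E i) ∪ (U.filter (fun c => ¬ E i c ∈ S0.image (E i))).image (E i)).card := by
              apply Finset.card_le_card
              intro b hb
              rw [Finset.mem_union] at hb ⊢
              rcases hb with hb | hb
              · exact Or.inl hb
              · by_cases h : b ∈ S0.image (E i)
                · exact Or.inl h
                · right
                  obtain ⟨c, hc, rfl⟩ := Finset.mem_image.mp hb
                  exact Finset.mem_image_of_mem _ (Finset.mem_filter.mpr ⟨hc, h⟩)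
          _ ≤ (S0.image (E i)).card + ((U.filter (fun c => ¬ E i c ∈ S0.image (E i))).image (E i)).card :=
              Finset.card_union_le _ _
          _ ≤ _ := Nat.add_le_add Finset.card_image_le Finset.card_image_le
      have h5 := Finset.card_filter_add_card_filter_not (s := U) (fun c => E i c ∈ S0.image (E i))
      omega
    refine (Finset.sum_le_sum h3).trans (h1.trans ?_)
    rw [Finset.card_union_of_disjoint hd]
    nlinarith
  -- combine
  let U := univ.filter (fun c => c ∉ S0 ∧ 2 * e < hit c)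
  have hUd : Disjoint S0 U := by
    rw [Finset.disjoint_left]
    intro c hc hc'
    simp only [U, Finset.mem_filter, Finset.mem_univ, true_and] at hc'
    exact hc'.1 hc
  have hUs : U.card ≤ s := by
    by_contra hcon
    push Not at hcon
    obtain ⟨U', hU', hcard⟩ := Finset.exists_subset_card_eq hcon.le
    have h1 := hhit U' (hUd.mono_right hU') hcard.le
    have h2 : ∑ c ∈ U', (2 * e + 1) ≤ ∑ c ∈ U', hit c := by
      apply Finset.sum_le_sum
      intro c hc
      have := hU' hc
      simp only [U, Finset.mem_filter, Finset.mem_univ, true_and] at this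
      omega
    rw [Finset.sum_const, hcard, smul_eq_mul] at h2
    nlinarith
  have hUhit := hhit U hUd hUs
  have hs0 : (0 : ℝ) < s := by exact_mod_cast hs
  -- pointwise bound outside
  have hpt : ∀ c, c ∉ S0 → (s : ℝ) * (|x c| * cnt c) ≤ (s : ℝ) * (|x c| * (2 * e)) +
      (if c ∈ U then X0 * hit c else 0) := by
    intro c hc
    have hxc := hout c hc
    have hxn := abs_nonneg (x c)
    by_cases hcU : c ∈ U
    · rw [if_pos hcU]
      have h1 : (cnt c : ℝ) ≤ hit c := by exact_mod_cast hcnt_out c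
      have h2 : (0 : ℝ) ≤ hit c := Nat.cast_nonneg _
      have h3 : (s : ℝ) * (|x c| * cnt c) ≤ X0 * hit c := by
        calc (s : ℝ) * (|x c| * cnt c) = (s * |x c|) * cnt c := by ring
          _ ≤ X0 * cnt c := mul_le_mul_of_nonneg_right hxc (Nat.cast_nonneg _)
          _ ≤ X0 * hit c := mul_le_mul_of_nonneg_left h1 hX0nn
      have h4 : 0 ≤ (s : ℝ) * (|x c| * (2 * e)) := by positivity
      linarith
    · rw [if_neg hcU, add_zero]
      have h1 : ¬ (2 * e < hit c) := by
        intro h
        exact hcU (by simp only [U, Finset.mem_filter, Finset.mem_univ, true_and]; exact ⟨hc, h⟩)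
      have h2 : (cnt c : ℝ) ≤ 2 * e := by
        have := hcnt_out c
        have h3 : cnt c ≤ 2 * e := by omega
        exact_mod_cast h3
      apply mul_le_mul_of_nonneg_left _ hs0.le
      exact mul_le_mul_of_nonneg_left h2 hxn
  -- final sum
  have hfin : (s : ℝ) * ((Dp : ℝ) * X0) ≤ (s : ℝ) * (e * X0) +
      ((s : ℝ) * (2 * e * (∑ c, |x c| - X0)) + X0 * (2 * e * s)) := by
    have h1 : (s : ℝ) * ∑ c, |x c| * cnt c = ∑ c ∈ S0, (s : ℝ) * (|x c| * cnt c) +
        ∑ c ∈ univ \ S0, (s : ℝ) * (|x c| * cnt c) := by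
      rw [Finset.mul_sum, ← Finset.sum_sdiff (Finset.subset_univ S0), add_comm]
    have h2 : ∑ c ∈ S0, (s : ℝ) * (|x c| * cnt c) ≤ (s : ℝ) * (e * X0) := by
      rw [hX0, Finset.mul_sum, Finset.mul_sum]
      apply Finset.sum_le_sum
      intro c hc
      have h3 : (cnt c : ℝ) ≤ e := by exact_mod_cast hcnt_in c hc
      apply mul_le_mul_of_nonneg_left _ hs0.le
      rw [mul_comm]
      exact mul_le_mul_of_nonneg_right h3 (abs_nonneg _)
    have h4 : ∑ c ∈ univ \ S0, (s : ℝ) * (|x c| * cnt c) ≤
        (s : ℝ) * (2 * e * (∑ c, |x c| - X0)) + X0 * (2 * e * s) := by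
      refine (Finset.sum_le_sum fun c hc => hpt c (by simpa using hc)).trans ?_
      rw [Finset.sum_add_distrib]
      apply add_le_add
      · apply le_of_eq
        have h5 : ∑ c, |x c| = ∑ c ∈ univ \ S0, |x c| + X0 := by
          rw [hX0, Finset.sum_sdiff (Finset.subset_univ S0)]
        rw [h5, add_sub_cancel_right, Finset.mul_sum, Finset.mul_sum]
        apply Finset.sum_congr rfl
        intro c _
        ring
      · rw [← Finset.sum_filter]
        calc ∑ c ∈ (univ \ S0).filter (fun c => c ∈ U), X0 * (hit c : ℝ)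
            ≤ ∑ c ∈ U, X0 * (hit c : ℝ) := by
              apply Finset.sum_le_sum_of_subset_of_nonneg
              · intro c hc
                exact (Finset.mem_filter.mp hc).2
              · intro _ _ _; positivity
          _ = X0 * ((∑ c ∈ U, hit c : ℕ) : ℝ) := by push_cast; rw [Finset.mul_sum]
          _ ≤ X0 * (2 * e * s) := by
              apply mul_le_mul_of_nonneg_left _ hX0nn
              exact_mod_cast hUhit
    have h6 := mul_le_mul_of_nonneg_left hsum hs0.le
    linarith
  have hfin2 : ((Dp : ℝ) * X0) ≤ (e * X0) + 2 * e * ∑ c, |x c| := by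
    have h1 : (s : ℝ) * ((Dp : ℝ) * X0) ≤ (s : ℝ) * ((e * X0) + 2 * e * ∑ c, |x c|) := by
      calc (s : ℝ) * ((Dp : ℝ) * X0) ≤ _ := hfin
        _ = _ := by ring
    exact le_of_mul_le_mul_left h1 hs0
  have he0 : (0 : ℝ) < e := by exact_mod_cast he
  have ht1 : (1 : ℝ) ≤ t := by exact_mod_cast ht
  have hDpr : (Dp : ℝ) = (4 * t - 1) * e := by
    have h1 : (Dp : ℝ) + e = 4 * t * e := by exact_mod_cast hDp.trans hd
    linarith
  have h1 : (2 * (t : ℝ) - 1) * X0 ≤ ∑ c, |x c| := by
    rw [hDpr] at hfin2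
    have h2 : (2 * (e : ℝ)) * ((2 * (t : ℝ) - 1) * X0) ≤ (2 * (e : ℝ)) * ∑ c, |x c| := by
      nlinarith
    exact le_of_mul_le_mul_left h2 (by positivity)
  have h2 := hmax S hS
  have h3 : (t : ℝ) * X0 ≤ (2 * (t : ℝ) - 1) * X0 := by
    apply mul_le_mul_of_nonneg_right _ hX0nn
    linarith
  have h4 : (t : ℝ) * ∑ c ∈ S, |x c| ≤ t * X0 := mul_le_mul_of_nonneg_left h2 (by linarith)
  linarith

/-! ### counting rooted subtrees by depth first words -/

def step (p : ℕ) (a : Fin 3) : ℕ := if a = 0 then 2 * p else if a = 1 then 2 * p + 1 else max 1 (p / 2)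

theorem step_zero (p : ℕ) : step p 0 = 2 * p := by unfold step; rw [if_pos rfl]

theorem step_one (p : ℕ) : step p 1 = 2 * p + 1 := by
  unfold step; rw [if_neg (by decide), if_pos rfl]

theorem step_two (p : ℕ) : step p 2 = max 1 (p / 2) := by
  unfold step; rw [if_neg (by decide), if_neg (by decide)]

def visited : List (Fin 3) → ℕ → Finset ℕ
  | [], p => {p}
  | a :: l, p => insert p (visited l (step p a))

theorem mem_visited (l : List (Fin 3)) (p : ℕ) : p ∈ visited l p := by
  cases l with
  | nil => simp [visited]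
  | cons a l => simp [visited]

theorem insert_word (a : Fin 3) (ha : a = 0 ∨ a = 1) (q : ℕ) (hq : 1 ≤ q) :
    ∀ (l : List (Fin 3)) (p : ℕ), q ∈ visited l p →
      ∃ l' : List (Fin 3), l'.length = l.length + 2 ∧ visited l' p = insert (step q a) (visited l p) := by
  have hback : step (step q a) 2 = q := by
    rcases ha with rfl | rfl
    · rw [step_zero, step_two]; omega
    · rw [step_one, step_two]; omega
  have hroot : ∀ l : List (Fin 3), ∃ l' : List (Fin 3), l'.length = l.length + 2 ∧
      visited l' q = insert (step q a) (visited l q) := by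
    intro l
    refine ⟨a :: 2 :: l, by simp, ?_⟩
    simp only [visited]
    rw [hback, Finset.insert_comm, Finset.insert_eq_of_mem (mem_visited l q)]
  intro l
  induction l with
  | nil =>
    intro p hp
    simp only [visited, Finset.mem_singleton] at hp
    subst hp
    exact hroot []
  | cons b l ih =>
    intro p hp
    by_cases hpq : q = p
    · subst hpq
      exact hroot (b :: l)
    · simp only [visited, Finset.mem_insert] at hp
      have hq' := hp.resolve_left hpq
      obtain ⟨l', hl', hv⟩ := ih (step p b) hq'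
      refine ⟨b :: l', by simp [hl'], ?_⟩
      simp only [visited]
      rw [hv, Finset.insert_comm]

theorem exists_word : ∀ (m : ℕ) (T : Finset ℕ), T.card = m + 1 → 1 ∈ T →
    (∀ p ∈ T, 1 ≤ p ∧ (p ≠ 1 → p / 2 ∈ T)) →
    ∃ l : List (Fin 3), l.length = 2 * m ∧ visited l 1 = T := by
  intro m
  induction m with
  | zero =>
    intro T hcard h1 _
    rw [zero_add, Finset.card_eq_one] at hcard
    obtain ⟨a, ha⟩ := hcard
    rw [ha, Finset.mem_singleton] at h1
    subst h1
    exact ⟨[], rfl, by rw [ha]; rfl⟩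
  | succ m ih =>
    intro T hcard h1 hT
    have hne : T.Nonempty := ⟨1, h1⟩
    set v := T.max' hne with hv
    have hvT : v ∈ T := Finset.max'_mem T hne
    have hv1 : v ≠ 1 := by
      intro h
      have : T ⊆ {1} := by
        intro p hp
        have h2 := Finset.le_max' T p hp
        rw [← hv, h] at h2
        have h3 := (hT p hp).1
        rw [Finset.mem_singleton]; omega
      have := Finset.card_le_card this
      rw [Finset.card_singleton] at this
      omega
    obtain ⟨hv2, hv3⟩ := hT v hvT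
    have hq := hv3 hv1
    have hcard' : (T.erase v).card = m + 1 := by
      rw [Finset.card_erase_of_mem hvT]; omega
    obtain ⟨l, hl, hvis⟩ := ih (T.erase v) hcard' (Finset.mem_erase.mpr ⟨fun h => hv1 h.symm, h1⟩) (by
      intro p hp
      have hpT := Finset.mem_of_mem_erase hp
      refine ⟨(hT p hpT).1, fun hp1 => ?_⟩
      have h2 := (hT p hpT).2 hp1
      rw [Finset.mem_erase]
      refine ⟨?_, h2⟩
      have h3 := Finset.le_max' T p hpT
      have h4 := (hT p hpT).1
      rw [← hv] at h3
      omega)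
    have hqm : v / 2 ∈ visited l 1 := by
      rw [hvis, Finset.mem_erase]
      exact ⟨by omega, hq⟩
    have hq1 : 1 ≤ v / 2 := by omega
    rcases Nat.even_or_odd v with he | ho
    · obtain ⟨l', hl', hv'⟩ := insert_word 0 (Or.inl rfl) (v / 2) hq1 l 1 hqm
      refine ⟨l', by omega, ?_⟩
      rw [hv', hvis]
      have : step (v / 2) 0 = v := by
        simp only [step, if_pos]
        exact Nat.mul_div_cancel' he.two_dvd
      rw [this, Finset.insert_erase hvT]
    · obtain ⟨l', hl', hv'⟩ := insert_word 1 (Or.inr rfl) (v / 2) hq1 l 1 hqm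
      refine ⟨l', by omega, ?_⟩
      rw [hv', hvis]
      have : step (v / 2) 1 = v := by
        simp only [step]
        norm_num
        obtain ⟨r, hr⟩ := ho
        omega
      rw [this, Finset.insert_erase hvT]

theorem pad_word (m : ℕ) (l : List (Fin 3)) : visited (List.replicate m 2 ++ l) 1 = visited l 1 := by
  induction m with
  | zero => rfl
  | succ m ih =>
    rw [List.replicate_succ, List.cons_append]
    simp only [visited]
    have : step 1 2 = 1 := by simp [step]
    rw [this, ih, Finset.insert_eq_of_mem (mem_visited l 1)]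

theorem exists_word_len (K : ℕ) (T : Finset ℕ) (hcard : T.card ≤ K) (h1 : 1 ∈ T)
    (hT : ∀ p ∈ T, 1 ≤ p ∧ (p ≠ 1 → p / 2 ∈ T)) :
    ∃ w : Fin (2 * K) → Fin 3, visited (List.ofFn w) 1 = T := by
  have hpos : 1 ≤ T.card := Finset.card_pos.mpr ⟨1, h1⟩
  obtain ⟨l, hl, hv⟩ := exists_word (T.card - 1) T (by omega) h1 hT
  set l' := List.replicate (2 * K - l.length) 2 ++ l with hl'
  have hlen : l'.length = 2 * K := by
    rw [hl', List.length_append, List.length_replicate]; omega
  refine ⟨fun i => l'.get (i.cast hlen.symm), ?_⟩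
  have : List.ofFn (fun i : Fin (2 * K) => l'.get (i.cast hlen.symm)) = l' := by
    apply List.ext_get
    · simp [hlen]
    · intro i h1 h2
      simp
  rw [this, hl', pad_word, hv]

/-- rooted subtrees -/
def Rooted {n : ℕ} (T : Finset (Fin n)) : Prop :=
  (∃ r ∈ T, r.val = 0) ∧ ∀ i ∈ T, i.val ≠ 0 → ∃ j ∈ T, j.val + 1 = (i.val + 1) / 2

theorem rooted_label {n : ℕ} {T : Finset (Fin n)} (hT : Rooted T) :
    1 ∈ T.image (fun u => u.val + 1) ∧ ∀ p ∈ T.image (fun u => u.val + 1), 1 ≤ p ∧
      (p ≠ 1 → p / 2 ∈ T.image (fun u => u.val + 1)) := by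
  obtain ⟨⟨r, hr, hr0⟩, h2⟩ := hT
  refine ⟨Finset.mem_image.mpr ⟨r, hr, by rw [hr0]⟩, ?_⟩
  intro p hp
  obtain ⟨i, hi, rfl⟩ := Finset.mem_image.mp hp
  refine ⟨by omega, fun h => ?_⟩
  obtain ⟨j, hj, hj2⟩ := h2 i hi (by omega)
  exact Finset.mem_image.mpr ⟨j, hj, hj2⟩

theorem count_rooted (n K : ℕ) (𝒯 : Finset (Finset (Fin n)))
    (h : ∀ T ∈ 𝒯, Rooted T ∧ T.card ≤ K) : 𝒯.card ≤ 3 ^ (2 * K) := by
  classical
  have hinj : Function.Injective (fun u : Fin n => u.val + 1) := by
    intro u v huv
    exact Fin.ext (by simpa using huv)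
  calc 𝒯.card = (𝒯.image (fun T => T.image (fun u => u.val + 1))).card := by
        rw [Finset.card_image_of_injective _ (Finset.image_injective hinj)]
    _ ≤ ((univ : Finset (Fin (2 * K) → Fin 3)).image (fun w => visited (List.ofFn w) 1)).card := by
        apply Finset.card_le_card
        intro S hS
        obtain ⟨T, hT, rfl⟩ := Finset.mem_image.mp hS
        obtain ⟨hr, hc⟩ := h T hT
        obtain ⟨h1, h2⟩ := rooted_label hr
        obtain ⟨w, hw⟩ := exists_word_len K (T.image (fun u => u.val + 1))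
          (Finset.card_image_le.trans hc) h1 h2
        exact Finset.mem_image.mpr ⟨w, Finset.mem_univ _, hw⟩
    _ ≤ (univ : Finset (Fin (2 * K) → Fin 3)).card := Finset.card_image_le
    _ = 3 ^ (2 * K) := by simp

/-- nodes of a rooted subtree with at most `K` nodes have small labels -/
theorem rooted_small {n : ℕ} {T : Finset (Fin n)} (hT : Rooted T) (u : Fin n) (hu : u ∈ T) :
    u.val + 1 < 2 ^ T.card := by
  obtain ⟨h1, h2⟩ := rooted_label hT
  -- the ancestors
  have hanc : ∀ i, 2 ^ i ≤ u.val + 1 → (u.val + 1) / 2 ^ i ∈ T.image (fun u => u.val + 1) := by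
    intro i
    induction i with
    | zero => intro _; simp only [pow_zero, Nat.div_one]; exact Finset.mem_image_of_mem _ hu
    | succ i ih =>
      intro hi
      have h3 : 2 ^ i ≤ u.val + 1 := by
        refine le_trans ?_ hi
        rw [pow_succ]; omega
      have h4 := ih h3
      have h5 := (h2 _ h4).2 (by
        have : 2 ≤ (u.val + 1) / 2 ^ i := by
          rw [Nat.le_div_iff_mul_le (by positivity)]
          rw [pow_succ] at hi
          linarith
        omega)
      rw [Nat.div_div_eq_div_mul, ← pow_succ] at h5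
      exact h5
  by_contra hcon
  push Not at hcon
  have hinj : Set.InjOn (fun i => (u.val + 1) / 2 ^ i) (Finset.range (T.card + 1) : Finset ℕ) := by
    intro i hi j hj hij
    simp only [Finset.coe_range, Set.mem_Iio] at hi hj
    have hmono : ∀ a b, a < b → 2 ^ b ≤ u.val + 1 → (u.val + 1) / 2 ^ b < (u.val + 1) / 2 ^ a := by
      intro a b hab hb
      have h3 : (u.val + 1) / 2 ^ b ≤ (u.val + 1) / 2 ^ (a + 1) :=
        Nat.div_le_div_left (Nat.pow_le_pow_right (by norm_num) hab) (by positivity)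
      have h4 : (u.val + 1) / 2 ^ (a + 1) = (u.val + 1) / 2 ^ a / 2 := by
        rw [Nat.div_div_eq_div_mul, ← pow_succ]
      have h5 : 1 ≤ (u.val + 1) / 2 ^ a := by
        rw [Nat.one_le_div_iff (by positivity)]
        exact (Nat.pow_le_pow_right (by norm_num) hab.le).trans hb
      omega
    have hle : ∀ a, a < T.card + 1 → 2 ^ a ≤ u.val + 1 := by
      intro a ha
      exact (Nat.pow_le_pow_right (by norm_num) (by omega)).trans hcon
    rcases lt_trichotomy i j with h | h | h
    · have := hmono i j h (hle j hj)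
      simp only at hij
      omega
    · exact h
    · have := hmono j i h (hle i hi)
      simp only at hij
      omega
  have h3 := Finset.card_image_of_injOn hinj
  have h4 : (Finset.range (T.card + 1)).image (fun i => (u.val + 1) / 2 ^ i) ⊆
      T.image (fun u => u.val + 1) := by
    intro p hp
    obtain ⟨i, hi, rfl⟩ := Finset.mem_image.mp hp
    rw [Finset.mem_range] at hi
    exact hanc i ((Nat.pow_le_pow_right (by norm_num) (by omega)).trans hcon)
  have h5 := (Finset.card_le_card h4).trans Finset.card_image_le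
  rw [h3, Finset.card_range] at h5
  omega

theorem mod_fiber (a b x : ℕ) (hab : a ≤ b) :
    (2 : ℝ) ^ a * ((univ.filter fun y : Fin (2 ^ b) => y.val % 2 ^ a = x).card : ℝ) ≤
      (Fintype.card (Fin (2 ^ b)) : ℝ) := by
  have h1 : (univ.filter fun y : Fin (2 ^ b) => y.val % 2 ^ a = x).card ≤
      (Finset.range (2 ^ (b - a))).card := by
    apply Finset.card_le_card_of_injOn (fun y => y.val / 2 ^ a)
    · intro y _
      simp only [Finset.coe_range, Set.mem_Iio]
      rw [Nat.div_lt_iff_lt_mul (by positivity), ← pow_add, Nat.sub_add_cancel hab]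
      exact y.2
    · intro y hy y' hy' h
      simp only [Finset.coe_filter, Finset.mem_univ, true_and, Set.mem_setOf_eq] at hy hy' h
      apply Fin.ext
      rw [← Nat.div_add_mod y.val (2 ^ a), ← Nat.div_add_mod y'.val (2 ^ a), h, hy, hy']
  rw [Finset.card_range] at h1
  rw [Fintype.card_fin]
  have h2 : 2 ^ a * (univ.filter fun y : Fin (2 ^ b) => y.val % 2 ^ a = x).card ≤ 2 ^ b := by
    calc 2 ^ a * (univ.filter fun y : Fin (2 ^ b) => y.val % 2 ^ a = x).card ≤
          2 ^ a * 2 ^ (b - a) := Nat.mul_le_mul_left _ h1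
      _ = 2 ^ b := by rw [← pow_add]; congr 1; omega
  exact_mod_cast h2

theorem half_sum (J : ℕ) : ∑ j ∈ Finset.range J, (1 / 2 : ℝ) ^ (j + 1) < 1 := by
  have h : ∑ a ∈ Finset.range J, (1 / 2 : ℝ) ^ (a + 1) = 1 - (1 / 2) ^ J := by
    induction J with
    | zero => simp
    | succ n ih => rw [Finset.sum_range_succ, ih, pow_succ]; ring
  rw [h]
  have : (0 : ℝ) < (1 / 2) ^ J := by positivity
  linarith

theorem hash_exists (n k J κ : ℕ) (hκ : 2 * k ≤ 2 ^ κ) (𝒯 : Finset (Finset (Fin n)))
    (hcard : 𝒯.card ≤ 81 ^ k) (hT : ∀ T ∈ 𝒯, T.card ≤ 2 * k) :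
    ∃ β : Fin n → ℕ, ∀ j < J, ∀ T ∈ 𝒯,
      2 ^ j * (T.card - (T.image (fun u => β u % 2 ^ (κ + 2 ^ j))).card) ≤ 9 * k + j := by
  classical
  by_contra hcon
  push Not at hcon
  set B := Fin (2 ^ (κ + 2 ^ J)) with hB
  have hBpos : (0 : ℝ) < Fintype.card B := by
    have := Fintype.card_pos (α := B)
    exact_mod_cast this
  have hmom : ∀ j < J, ∀ T ∈ 𝒯, ∑ g : Fin n → B, (2 : ℝ) ^ (2 ^ j *
      (T.card - (T.image (fun u => (g u).val % 2 ^ (κ + 2 ^ j))).card)) ≤
      (Fintype.card B : ℝ) ^ n * 4 ^ k := by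
    intro j hj T hTT
    have h1 := hash_moment (V := Fin n) (B := B) (X := ℕ) (fun y => y.val % 2 ^ (κ + 2 ^ j))
      (2 ^ (κ + 2 ^ j)) (2 ^ (2 ^ j)) (by positivity) (one_le_pow₀ (by norm_num))
      (by
        intro x
        apply mod_fiber
        have : 2 ^ j ≤ 2 ^ J := Nat.pow_le_pow_right (by norm_num) hj.le
        omega) T
    rw [Fintype.card_fin n] at h1
    have h2 : ∀ g : Fin n → B, (2 : ℝ) ^ (2 ^ j *
        (T.card - (T.image (fun u => (g u).val % 2 ^ (κ + 2 ^ j))).card)) =
        (2 ^ (2 ^ j)) ^ (T.card - (T.image (fun u => (g u).val % 2 ^ (κ + 2 ^ j))).card) := by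
      intro g
      rw [pow_mul]
    rw [Finset.sum_congr rfl (fun g _ => h2 g)]
    refine h1.trans ?_
    apply mul_le_mul_of_nonneg_left _ (by positivity)
    have hTc : (T.card : ℝ) ≤ 2 * k := by exact_mod_cast hT T hTT
    have h3 : (2 : ℝ) ^ (2 ^ j) * T.card / 2 ^ (κ + 2 ^ j) ≤ 1 := by
      rw [div_le_one (by positivity), pow_add, mul_comm]
      apply mul_le_mul_of_nonneg_right _ (by positivity)
      refine hTc.trans ?_
      exact_mod_cast hκ
    calc (1 + (2 : ℝ) ^ (2 ^ j) * T.card / 2 ^ (κ + 2 ^ j)) ^ T.card ≤ 2 ^ T.card := by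
          apply pow_le_pow_left₀ (by positivity)
          linarith
      _ ≤ 2 ^ (2 * k) := pow_le_pow_right₀ (by norm_num) (hT T hTT)
      _ = 4 ^ k := by rw [pow_mul]; norm_num
  have htot : ((Fintype.card B : ℝ) ^ n) * 2 ^ (9 * k) ≤ ∑ g : Fin n → B,
      ∑ j ∈ Finset.range J, ∑ T ∈ 𝒯, (1 / 2 : ℝ) ^ (j + 1) * (2 : ℝ) ^ (2 ^ j *
      (T.card - (T.image (fun u => (g u).val % 2 ^ (κ + 2 ^ j))).card)) := by
    have h1 : ((Fintype.card B : ℝ) ^ n) * 2 ^ (9 * k) = ∑ g : Fin n → B, (2 : ℝ) ^ (9 * k) := by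
      rw [Finset.sum_const, nsmul_eq_mul, Finset.card_univ, Fintype.card_fun, Fintype.card_fin n]
      push_cast
      rfl
    rw [h1]
    apply Finset.sum_le_sum
    intro g _
    obtain ⟨j, hj, T, hTT, hlt⟩ := hcon (fun u => (g u).val)
    calc (2 : ℝ) ^ (9 * k) = (1 / 2 : ℝ) ^ (j + 1) * 2 ^ (9 * k + j + 1) := by
          rw [show 9 * k + j + 1 = 9 * k + (j + 1) by ring, pow_add 2 (9 * k)]
          have : (1 / 2 : ℝ) ^ (j + 1) * 2 ^ (j + 1) = 1 := by
            rw [← mul_pow]; norm_num
          calc (2 : ℝ) ^ (9 * k) = 2 ^ (9 * k) * ((1 / 2 : ℝ) ^ (j + 1) * 2 ^ (j + 1)) := by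
                rw [this, mul_one]
            _ = _ := by ring
      _ ≤ (1 / 2 : ℝ) ^ (j + 1) * (2 : ℝ) ^ (2 ^ j *
          (T.card - (T.image (fun u => (g u).val % 2 ^ (κ + 2 ^ j))).card)) := by
          apply mul_le_mul_of_nonneg_left _ (by positivity)
          apply pow_le_pow_right₀ (by norm_num)
          omega
      _ ≤ ∑ T ∈ 𝒯, (1 / 2 : ℝ) ^ (j + 1) * (2 : ℝ) ^ (2 ^ j *
          (T.card - (T.image (fun u => (g u).val % 2 ^ (κ + 2 ^ j))).card)) :=
          Finset.single_le_sum (f := fun T : Finset (Fin n) => (1 / 2 : ℝ) ^ (j + 1) *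
            (2 : ℝ) ^ (2 ^ j * (T.card - (T.image (fun u => (g u).val % 2 ^ (κ + 2 ^ j))).card)))
            (fun _ _ => by positivity) hTT
      _ ≤ _ := Finset.single_le_sum (f := fun j : ℕ => ∑ T ∈ 𝒯, (1 / 2 : ℝ) ^ (j + 1) *
            (2 : ℝ) ^ (2 ^ j * (T.card - (T.image (fun u => (g u).val % 2 ^ (κ + 2 ^ j))).card)))
            (fun _ _ => by positivity) (Finset.mem_range.mpr hj)
  rw [Finset.sum_comm] at htot
  have h2 : ∑ j ∈ Finset.range J, ∑ g : Fin n → B, ∑ T ∈ 𝒯, (1 / 2 : ℝ) ^ (j + 1) *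
      (2 : ℝ) ^ (2 ^ j * (T.card - (T.image (fun u => (g u).val % 2 ^ (κ + 2 ^ j))).card)) ≤
      ∑ j ∈ Finset.range J, (1 / 2 : ℝ) ^ (j + 1) *
        ((81 : ℝ) ^ k * ((Fintype.card B : ℝ) ^ n * 4 ^ k)) := by
    apply Finset.sum_le_sum
    intro j hj
    rw [Finset.sum_comm]
    calc ∑ T ∈ 𝒯, ∑ g : Fin n → B, (1 / 2 : ℝ) ^ (j + 1) *
        (2 : ℝ) ^ (2 ^ j * (T.card - (T.image (fun u => (g u).val % 2 ^ (κ + 2 ^ j))).card))
        ≤ ∑ T ∈ 𝒯, (1 / 2 : ℝ) ^ (j + 1) * ((Fintype.card B : ℝ) ^ n * 4 ^ k) := by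
          apply Finset.sum_le_sum
          intro T hTT
          rw [← Finset.mul_sum]
          apply mul_le_mul_of_nonneg_left _ (by positivity)
          exact hmom j (Finset.mem_range.mp hj) T hTT
      _ = (𝒯.card : ℝ) * ((1 / 2 : ℝ) ^ (j + 1) * ((Fintype.card B : ℝ) ^ n * 4 ^ k)) := by
          rw [Finset.sum_const, nsmul_eq_mul]
      _ ≤ (81 : ℝ) ^ k * ((1 / 2 : ℝ) ^ (j + 1) * ((Fintype.card B : ℝ) ^ n * 4 ^ k)) := by
          apply mul_le_mul_of_nonneg_right _ (by positivity)
          exact_mod_cast hcard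
      _ = _ := by ring
  have h3 := htot.trans h2
  rw [← Finset.sum_mul] at h3
  have h4 := half_sum J
  have h5 : (81 : ℝ) ^ k * ((Fintype.card B : ℝ) ^ n * 4 ^ k) ≤
      (Fintype.card B : ℝ) ^ n * 2 ^ (9 * k) := by
    calc (81 : ℝ) ^ k * ((Fintype.card B : ℝ) ^ n * 4 ^ k) =
          (Fintype.card B : ℝ) ^ n * ((81 : ℝ) ^ k * 4 ^ k) := by ring
      _ ≤ (Fintype.card B : ℝ) ^ n * 2 ^ (9 * k) := by
          apply mul_le_mul_of_nonneg_left _ (by positivity)
          rw [← mul_pow, pow_mul]
          apply pow_le_pow_left₀ (by norm_num)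
          norm_num
  have h6 : (0 : ℝ) < (Fintype.card B : ℝ) ^ n * 2 ^ (9 * k) := by positivity
  have h7 : (0 : ℝ) < (81 : ℝ) ^ k * ((Fintype.card B : ℝ) ^ n * 4 ^ k) := by positivity
  nlinarith

/-- combination of the levels -/
theorem core {V : Type} [Fintype V] [DecidableEq V] (J t : ℕ) (Veff T : Finset V) (hT : T ⊆ Veff)
    (N s : ℕ → ℕ) (c : ℕ → V → ℕ) (hc : ∀ j ≤ J, ∀ u ∈ Veff, c j u < N j)
    (hnest : ∀ i j, i ≤ j → j ≤ J → ∀ u ∈ Veff, ∀ v ∈ Veff, c j u = c j v → c i u = c i v)
    (hinj : ∀ u ∈ Veff, ∀ v ∈ Veff, c J u = c J v → u = v)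
    (z : V → ℝ)
    (hker : ∀ j ≤ J, ∀ S : Finset (Fin (N j)), S.card ≤ s j →
      t * ∑ b ∈ S, |∑ u ∈ Veff.filter (fun u => c j u = b), z u| ≤
        ∑ b : Fin (N j), |∑ u ∈ Veff.filter (fun u => c j u = b), z u|)
    (hs : ∀ j ≤ J, ∀ S : Finset V, S ⊆ T → (∀ u ∈ S, (∀ v ∈ T, c j v = c j u → v = u) ∧
      ∀ i < j, ¬ ∀ v ∈ T, c i v = c i u → v = u) → S.card ≤ s j) :
    t * ∑ u ∈ T, |z u| ≤ (J + 1) * ∑ u ∈ Veff, |z u| + t * ∑ u ∈ Veff \ T, |z u| := by
  classical
  let Iso : ℕ → V → Prop := fun j u => ∀ v ∈ T, c j v = c j u → v = u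
  let Tj : ℕ → Finset V := fun j => T.filter (fun u => Iso j u ∧ ∀ i < j, ¬ Iso i u)
  have hTj : ∀ j, ∀ u ∈ Tj j, u ∈ T ∧ Iso j u ∧ ∀ i < j, ¬ Iso i u := by
    intro j u hu
    exact ⟨(Finset.mem_filter.mp hu).1, (Finset.mem_filter.mp hu).2⟩
  -- T is the union of the Tj
  have hcover : ∑ u ∈ T, |z u| = ∑ j ∈ Finset.range (J + 1), ∑ u ∈ Tj j, |z u| := by
    rw [← Finset.sum_biUnion]
    · apply Finset.sum_congr _ (fun _ _ => rfl)
      ext u
      rw [Finset.mem_biUnion]
      constructor
      · intro hu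
        have hex : ∃ j, Iso j u := ⟨J, fun v hv h => hinj v (hT hv) u (hT hu) h⟩
        refine ⟨Nat.find hex, ?_, ?_⟩
        · rw [Finset.mem_range]
          have := Nat.find_min' hex (show Iso J u from fun v hv h => hinj v (hT hv) u (hT hu) h)
          omega
        · exact Finset.mem_filter.mpr ⟨hu, Nat.find_spec hex, fun i hi => Nat.find_min hex hi⟩
      · rintro ⟨j, _, hu⟩
        exact (hTj j u hu).1
    · intro i _ j _ hij
      rw [Function.onFun, Finset.disjoint_left]
      intro u hu hu'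
      have h1 := hTj i u hu
      have h2 := hTj j u hu'
      rcases lt_trichotomy i j with h | h | h
      · exact h2.2.2 i h h1.2.1
      · exact hij h
      · exact h1.2.2 j h h2.2.1
  -- bound on one level
  have hlevel : ∀ j ∈ Finset.range (J + 1), (t : ℝ) * ∑ u ∈ Tj j, |z u| ≤
      ∑ u ∈ Veff, |z u| + t * ∑ u ∈ Tj j, ∑ v ∈ (Veff \ T).filter (fun v => c j v = c j u), |z v| := by
    intro j hj
    have hjJ : j ≤ J := by rw [Finset.mem_range] at hj; omega
    have h1 : ∀ u ∈ Tj j, |z u| ≤ |∑ v ∈ Veff.filter (fun v => c j v = c j u), z v| +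
        ∑ v ∈ (Veff \ T).filter (fun v => c j v = c j u), |z v| := by
      intro u hu
      obtain ⟨huT, hiso, _⟩ := hTj j u hu
      have h2 : Veff.filter (fun v => c j v = c j u) =
          insert u ((Veff \ T).filter (fun v => c j v = c j u)) := by
        ext v
        simp only [Finset.mem_filter, Finset.mem_insert, Finset.mem_sdiff]
        constructor
        · rintro ⟨hv, hcv⟩
          by_cases hvT : v ∈ T
          · left; exact hiso v hvT hcv
          · right; exact ⟨⟨hv, hvT⟩, hcv⟩
        · rintro (rfl | ⟨⟨hv, _⟩, hcv⟩)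
          · exact ⟨hT huT, rfl⟩
          · exact ⟨hv, hcv⟩
      have h3 : u ∉ (Veff \ T).filter (fun v => c j v = c j u) := by
        simp only [Finset.mem_filter, Finset.mem_sdiff, not_and]
        intro h _
        exact absurd huT h.2
      rw [h2, Finset.sum_insert h3]
      have h4 : z u = (z u + ∑ v ∈ (Veff \ T).filter (fun v => c j v = c j u), z v) -
          ∑ v ∈ (Veff \ T).filter (fun v => c j v = c j u), z v := by ring
      calc |z u| = |(z u + ∑ v ∈ (Veff \ T).filter (fun v => c j v = c j u), z v) -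
          ∑ v ∈ (Veff \ T).filter (fun v => c j v = c j u), z v| := by rw [← h4]
        _ ≤ |z u + ∑ v ∈ (Veff \ T).filter (fun v => c j v = c j u), z v| +
            |∑ v ∈ (Veff \ T).filter (fun v => c j v = c j u), z v| := abs_sub _ _
        _ ≤ _ := by
            gcongr
            exact Finset.abs_sum_le_sum_abs _ _
    have h2 : ∑ u ∈ Tj j, |z u| ≤ ∑ u ∈ Tj j, |∑ v ∈ Veff.filter (fun v => c j v = c j u), z v| +
        ∑ u ∈ Tj j, ∑ v ∈ (Veff \ T).filter (fun v => c j v = c j u), |z v| := by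
      rw [← Finset.sum_add_distrib]
      exact Finset.sum_le_sum h1
    -- the classes
    let cf : {u // u ∈ Tj j} → Fin (N j) := fun u => ⟨c j u.1, hc j hjJ u.1 (hT (hTj j u.1 u.2).1)⟩
    have hcf : Function.Injective cf := by
      intro u v h
      have h3 : c j u.1 = c j v.1 := congrArg Fin.val h
      exact Subtype.ext ((hTj j v.1 v.2).2.1 u.1 (hTj j u.1 u.2).1 h3)
    have h3 : ∑ u ∈ Tj j, |∑ v ∈ Veff.filter (fun v => c j v = c j u), z v| =
        ∑ b ∈ univ.image cf, |∑ u ∈ Veff.filter (fun u => c j u = b), z u| := by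
      rw [Finset.sum_image (fun u _ v _ h => hcf h),
        ← Finset.sum_coe_sort (Tj j) (fun u => |∑ v ∈ Veff.filter (fun v => c j v = c j u), z v|)]
    have h4 : (univ.image cf).card ≤ s j := by
      rw [Finset.card_image_of_injective _ hcf, Finset.card_univ, Fintype.card_coe]
      exact hs j hjJ (Tj j) (fun u hu => (hTj j u hu).1) (fun u hu => (hTj j u hu).2)
    have h5 := hker j hjJ _ h4
    have h6 : ∑ b : Fin (N j), |∑ u ∈ Veff.filter (fun u => c j u = b), z u| ≤
        ∑ u ∈ Veff, |z u| := by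
      calc ∑ b : Fin (N j), |∑ u ∈ Veff.filter (fun u => c j u = b), z u|
          ≤ ∑ b : Fin (N j), ∑ u ∈ Veff.filter (fun u => c j u = b), |z u| :=
            Finset.sum_le_sum fun _ _ => Finset.abs_sum_le_sum_abs _ _
        _ = ∑ b ∈ (univ : Finset (Fin (N j))).image Fin.val,
              ∑ u ∈ Veff.filter (fun u => c j u = b), |z u| := by
            rw [Finset.sum_image (fun a _ b _ h => Fin.ext h)]
        _ = ∑ u ∈ Veff, |z u| := by
            apply Finset.sum_fiberwise_of_maps_to
            intro u hu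
            simp only [Finset.mem_image, Finset.mem_univ, true_and]
            exact ⟨⟨c j u, hc j hjJ u hu⟩, rfl⟩
    have ht : (0 : ℝ) ≤ t := Nat.cast_nonneg _
    calc (t : ℝ) * ∑ u ∈ Tj j, |z u| ≤ t * (∑ u ∈ Tj j,
          |∑ v ∈ Veff.filter (fun v => c j v = c j u), z v| +
          ∑ u ∈ Tj j, ∑ v ∈ (Veff \ T).filter (fun v => c j v = c j u), |z v|) :=
          mul_le_mul_of_nonneg_left h2 ht
      _ = t * ∑ u ∈ Tj j, |∑ v ∈ Veff.filter (fun v => c j v = c j u), z v| +
          t * ∑ u ∈ Tj j, ∑ v ∈ (Veff \ T).filter (fun v => c j v = c j u), |z v| := by ring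
      _ ≤ _ := by
          rw [h3]
          linarith
  -- every off node is counted at most once
  have hoff : ∑ j ∈ Finset.range (J + 1), ∑ u ∈ Tj j,
      ∑ v ∈ (Veff \ T).filter (fun v => c j v = c j u), |z v| ≤ ∑ v ∈ Veff \ T, |z v| := by
    have h1 : ∑ j ∈ Finset.range (J + 1), ∑ u ∈ Tj j,
        ∑ v ∈ (Veff \ T).filter (fun v => c j v = c j u), |z v| =
        ∑ v ∈ Veff \ T, ∑ p ∈ ((Finset.range (J + 1)).sigma Tj).filter
          (fun p => c p.1 v = c p.1 p.2), |z v| := by
      have h2 : ∀ j ∈ Finset.range (J + 1), ∀ u ∈ Tj j,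
          ∑ v ∈ (Veff \ T).filter (fun v => c j v = c j u), |z v| =
          ∑ v ∈ Veff \ T, if c j v = c j u then |z v| else 0 := by
        intro j _ u _
        rw [Finset.sum_filter]
      rw [Finset.sum_congr rfl (fun j hj => Finset.sum_congr rfl (h2 j hj)),
        Finset.sum_sigma' (Finset.range (J + 1)) Tj
          (fun j u => ∑ v ∈ Veff \ T, if c j v = c j u then |z v| else 0), Finset.sum_comm]
      apply Finset.sum_congr rfl
      intro v _
      rw [Finset.sum_filter]
    rw [h1]
    apply Finset.sum_le_sum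
    intro v hv
    rw [Finset.sum_const, nsmul_eq_mul]
    have h2 : (((Finset.range (J + 1)).sigma Tj).filter
        (fun p => c p.1 v = c p.1 p.2)).card ≤ 1 := by
      rw [Finset.card_le_one]
      have hmain : ∀ i j : ℕ, ∀ u w : V, i ≤ j → j ≤ J → u ∈ Tj i → w ∈ Tj j →
          c i v = c i u → c j v = c j w → i = j ∧ u = w := by
        intro i j u w hij hjJ hu hw h3 h4
        have hvV : v ∈ Veff := (Finset.mem_sdiff.mp hv).1
        have hwT := (hTj j w hw).1
        have h5 := hnest i j hij hjJ v hvV w (hT hwT) h4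
        have h6 : w = u := (hTj i u hu).2.1 w hwT (by rw [← h5, h3])
        subst h6
        refine ⟨?_, rfl⟩
        by_contra hne
        have hlt : i < j := lt_of_le_of_ne hij hne
        exact (hTj j w hw).2.2 i hlt (hTj i w hu).2.1
      rintro ⟨i, u⟩ hp ⟨j, w⟩ hq
      simp only [Finset.mem_filter, Finset.mem_sigma, Finset.mem_range] at hp hq
      rcases le_total i j with h | h
      · obtain ⟨rfl, rfl⟩ := hmain i j u w h (by omega) hp.1.2 hq.1.2 hp.2 hq.2
        rfl
      · obtain ⟨rfl, rfl⟩ := hmain j i w u h (by omega) hq.1.2 hp.1.2 hq.2 hp.2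
        rfl
    have h3 : ((((Finset.range (J + 1)).sigma Tj).filter
        (fun p => c p.1 v = c p.1 p.2)).card : ℝ) ≤ 1 := by exact_mod_cast h2
    nlinarith [abs_nonneg (z v)]
  have ht : (0 : ℝ) ≤ t := Nat.cast_nonneg _
  rw [hcover, Finset.mul_sum]
  refine (Finset.sum_le_sum hlevel).trans ?_
  rw [Finset.sum_add_distrib, Finset.sum_const, Finset.card_range, nsmul_eq_mul, ← Finset.mul_sum]
  push_cast
  have := mul_le_mul_of_nonneg_left hoff ht
  linarith

/-- nodes which are not isolated are at most twice the number of collisions -/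
theorem nonisolated_le_aux {V X : Type} [DecidableEq V] [DecidableEq X] (T : Finset V) (c : V → X) :
    (T.filter (fun u => ¬ ∀ v ∈ T, c v = c u → v = u)).card ≤ 2 * (T.card - (T.image c).card) := by
  classical
  have hle : (T.image c).card ≤ T.card := Finset.card_image_le
  have h1 : T.card = ∑ b ∈ T.image c, (T.filter (fun u => c u = b)).card :=
    Finset.card_eq_sum_card_image c T
  have h2 : (T.filter (fun u => ¬ ∀ v ∈ T, c v = c u → v = u)).card =
      ∑ b ∈ T.image c, ((T.filter (fun u => ¬ ∀ v ∈ T, c v = c u → v = u)).filter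
        (fun u => c u = b)).card := by
    apply Finset.card_eq_sum_card_fiberwise
    intro u hu
    simp only [Finset.coe_filter, Set.mem_setOf_eq] at hu
    exact Finset.mem_coe.mpr (Finset.mem_image_of_mem c hu.1)
  have h3 : ∀ b ∈ T.image c, ((T.filter (fun u => ¬ ∀ v ∈ T, c v = c u → v = u)).filter
        (fun u => c u = b)).card + 2 ≤ 2 * (T.filter (fun u => c u = b)).card := by
    intro b hb
    obtain ⟨u0, hu0, hu0b⟩ := Finset.mem_image.mp hb
    have hpos : 1 ≤ (T.filter (fun u => c u = b)).card :=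
      Finset.card_pos.mpr ⟨u0, Finset.mem_filter.mpr ⟨hu0, hu0b⟩⟩
    have hsub : ((T.filter (fun u => ¬ ∀ v ∈ T, c v = c u → v = u)).filter
        (fun u => c u = b)).card ≤ (T.filter (fun u => c u = b)).card := by
      apply Finset.card_le_card
      intro u hu
      simp only [Finset.mem_filter] at hu ⊢
      exact ⟨hu.1.1, hu.2⟩
    by_cases h1' : (T.filter (fun u => c u = b)).card = 1
    · have h4 : ((T.filter (fun u => ¬ ∀ v ∈ T, c v = c u → v = u)).filter
          (fun u => c u = b)) = ∅ := by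
        rw [Finset.eq_empty_iff_forall_notMem]
        intro u hu
        simp only [Finset.mem_filter] at hu
        apply hu.1.2
        intro v hv hcv
        rw [Finset.card_eq_one] at h1'
        obtain ⟨w, hw⟩ := h1'
        have h5 : u ∈ T.filter (fun u => c u = b) := Finset.mem_filter.mpr ⟨hu.1.1, hu.2⟩
        have h6 : v ∈ T.filter (fun u => c u = b) := Finset.mem_filter.mpr ⟨hv, hcv.trans hu.2⟩
        rw [hw, Finset.mem_singleton] at h5 h6
        rw [h5, h6]
      rw [h4, Finset.card_empty]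
      omega
    · omega
  have h4 := Finset.sum_le_sum h3
  rw [Finset.sum_add_distrib, ← h2, ← Finset.mul_sum, ← h1, Finset.sum_const, smul_eq_mul] at h4
  omega

theorem nonisolated_le {V X : Type} [DecidableEq V] [DecidableEq X] (T : Finset V) (c : V → X)
    (S : Finset V) (hS : S ⊆ T) (hS2 : ∀ u ∈ S, ¬ ∀ v ∈ T, c v = c u → v = u) :
    S.card ≤ 2 * (T.card - (T.image c).card) := by
  refine le_trans (Finset.card_le_card ?_) (nonisolated_le_aux T c)
  intro u hu
  exact Finset.mem_filter.mpr ⟨hS hu, hS2 u hu⟩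

theorem decoder {n m : ℕ} (L : (Fin n → ℝ) →ₗ[ℝ] (Fin m → ℝ)) (𝒯 : Set (Finset (Fin n)))
    (hN : ∀ z, L z = 0 → ∀ T ∈ 𝒯, ∀ T' ∈ 𝒯,
      ∑ u ∈ T ∪ T', |z u| ≤ 3 * ∑ u ∈ (T ∪ T')ᶜ, |z u|) :
    ∃ R : (Fin m → ℝ) → (Fin n → ℝ), ∀ x x' : Fin n → ℝ,
      (∃ T ∈ 𝒯, ∀ i, i ∉ T → x' i = 0) →
      ∑ i, |R (L x) i - x i| ≤ 8 * ∑ i, |x' i - x i| := by
  classical
  have key : ∀ y : Fin m → ℝ, ∃ w : Fin n → ℝ, ∀ x x' : Fin n → ℝ,
      (∃ T ∈ 𝒯, ∀ i, i ∉ T → x' i = 0) → L x = y →
      ∑ i, |w i - x i| ≤ 8 * ∑ i, |x' i - x i| := by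
    intro y
    by_cases hfeas : ∃ x x' : Fin n → ℝ, (∃ T ∈ 𝒯, ∀ i, i ∉ T → x' i = 0) ∧ L x = y
    swap
    · refine ⟨0, fun x x' h1 h2 => ?_⟩
      exact absurd ⟨x, x', h1, h2⟩ hfeas
    let F : Finset (Fin n) → Set (Fin n → ℝ) := fun T =>
      {v | ∃ w' : Fin n → ℝ, (∀ i, i ∉ T → w' i = 0) ∧ L (v + w') = y}
    have hFclosed : ∀ T, IsClosed (F T) := by
      intro T
      let ET : Submodule ℝ (Fin n → ℝ) :=
        { carrier := {w | ∀ i, i ∉ T → w i = 0}
          add_mem' := by
            intro a b ha hb i hi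
            show a i + b i = 0
            rw [ha i hi, hb i hi, add_zero]
          zero_mem' := fun _ _ => rfl
          smul_mem' := by
            intro r a ha i hi
            show r * a i = 0
            rw [ha i hi, mul_zero] }
      have h1 : F T = (fun v => y - L v) ⁻¹' ((ET.map L : Submodule ℝ (Fin m → ℝ)) : Set (Fin m → ℝ)) := by
        ext v
        constructor
        · rintro ⟨w', hw', hL⟩
          refine ⟨w', hw', ?_⟩
          rw [← hL, map_add]; simp
        · rintro ⟨w', hw', hL⟩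
          refine ⟨w', hw', ?_⟩
          rw [map_add, hL]; simp
      rw [h1]
      apply IsClosed.preimage
      · exact continuous_const.sub L.continuous_of_finiteDimensional
      · exact Submodule.closed_of_finiteDimensional _
    let S : Set (Fin n → ℝ) := ⋃ T ∈ 𝒯, F T
    have hSclosed : IsClosed S := by
      apply Set.Finite.isClosed_biUnion (Set.toFinite 𝒯)
      intro T _
      exact hFclosed T
    have hin : ∀ x x' : Fin n → ℝ, (∃ T ∈ 𝒯, ∀ i, i ∉ T → x' i = 0) → L x = y → x - x' ∈ S := by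
      rintro x x' ⟨T, hT, hx'⟩ hL
      simp only [S, Set.mem_iUnion]
      refine ⟨T, hT, x', hx', ?_⟩
      rw [sub_add_cancel]; exact hL
    obtain ⟨x0, x0', h0, hL0⟩ := hfeas
    have hx0S := hin x0 x0' h0 hL0
    have hcont : Continuous (fun v : Fin n → ℝ => ∑ i, |v i|) := by fun_prop
    have hnorm : ∀ v : Fin n → ℝ, ‖v‖ ≤ ∑ i, |v i| := by
      intro v
      rw [pi_norm_le_iff_of_nonneg (Finset.sum_nonneg fun _ _ => abs_nonneg _)]
      intro i
      rw [Real.norm_eq_abs]
      exact Finset.single_le_sum (f := fun i => |v i|) (fun _ _ => abs_nonneg _) (Finset.mem_univ i)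
    obtain ⟨v0, hv0S, hv0⟩ := ContinuousOn.exists_isMinOn' hcont.continuousOn hSclosed hx0S (by
      apply Filter.Eventually.filter_mono inf_le_left
      have h1 := (tendsto_norm_cocompact_atTop (E := Fin n → ℝ)).eventually_ge_atTop
        (∑ i, |(x0 - x0') i|)
      filter_upwards [h1] with v hv
      exact hv.trans (hnorm v))
    simp only [S, Set.mem_iUnion] at hv0S
    obtain ⟨T0, hT0, w0, hw0, hLw0⟩ := hv0S
    refine ⟨v0 + w0, ?_⟩
    rintro x x' ⟨T, hT, hx'⟩ hL
    have hmin : ∑ i, |v0 i| ≤ ∑ i, |(x - x') i| := hv0 (hin x x' ⟨T, hT, hx'⟩ hL)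
    have hz : L (v0 + w0 - x) = 0 := by rw [map_sub, hLw0, hL, sub_self]
    have h1 := hN _ hz T hT T0 hT0
    have h2 : ∑ u ∈ (T ∪ T0)ᶜ, |(v0 + w0 - x) u| ≤ 2 * ∑ i, |x' i - x i| := by
      have h3 : ∀ u ∈ (T ∪ T0)ᶜ, |(v0 + w0 - x) u| ≤ |v0 u| + |x' u - x u| := by
        intro u hu
        rw [Finset.mem_compl, Finset.mem_union, not_or] at hu
        have h4 : (v0 + w0 - x) u = v0 u + (x' u - x u) := by
          show v0 u + w0 u - x u = _
          rw [hw0 u hu.2, hx' u hu.1]; ring
        rw [h4]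
        exact abs_add_le _ _
      refine (Finset.sum_le_sum h3).trans ?_
      rw [Finset.sum_add_distrib]
      have h5 : ∑ u ∈ (T ∪ T0)ᶜ, |v0 u| ≤ ∑ i, |v0 i| :=
        Finset.sum_le_sum_of_subset_of_nonneg (Finset.subset_univ _) (fun _ _ _ => abs_nonneg _)
      have h6 : ∑ u ∈ (T ∪ T0)ᶜ, |x' u - x u| ≤ ∑ i, |x' i - x i| :=
        Finset.sum_le_sum_of_subset_of_nonneg (Finset.subset_univ _) (fun _ _ _ => abs_nonneg _)
      have h7 : ∑ i, |(x - x') i| = ∑ i, |x' i - x i| := by
        apply Finset.sum_congr rfl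
        intro i _
        rw [Pi.sub_apply, abs_sub_comm]
      linarith
    have h8 : ∑ i, |(v0 + w0) i - x i| = ∑ u ∈ T ∪ T0, |(v0 + w0 - x) u| +
        ∑ u ∈ (T ∪ T0)ᶜ, |(v0 + w0 - x) u| := by
      rw [Finset.sum_add_sum_compl]
      rfl
    rw [h8]
    linarith
  choose R hR using key
  exact ⟨R, fun x x' h => hR (L x) x x' h rfl⟩

/-- from finitely many linear functionals to a matrix -/
theorem to_matrix {n : ℕ} {ι : Type} [Fintype ι] (ℓ : ι → (Fin n → ℝ) →ₗ[ℝ] ℝ)
    (𝒯 : Set (Finset (Fin n)))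
    (hN : ∀ z, (∀ r, ℓ r z = 0) → ∀ T ∈ 𝒯, ∀ T' ∈ 𝒯,
      ∑ u ∈ T ∪ T', |z u| ≤ 3 * ∑ u ∈ (T ∪ T')ᶜ, |z u|) :
    ∃ A : Matrix (Fin (Fintype.card ι)) (Fin n) ℝ,
      ∃ R : (Fin (Fintype.card ι) → ℝ) → (Fin n → ℝ), ∀ x x' : Fin n → ℝ,
      (∃ T ∈ 𝒯, ∀ i, i ∉ T → x' i = 0) →
      ∑ i, |R (A.mulVec x) i - x i| ≤ 8 * ∑ i, |x' i - x i| := by
  let L : (Fin n → ℝ) →ₗ[ℝ] (Fin (Fintype.card ι) → ℝ) :=
    LinearMap.pi (fun i => ℓ ((Fintype.equivFin ι).symm i))
  obtain ⟨R, hR⟩ := decoder L 𝒯 (by
    intro z hz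
    apply hN z
    intro r
    have := congrFun hz (Fintype.equivFin ι r)
    simpa [L] using this)
  refine ⟨LinearMap.toMatrix' L, R, ?_⟩
  intro x x' h
  rw [LinearMap.toMatrix'_mulVec]
  exact hR x x' h

theorem rooted_union {n : ℕ} {T T' : Finset (Fin n)} (hT : Rooted T) (hT' : Rooted T') :
    Rooted (T ∪ T') := by
  refine ⟨?_, ?_⟩
  · obtain ⟨r, hr, h⟩ := hT.1
    exact ⟨r, Finset.mem_union_left _ hr, h⟩
  · intro i hi hi0
    rcases Finset.mem_union.mp hi with h | h
    · obtain ⟨j, hj, e⟩ := hT.2 i h hi0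
      exact ⟨j, Finset.mem_union_left _ hj, e⟩
    · obtain ⟨j, hj, e⟩ := hT'.2 i h hi0
      exact ⟨j, Finset.mem_union_right _ hj, e⟩

/-- sparsity at level `j` -/
def sp (k j : ℕ) : ℕ := if j = 0 then 2 * k else 2 * ((9 * k + (j - 1)) / 2 ^ (j - 1))

theorem sp_lower (k j : ℕ) (hj : 1 ≤ j) (h : 2 ^ (j - 1) ≤ 2 * k) : 14 * k ≤ sp k j * 2 ^ (j - 1) := by
  unfold sp
  rw [if_neg (by omega)]
  have h1 := Nat.div_add_mod (9 * k + (j - 1)) (2 ^ (j - 1))
  have h2 := Nat.mod_lt (9 * k + (j - 1)) (show 0 < 2 ^ (j - 1) by positivity)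
  have h3 : 2 * ((9 * k + (j - 1)) / 2 ^ (j - 1)) * 2 ^ (j - 1) =
      2 * (2 ^ (j - 1) * ((9 * k + (j - 1)) / 2 ^ (j - 1))) := by ring
  rw [h3]
  omega

theorem sp_pos (k j : ℕ) (hk : 1 ≤ k) (h : 2 ^ (j - 1) ≤ 2 * k) : 1 ≤ sp k j := by
  rcases Nat.eq_zero_or_pos j with rfl | hj
  · unfold sp; rw [if_pos rfl]; omega
  · have := sp_lower k j hj h
    by_contra h0
    have h1 : sp k j = 0 := by omega
    rw [h1] at this
    omega

theorem sp_upper (k j : ℕ) (h : 2 ^ (j - 1) ≤ 2 * k) : (2 ^ (j + 1) + 2) * sp k j ≤ 132 * k := by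
  rcases Nat.eq_zero_or_pos j with rfl | hj
  · unfold sp; rw [if_pos rfl]; norm_num; omega
  · unfold sp
    rw [if_neg (by omega)]
    have h1 := Nat.div_mul_le_self (9 * k + (j - 1)) (2 ^ (j - 1))
    have h2 : j - 1 < 2 ^ (j - 1) := Nat.lt_two_pow_self
    have h3 : 2 ^ (j + 1) = 4 * 2 ^ (j - 1) := by
      obtain ⟨i, rfl⟩ := Nat.exists_eq_add_of_le hj
      rw [show 1 + i - 1 = i by omega, show 1 + i + 1 = i + 2 by omega, pow_add]
      ring
    have h4 : 1 ≤ 2 ^ (j - 1) := Nat.one_le_two_pow
    have h5 : 2 ^ (j + 1) + 2 ≤ 6 * 2 ^ (j - 1) := by omega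
    calc (2 ^ (j + 1) + 2) * (2 * ((9 * k + (j - 1)) / 2 ^ (j - 1)))
        ≤ (6 * 2 ^ (j - 1)) * (2 * ((9 * k + (j - 1)) / 2 ^ (j - 1))) := Nat.mul_le_mul_right _ h5
      _ = 12 * ((9 * k + (j - 1)) / 2 ^ (j - 1) * 2 ^ (j - 1)) := by ring
      _ ≤ 12 * (9 * k + (j - 1)) := Nat.mul_le_mul_left _ h1
      _ ≤ 132 * k := by omega

theorem N_le (k j N κ : ℕ) (hk : 1 ≤ k) (hκ : 2 ^ κ ≤ 4 * k) (h : 2 ^ (j - 1) ≤ 2 * k)
    (hN : N ≤ 2 ^ (κ + 2 ^ j) ∨ N ≤ k * 2 ^ (2 ^ j)) : N ≤ sp k j * 2 ^ (2 ^ (j + 1)) := by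
  have hN' : N ≤ 4 * k * 2 ^ (2 ^ j) := by
    rcases hN with h1 | h1
    · refine h1.trans ?_
      rw [pow_add]
      exact Nat.mul_le_mul_right _ hκ
    · refine h1.trans ?_
      exact Nat.mul_le_mul_right _ (by omega)
  refine hN'.trans ?_
  rcases Nat.eq_zero_or_pos j with rfl | hj
  · unfold sp; rw [if_pos rfl]; norm_num; omega
  · have h1 := sp_lower k j hj h
    have h2 : 2 ^ (j - 1) ≤ 2 ^ (2 ^ j) := by
      apply Nat.pow_le_pow_right (by norm_num)
      have : j < 2 ^ j := Nat.lt_two_pow_self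
      omega
    calc 4 * k * 2 ^ (2 ^ j) ≤ 14 * k * 2 ^ (2 ^ j) := Nat.mul_le_mul_right _ (by omega)
      _ ≤ sp k j * 2 ^ (j - 1) * 2 ^ (2 ^ j) := Nat.mul_le_mul_right _ h1
      _ ≤ sp k j * 2 ^ (2 ^ j) * 2 ^ (2 ^ j) := by gcongr
      _ = sp k j * 2 ^ (2 ^ (j + 1)) := by
          rw [mul_assoc, ← pow_add]
          congr 2
          rw [pow_succ]; ring

/-- the main construction -/
theorem construction (n k J κ : ℕ) (hk : 1 ≤ k) (hκ1 : 2 * k ≤ 2 ^ κ) (hκ2 : 2 ^ κ ≤ 4 * k)
    (hJ : 2 ^ (J - 1) ≤ 2 * k) (hNJ : min n (2 ^ (2 * k) - 1) ≤ k * 2 ^ (2 ^ J)) :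
    ∃ m : ℕ, m ≤ 101376 * k * (J + 1) ^ 3 ∧ ∃ A : Matrix (Fin m) (Fin n) ℝ,
      ∃ R : (Fin m → ℝ) → (Fin n → ℝ), ∀ x x' : Fin n → ℝ,
      (∃ T : Finset (Fin n), (T.card = k ∧ Rooted T) ∧ ∀ i, i ∉ T → x' i = 0) →
      ∑ i, |R (A.mulVec x) i - x i| ≤ 8 * ∑ i, |x' i - x i| := by
  classical
  set t := 2 * (J + 1) with ht
  obtain ⟨β, hβ⟩ := hash_exists n k J κ hκ1
    ((univ : Finset (Finset (Fin n))).filter (fun T => Rooted T ∧ T.card ≤ 2 * k))
    (by
      refine (count_rooted n (2 * k) _ ?_).trans ?_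
      · intro T hT
        exact (Finset.mem_filter.mp hT).2
      · apply le_of_eq
        rw [show 2 * (2 * k) = 4 * k by ring, pow_mul]
        norm_num)
    (fun T hT => (Finset.mem_filter.mp hT).2.2)
  set c : ℕ → Fin n → ℕ := fun j u => if j < J then β u % 2 ^ (κ + 2 ^ j) else u.val with hcdef
  set N : ℕ → ℕ := fun j => if j < J then 2 ^ (κ + 2 ^ j) else min n (2 ^ (2 * k) - 1) with hNdef
  set Veff : Finset (Fin n) := univ.filter (fun u => u.val + 1 < 2 ^ (2 * k)) with hVeff
  have hpow : ∀ j ≤ J, 2 ^ (j - 1) ≤ 2 * k := by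
    intro j hj
    exact (Nat.pow_le_pow_right (by norm_num) (by omega)).trans hJ
  have hNle : ∀ j ≤ J, N j ≤ sp k j * 2 ^ (2 ^ (j + 1)) := by
    intro j hj
    apply N_le k j (N j) κ hk hκ2 (hpow j hj)
    by_cases h : j < J
    · left; simp only [hNdef, if_pos h]; exact le_rfl
    · right
      have hjJ : j = J := by omega
      subst hjJ
      simp only [hNdef, if_neg h]
      exact hNJ
  have hexp : ∀ j : Fin (J + 1), ∃ E : Fin (4 * t * (2 ^ (j.val + 1) + 2)) → Fin (N j) →
      Fin (48 * sp k j * t), ∀ S : Finset (Fin (N j)),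
      S.card ≤ 2 * sp k j → ∑ i, (S.card - (S.image (E i)).card) ≤ (2 ^ (j.val + 1) + 2) * S.card := by
    intro j
    exact expander (sp k j) t (2 ^ (j.val + 1)) (N j) (sp_pos k j hk (hpow j (by omega)))
      (by omega) (hNle j (by omega))
  choose E hE using hexp
  -- the functionals
  let agg : ∀ j : ℕ, ℕ → (Fin n → ℝ) →ₗ[ℝ] ℝ := fun j b =>
    ∑ u ∈ Veff.filter (fun u => c j u = b), LinearMap.proj u
  have hagg : ∀ j b z, agg j b z = ∑ u ∈ Veff.filter (fun u => c j u = b), z u := by
    intro j b z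
    simp only [agg, LinearMap.sum_apply, LinearMap.proj_apply]
  let ℓ : (Σ j : Fin (J + 1), Fin (4 * t * (2 ^ (j.val + 1) + 2)) × Fin (48 * sp k j * t)) →
      (Fin n → ℝ) →ₗ[ℝ] ℝ := fun r =>
    ∑ b ∈ univ.filter (fun b : Fin (N r.1) => E r.1 r.2.1 b = r.2.2), agg r.1 b
  have hℓ : ∀ r z, ℓ r z = ∑ b ∈ univ.filter (fun b : Fin (N r.1) => E r.1 r.2.1 b = r.2.2),
      ∑ u ∈ Veff.filter (fun u => c r.1 u = b), z u := by
    intro r z
    simp only [ℓ, LinearMap.sum_apply, hagg]
  obtain ⟨A, R, hAR⟩ := to_matrix ℓ {T : Finset (Fin n) | T.card = k ∧ Rooted T} (by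
    intro z hz T hT T' hT'
    have hroot := rooted_union hT.2 hT'.2
    have hcard : (T ∪ T').card ≤ 2 * k := by
      have := Finset.card_union_le T T'
      have h1 : T.card = k := hT.1
      have h2 : T'.card = k := hT'.1
      omega
    set U := T ∪ T' with hU
    have hUV : U ⊆ Veff := by
      intro u hu
      simp only [hVeff, Finset.mem_filter, Finset.mem_univ, true_and]
      exact (rooted_small hroot u hu).trans_le (Nat.pow_le_pow_right (by norm_num) hcard)
    have hcore := core J t Veff U hUV N (sp k) c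
      (by
        intro j hj u hu
        by_cases h : j < J
        · simp only [hcdef, hNdef, if_pos h]
          exact Nat.mod_lt _ (by positivity)
        · simp only [hcdef, hNdef, if_neg h]
          have h1 : u.val + 1 < 2 ^ (2 * k) := by
            simpa [hVeff] using hu
          have h2 := u.2
          rw [lt_min_iff]
          omega)
      (by
        intro i j hij hj u _ v _ h
        by_cases hjJ : j < J
        · have hiJ : i < J := by omega
          simp only [hcdef, if_pos hjJ, if_pos hiJ] at h ⊢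
          have hdvd : 2 ^ (κ + 2 ^ i) ∣ 2 ^ (κ + 2 ^ j) := by
            apply pow_dvd_pow
            have : 2 ^ i ≤ 2 ^ j := Nat.pow_le_pow_right (by norm_num) hij
            omega
          rw [← Nat.mod_mod_of_dvd (β u) hdvd, h, Nat.mod_mod_of_dvd (β v) hdvd]
        · simp only [hcdef, if_neg hjJ] at h
          rw [Fin.ext h])
      (by
        intro u _ v _ h
        simp only [hcdef, lt_irrefl, if_false] at h
        exact Fin.ext h)
      z
      (by
        intro j hj S hS
        have hj' : j < J + 1 := by omega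
        exact nsp_of_expander (sp k j) t (2 ^ (j + 1) + 2) (4 * t * (2 ^ (j + 1) + 2))
          (4 * t * (2 ^ (j + 1) + 2) - (2 ^ (j + 1) + 2)) (N j) (48 * sp k j * t)
          (sp_pos k j hk (hpow j hj)) (by omega) rfl
          (by
            apply Nat.sub_add_cancel
            calc 2 ^ (j + 1) + 2 = 1 * (2 ^ (j + 1) + 2) := (one_mul _).symm
              _ ≤ 4 * t * (2 ^ (j + 1) + 2) := Nat.mul_le_mul_right _ (by omega))
          (Nat.succ_le_of_lt (by positivity)) (E ⟨j, hj'⟩) (hE ⟨j, hj'⟩)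
          (fun b => ∑ u ∈ Veff.filter (fun u => c j u = b), z u)
          (by
            intro i b
            have := hz ⟨⟨j, hj'⟩, i, b⟩
            rw [hℓ] at this
            exact this)
          S hS)
      (by
        intro j hj S hSU hS
        rcases Nat.eq_zero_or_pos j with rfl | hj0
        · refine (Finset.card_le_card hSU).trans ?_
          unfold sp
          rw [if_pos rfl]
          exact hcard
        · refine (nonisolated_le U (c (j - 1)) S hSU
            (fun u hu => (hS u hu).2 (j - 1) (by omega))).trans ?_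
          have h2 := hβ (j - 1) (by omega) U (by
            rw [Finset.mem_filter]
            exact ⟨Finset.mem_univ _, hroot, hcard⟩)
          have h3 : c (j - 1) = fun u => β u % 2 ^ (κ + 2 ^ (j - 1)) := by
            funext u
            simp only [hcdef]
            rw [if_pos (by omega)]
          rw [h3]
          unfold sp
          rw [if_neg (by omega)]
          apply Nat.mul_le_mul_left
          rw [Nat.le_div_iff_mul_le (by positivity), mul_comm]
          exact h2)
    have hsplit : ∑ u ∈ Veff, |z u| = ∑ u ∈ U, |z u| + ∑ u ∈ Veff \ U, |z u| := by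
      rw [← Finset.sum_sdiff hUV]; ring
    have hoff : ∑ u ∈ Veff \ U, |z u| ≤ ∑ u ∈ Uᶜ, |z u| := by
      apply Finset.sum_le_sum_of_subset_of_nonneg
      · intro u hu
        rw [Finset.mem_compl]
        exact (Finset.mem_sdiff.mp hu).2
      · intro _ _ _
        exact abs_nonneg _
    rw [hsplit] at hcore
    have htr : (t : ℝ) = 2 * ((J : ℝ) + 1) := by
      rw [ht]; push_cast; ring
    rw [htr] at hcore
    have hJ0 : (0 : ℝ) < (J : ℝ) + 1 := by positivity
    have h5 : ((J : ℝ) + 1) * ∑ u ∈ U, |z u| ≤ ((J : ℝ) + 1) * (3 * ∑ u ∈ Veff \ U, |z u|) := by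
      nlinarith
    have h6 := le_of_mul_le_mul_left h5 hJ0
    linarith)
  refine ⟨_, ?_, A, R, ?_⟩
  · rw [Fintype.card_sigma]
    calc ∑ j : Fin (J + 1), Fintype.card (Fin (4 * t * (2 ^ (j.val + 1) + 2)) × Fin (48 * sp k j * t))
        ≤ ∑ j : Fin (J + 1), 101376 * k * (J + 1) ^ 2 := by
          apply Finset.sum_le_sum
          intro j _
          rw [Fintype.card_prod, Fintype.card_fin, Fintype.card_fin]
          have h1 := sp_upper k j (hpow j (by omega))
          calc 4 * t * (2 ^ (j.val + 1) + 2) * (48 * sp k j * t)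
              = 192 * t ^ 2 * ((2 ^ (j.val + 1) + 2) * sp k j) := by ring
            _ ≤ 192 * t ^ 2 * (132 * k) := Nat.mul_le_mul_left _ h1
            _ = 101376 * k * (J + 1) ^ 2 := by rw [ht]; ring
      _ = 101376 * k * (J + 1) ^ 3 := by
          rw [Finset.sum_const, Finset.card_univ, Fintype.card_fin, smul_eq_mul]; ring
  · rintro x x' ⟨T, hT, h⟩
    exact hAR x x' ⟨T, hT, h⟩

theorem result (h k : ℕ) (hk : 1 ≤ k) (hkn : k ≤ 2 ^ h - 1) :
    ∃ m : ℕ, m ≤ 1000000 * k * (Nat.log 2 (min (2 * k) (h - Nat.log 2 k)) + 1) ^ 3 ∧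
    ∃ A : Matrix (Fin m) (Fin (2 ^ h - 1)) ℝ,
      ∃ R : (Fin m → ℝ) → (Fin (2 ^ h - 1) → ℝ),
        ∀ x x' : Fin (2 ^ h - 1) → ℝ,
          (∃ T : Finset (Fin (2 ^ h - 1)), T.card = k ∧ (∃ r ∈ T, r.val = 0) ∧
             (∀ i ∈ T, i.val ≠ 0 → ∃ j ∈ T, j.val + 1 = (i.val + 1) / 2) ∧
             (∀ i, i ∉ T → x' i = 0)) →
          ∑ i, |R (Matrix.mulVec A x) i - x i| ≤ 8 * ∑ i, |x' i - x i| := by
  set H := min (2 * k) (h - Nat.log 2 k) with hH
  have hlog : Nat.log 2 k < h := by
    apply Nat.log_lt_of_lt_pow (by omega)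
    have : 1 ≤ 2 ^ h := Nat.one_le_two_pow
    omega
  have hH1 : 1 ≤ H := by
    rw [hH, le_min_iff]; omega
  have hclog : H ≤ 2 ^ Nat.clog 2 H := Nat.le_pow_clog (by norm_num) H
  have hJ1 : 2 ^ (Nat.clog 2 H - 1) ≤ 2 * k := by
    by_cases h1 : H = 1
    · rw [h1]; simp; omega
    · have h2 := Nat.pow_pred_clog_lt_self (b := 2) (by norm_num) (x := H) (by omega)
      have h3 : H ≤ 2 * k := min_le_left _ _
      have h4 : (Nat.clog 2 H).pred = Nat.clog 2 H - 1 := rfl
      rw [h4] at h2
      omega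
  have hκ1 : 2 * k ≤ 2 ^ Nat.clog 2 (2 * k) := Nat.le_pow_clog (by norm_num) _
  have hκ2 : 2 ^ Nat.clog 2 (2 * k) ≤ 4 * k := by
    have h2 := Nat.pow_pred_clog_lt_self (b := 2) (by norm_num) (x := 2 * k) (by omega)
    have h4 : (Nat.clog 2 (2 * k)).pred = Nat.clog 2 (2 * k) - 1 := rfl
    rw [h4] at h2
    have h5 : 0 < Nat.clog 2 (2 * k) := Nat.clog_pos (by norm_num) (by omega)
    have h6 : 2 ^ Nat.clog 2 (2 * k) = 2 * 2 ^ (Nat.clog 2 (2 * k) - 1) := by
      rw [← pow_succ']
      congr 1
      omega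
    omega
  have hNJ : min (2 ^ h - 1) (2 ^ (2 * k) - 1) ≤ k * 2 ^ (2 ^ Nat.clog 2 H) := by
    have h1 : 2 ^ H ≤ 2 ^ (2 ^ Nat.clog 2 H) := Nat.pow_le_pow_right (by norm_num) hclog
    have h2 : min (2 ^ h - 1) (2 ^ (2 * k) - 1) ≤ k * 2 ^ H := by
      rcases le_total (2 * k) (h - Nat.log 2 k) with h3 | h3
      · rw [hH, min_eq_left h3]
        refine (min_le_right _ _).trans ?_
        calc 2 ^ (2 * k) - 1 ≤ 1 * 2 ^ (2 * k) := by omega
          _ ≤ k * 2 ^ (2 * k) := Nat.mul_le_mul_right _ hk
      · rw [hH, min_eq_right h3]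
        refine (min_le_left _ _).trans ?_
        calc 2 ^ h - 1 ≤ 2 ^ h := Nat.sub_le _ _
          _ = 2 ^ Nat.log 2 k * 2 ^ (h - Nat.log 2 k) := by
              rw [← pow_add]; congr 1; omega
          _ ≤ k * 2 ^ (h - Nat.log 2 k) :=
              Nat.mul_le_mul_right _ (Nat.pow_log_le_self 2 (by omega))
    exact h2.trans (Nat.mul_le_mul_left _ h1)
  obtain ⟨m, hm, A, R, hAR⟩ := construction (2 ^ h - 1) k (Nat.clog 2 H) (Nat.clog 2 (2 * k)) hk
    hκ1 hκ2 hJ1 hNJ
  refine ⟨m, ?_, A, R, ?_⟩
  · refine hm.trans ?_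
    have h1 : Nat.clog 2 H ≤ Nat.log 2 H + 1 := by
      by_cases h2 : H = 1
      · rw [h2]; simp
      · apply Nat.clog_le_of_le_pow
        exact (Nat.lt_pow_succ_log_self (by norm_num) H).le
    have h2 : (Nat.clog 2 H + 1) ^ 3 ≤ (2 * (Nat.log 2 H + 1)) ^ 3 :=
      Nat.pow_le_pow_left (by omega) 3
    calc 101376 * k * (Nat.clog 2 H + 1) ^ 3 ≤ 101376 * k * (2 * (Nat.log 2 H + 1)) ^ 3 :=
          Nat.mul_le_mul_left _ h2
      _ = 811008 * (k * (Nat.log 2 H + 1) ^ 3) := by ring
      _ ≤ 1000000 * (k * (Nat.log 2 H + 1) ^ 3) := Nat.mul_le_mul_right _ (by norm_num)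
      _ = 1000000 * k * (Nat.log 2 H + 1) ^ 3 := by ring
  · rintro x x' ⟨T, hTc, hTr, hTp, hx'⟩
    exact hAR x x' ⟨T, ⟨hTc, hTr, hTp⟩, hx'⟩

end Pool.Agent.Results.MP_d546a0_lc.LogLogCubed
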