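import Mathlib

set_option autoImplicit false

namespace Pool.Agent.Results.MP_d546a0_lc.LogLogSq

open Finset

/-- `S` is closed under taking parents (node `i : Fin n` is the node number `i + 1`). -/
def Clo {n : ℕ} (S : Finset (Fin n)) : Prop :=
  ∀ i ∈ S, i.val ≠ 0 → ∃ j ∈ S, j.val + 1 = (i.val + 1) / 2

/-- neighbours: the root and all children of `S` -/
noncomputable def nb {n : ℕ} (S : Finset (Fin n)) : Finset (Fin n) := by
  classical
  exact univ.filter fun i => i.val = 0 ∨ ∃ j ∈ S, j.val + 1 = (i.val + 1) / 2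

lemma nb_card {n : ℕ} (S : Finset (Fin n)) : (nb S).card ≤ 2 * S.card + 1 := by
  classical
  have h1 : nb S ⊆ (univ.filter fun i : Fin n => i.val = 0) ∪
      S.biUnion (fun j => univ.filter fun i : Fin n => j.val + 1 = (i.val + 1) / 2) := by
    intro i hi
    simp only [nb, mem_filter, mem_univ, true_and] at hi
    simp only [mem_union, mem_filter, mem_univ, true_and, mem_biUnion]
    exact hi
  refine (card_le_card h1).trans ((card_union_le _ _).trans ?_)
  have h2 : (univ.filter fun i : Fin n => i.val = 0).card ≤ 1 := by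
    rw [card_le_one]
    intro a ha b hb
    simp only [mem_filter, mem_univ, true_and] at ha hb
    exact Fin.ext (by omega)
  have h3 : (S.biUnion (fun j => univ.filter fun i : Fin n => j.val + 1 = (i.val + 1) / 2)).card
      ≤ S.card * 2 := by
    apply card_biUnion_le_card_mul
    intro j _
    have : (univ.filter fun i : Fin n => j.val + 1 = (i.val + 1) / 2).image (fun i => i.val) ⊆
        {2 * j.val + 1, 2 * j.val + 2} := by
      intro x hx
      simp only [mem_image, mem_filter, mem_univ, true_and] at hx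
      obtain ⟨i, hi, rfl⟩ := hx
      simp only [mem_insert, mem_singleton]
      omega
    rw [← card_image_of_injective _ Fin.val_injective]
    exact (card_le_card this).trans card_le_two
  omega

lemma sub_nb {n : ℕ} {S : Finset (Fin n)} (hS : Clo S) : S ⊆ nb S := by
  intro i hi
  simp only [nb, mem_filter, mem_univ, true_and]
  by_cases h : i.val = 0
  · exact Or.inl h
  · exact Or.inr (hS i hi h)

/-- separation -/
lemma clo_sep {n : ℕ} {S S' : Finset (Fin n)} (hS : Clo S) (X : Finset (Fin n))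
    (h1 : S ⊆ X) (h2 : ∀ i ∈ nb S', i ∈ X → i ∈ S') : S ⊆ S' := by
  intro i
  induction' hn : i.val using Nat.strong_induction_on with m ih generalizing i
  intro hi
  apply h2 i _ (h1 hi)
  simp only [nb, mem_filter, mem_univ, true_and]
  by_cases h : i.val = 0
  · exact Or.inl h
  · obtain ⟨j, hj, hji⟩ := hS i hi h
    right
    exact ⟨j, ih j.val (by omega) rfl hj, hji⟩

lemma count_clo (n s : ℕ) [DecidablePred fun S : Finset (Fin n) => Clo S ∧ S.card ≤ s] :
    ((univ : Finset (Finset (Fin n))).filter (fun S => Clo S ∧ S.card ≤ s)).card ≤ 2 ^ (2 * s + 1) := by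
  classical
  set F := (univ : Finset (Finset (Fin n))).filter (fun S => Clo S ∧ S.card ≤ s) with hF
  let T : Finset (Fin n) → Finset (Finset (Fin n)) := fun S =>
    univ.filter fun X => S ⊆ X ∧ ∀ i ∈ nb S, i ∈ X → i ∈ S
  have hdisj : (F : Set (Finset (Fin n))).PairwiseDisjoint T := by
    intro S hS S' hS' hne
    rw [Function.onFun, disjoint_left]
    intro X hX hX'
    simp only [T, mem_filter, mem_univ, true_and] at hX hX'
    simp only [hF, coe_filter, mem_univ, true_and, Set.mem_ofPred_eq] at hS hS'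
    exact hne (Subset.antisymm (clo_sep hS.1 X hX.1 hX'.2) (clo_sep hS'.1 X hX'.1 hX.2))
  have hT : ∀ S ∈ F, 2 ^ (n - (2 * s + 1)) ≤ (T S).card := by
    intro S hS
    simp only [hF, mem_filter, mem_univ, true_and] at hS
    have h1 : ((nb S)ᶜ).powerset.image (fun Y => S ∪ Y) ⊆ T S := by
      intro X hX
      simp only [mem_image, mem_powerset] at hX
      obtain ⟨Y, hY, rfl⟩ := hX
      simp only [T, mem_filter, mem_univ, true_and]
      refine ⟨subset_union_left, fun i hi hi2 => ?_⟩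
      rcases mem_union.mp hi2 with h | h
      · exact h
      · exact absurd hi (mem_compl.mp (hY h))
    have h2 : (((nb S)ᶜ).powerset.image (fun Y => S ∪ Y)).card = 2 ^ ((nb S)ᶜ).card := by
      rw [card_image_of_injOn, card_powerset]
      intro Y hY Y' hY' he
      simp only [coe_powerset, Set.mem_preimage, Set.mem_powerset_iff, coe_subset] at hY hY'
      have key : ∀ {A B : Finset (Fin n)}, A ⊆ (nb S)ᶜ → S ∪ A = S ∪ B → A ⊆ B := by
        intro A B hA he i hi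
        have : i ∈ S ∪ B := by rw [← he]; exact mem_union_right _ hi
        rcases mem_union.mp this with h | h
        · exact absurd (sub_nb hS.1 h) (mem_compl.mp (hA hi))
        · exact h
      exact Subset.antisymm (key hY he) (key hY' he.symm)
    refine le_trans ?_ (card_le_card h1)
    rw [h2, card_compl, Fintype.card_fin]
    apply Nat.pow_le_pow_right (by norm_num)
    have := nb_card S
    omega
  have hsum : F.card * 2 ^ (n - (2 * s + 1)) ≤ 2 ^ n := by
    calc F.card * 2 ^ (n - (2 * s + 1)) = ∑ S ∈ F, 2 ^ (n - (2 * s + 1)) := by simp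
      _ ≤ ∑ S ∈ F, (T S).card := sum_le_sum hT
      _ = (F.biUnion T).card := (card_biUnion hdisj).symm
      _ ≤ (univ : Finset (Finset (Fin n))).card := card_le_univ _
      _ = 2 ^ n := by simp
  by_cases hns : n ≤ 2 * s + 1
  · have : n - (2 * s + 1) = 0 := by omega
    rw [this, pow_zero, mul_one] at hsum
    exact hsum.trans (Nat.pow_le_pow_right (by norm_num) hns)
  · push Not at hns
    have e : 2 ^ n = 2 ^ (2 * s + 1) * 2 ^ (n - (2 * s + 1)) := by
      rw [← pow_add]; congr 1; omega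
    rw [e] at hsum
    exact Nat.le_of_mul_le_mul_right hsum (by positivity)

lemma count_step {Ω : Type*} [Fintype Ω] [DecidableEq Ω] {m : ℕ} (X : Finset Ω) (e : Ω)
    (he : e ∉ X) (P : (Ω → Fin m) → Prop) [DecidablePred P]
    (hP : ∀ g c, P g → P (Function.update g e c)) :
    (univ.filter fun g : Ω → Fin m => P g ∧ g e ∈ X.image g).card * m ≤
      X.card * (univ.filter fun g : Ω → Fin m => P g).card := by
  classical
  have hx : ∀ g : Ω → Fin m, ∃ x : Ω, g e ∈ X.image g → (x ∈ X ∧ g x = g e) := by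
    intro g
    by_cases h : g e ∈ X.image g
    · obtain ⟨x, hx, hxe⟩ := mem_image.mp h
      exact ⟨x, fun _ => ⟨hx, hxe⟩⟩
    · exact ⟨e, fun h' => absurd h' h⟩
  choose f hf using hx
  rw [mul_comm X.card]
  have h1 : ((univ.filter fun g : Ω → Fin m => P g ∧ g e ∈ X.image g) ×ˢ
      (univ : Finset (Fin m))).card ≤
      ((univ.filter fun g : Ω → Fin m => P g) ×ˢ X).card := by
    apply card_le_card_of_injOn (fun p => (Function.update p.1 e p.2, f p.1))
    · rintro ⟨g, c⟩ hg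
      simp only [coe_product, Set.mem_prod, coe_filter, mem_univ, true_and, Set.mem_ofPred_eq,
        coe_univ, Set.mem_univ, and_true] at hg
      simp only [coe_product, Set.mem_prod, coe_filter, mem_univ, true_and, Set.mem_ofPred_eq,
        mem_coe]
      exact ⟨hP g c hg.1, (hf g hg.2).1⟩
    · rintro ⟨g, c⟩ hg ⟨g', c'⟩ hg' heq
      simp only [coe_product, Set.mem_prod, coe_filter, mem_univ, true_and, Set.mem_ofPred_eq,
        coe_univ, Set.mem_univ, and_true] at hg hg'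
      simp only [Prod.mk.injEq] at heq
      obtain ⟨h1, h2⟩ := heq
      have hc : c = c' := by
        have := congrFun h1 e
        simpa using this
      have hoff : ∀ x, x ≠ e → g x = g' x := by
        intro x hx
        have := congrFun h1 x
        rwa [Function.update_of_ne hx, Function.update_of_ne hx] at this
      have hfe : f g ≠ e := fun h => he (h ▸ (hf g hg.2).1)
      have hge : g e = g' e := by
        rw [← (hf g hg.2).2, ← (hf g' hg'.2).2, ← h2]
        exact hoff _ hfe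
      have hg2 : g = g' := by
        funext x
        by_cases hx : x = e
        · rw [hx, hge]
        · exact hoff x hx
      rw [hg2, hc]
  rw [card_product, card_product, card_univ, Fintype.card_fin] at h1
  exact h1

lemma count_fun {Ω : Type*} [Fintype Ω] [DecidableEq Ω] {m : ℕ} (hm : 0 < m) (X : Finset Ω) :
    ∀ R : ℕ, ((univ.filter (fun g : Ω → Fin m => (X.image g).card + R ≤ X.card)).card : ℝ) ≤
      (X.card.choose R : ℝ) * ((X.card : ℝ) / m) ^ R * (m : ℝ) ^ (Fintype.card Ω) := by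
  classical
  have hm' : (0 : ℝ) < m := by exact_mod_cast hm
  have htot : ∀ P : (Ω → Fin m) → Prop, ∀ _ : DecidablePred P,
      ((univ.filter P).card : ℝ) ≤ (m : ℝ) ^ (Fintype.card Ω) := by
    intro P _
    have h1 := card_filter_le (univ : Finset (Ω → Fin m)) P
    have h2 : (univ : Finset (Ω → Fin m)).card = m ^ (Fintype.card Ω) := by
      simp
    rw [h2] at h1
    exact_mod_cast h1
  induction X using Finset.induction_on with
  | empty =>
    intro R
    rcases Nat.eq_zero_or_pos R with h | h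
    · subst h
      simp only [card_empty, Nat.choose_self, Nat.cast_one, pow_zero, one_mul]
      exact htot _ _
    · have : (univ.filter (fun g : Ω → Fin m => ((∅ : Finset Ω).image g).card + R ≤
          (∅ : Finset Ω).card)) = ∅ := by
        apply filter_eq_empty_iff.mpr
        intro g _
        simp
        omega
      rw [this, card_empty, Nat.cast_zero]
      positivity
  | insert e X he ih =>
    intro R
    rcases Nat.eq_zero_or_pos R with h | h
    · subst h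
      simp only [Nat.choose_zero_right, Nat.cast_one, pow_zero, one_mul]
      exact htot _ _
    · obtain ⟨R', rfl⟩ : ∃ R', R = R' + 1 := ⟨R - 1, by omega⟩
      have hsub : (univ.filter (fun g : Ω → Fin m => ((insert e X).image g).card + (R' + 1) ≤
          (insert e X).card)) ⊆
          (univ.filter (fun g : Ω → Fin m => (X.image g).card + (R' + 1) ≤ X.card)) ∪
          (univ.filter (fun g : Ω → Fin m => (X.image g).card + R' ≤ X.card ∧ g e ∈ X.image g)) := by
        intro g hg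
        simp only [mem_filter, mem_univ, true_and, image_insert, card_insert_of_notMem he] at hg
        simp only [mem_union, mem_filter, mem_univ, true_and]
        by_cases hge : g e ∈ X.image g
        · right
          rw [insert_eq_of_mem hge] at hg
          exact ⟨by omega, hge⟩
        · left
          rw [card_insert_of_notMem hge] at hg
          omega
      have h1 := (card_le_card hsub).trans (card_union_le _ _)
      have h2 := count_step X e he (fun g : Ω → Fin m => (X.image g).card + R' ≤ X.card) (by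
        intro g c hg
        have : X.image (Function.update g e c) = X.image g := by
          apply image_congr
          intro x hx
          apply Function.update_of_ne
          rintro rfl
          exact he hx
        rw [this]
        exact hg)
      have h3 := ih (R' + 1)
      have h4 := ih R'
      have h1' : ((univ.filter (fun g : Ω → Fin m => ((insert e X).image g).card + (R' + 1) ≤
          (insert e X).card)).card : ℝ) ≤
          ((univ.filter (fun g : Ω → Fin m => (X.image g).card + (R' + 1) ≤ X.card)).card : ℝ) +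
          ((univ.filter (fun g : Ω → Fin m => (X.image g).card + R' ≤ X.card ∧
            g e ∈ X.image g)).card : ℝ) := by
        exact_mod_cast h1
      have h2' : ((univ.filter (fun g : Ω → Fin m => (X.image g).card + R' ≤ X.card ∧
            g e ∈ X.image g)).card : ℝ) * m ≤ (X.card : ℝ) *
            ((univ.filter (fun g : Ω → Fin m => (X.image g).card + R' ≤ X.card)).card : ℝ) := by
        exact_mod_cast h2
      refine h1'.trans ?_
      generalize ((univ.filter (fun g : Ω → Fin m => (X.image g).card + (R' + 1) ≤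
        X.card)).card : ℝ) = a at *
      generalize ((univ.filter (fun g : Ω → Fin m => (X.image g).card + R' ≤ X.card ∧
        g e ∈ X.image g)).card : ℝ) = b at *
      generalize ((univ.filter (fun g : Ω → Fin m => (X.image g).card + R' ≤ X.card)).card : ℝ)
        = p at *
      rw [card_insert_of_notMem he]
      have h2'' : b ≤ (X.card : ℝ) / m * p := by
        rw [div_mul_eq_mul_div, le_div_iff₀ hm']
        exact h2'
      set x : ℝ := (X.card : ℝ) with hx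
      have hx0 : 0 ≤ x := Nat.cast_nonneg _
      set M : ℝ := (m : ℝ) ^ (Fintype.card Ω)
      have hM : 0 ≤ M := by positivity
      have h5 : b ≤ x / m * ((X.card.choose R' : ℝ) * (x / m) ^ R' * M) :=
        h2''.trans (mul_le_mul_of_nonneg_left h4 (by positivity))
      have h6 : ((X.card + 1).choose (R' + 1) : ℝ) = (X.card.choose R' : ℝ) +
          (X.card.choose (R' + 1) : ℝ) := by
        rw [Nat.choose_succ_succ]
        push_cast
        ring
      calc a + b ≤ (X.card.choose (R' + 1) : ℝ) * (x / m) ^ (R' + 1) * M +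
            x / m * ((X.card.choose R' : ℝ) * (x / m) ^ R' * M) := add_le_add h3 h5
        _ = ((X.card + 1).choose (R' + 1) : ℝ) * (x / m) ^ (R' + 1) * M := by
          rw [h6]; ring
        _ ≤ ((X.card + 1).choose (R' + 1) : ℝ) * (((X.card + 1 : ℕ) : ℝ) / m) ^ (R' + 1) * M := by
          have : x ≤ ((X.card + 1 : ℕ) : ℝ) := by
            push_cast
            linarith
          gcongr

lemma count_sub (n s : ℕ) [DecidablePred fun V : Finset (Fin n) => ∃ S, Clo S ∧ S.card ≤ s ∧ V ⊆ S] :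
    ((univ : Finset (Finset (Fin n))).filter
      (fun V => ∃ S, Clo S ∧ S.card ≤ s ∧ V ⊆ S)).card ≤ 2 ^ (3 * s + 1) := by
  classical
  have h1 : ((univ : Finset (Finset (Fin n))).filter
      (fun V => ∃ S, Clo S ∧ S.card ≤ s ∧ V ⊆ S)) ⊆
      ((univ : Finset (Finset (Fin n))).filter (fun S => Clo S ∧ S.card ≤ s)).biUnion
        (fun S => S.powerset) := by
    intro V hV
    simp only [mem_filter, mem_univ, true_and] at hV
    obtain ⟨S, h1, h2, h3⟩ := hV
    simp only [mem_biUnion, mem_filter, mem_univ, true_and, mem_powerset]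
    exact ⟨S, ⟨h1, h2⟩, h3⟩
  refine (card_le_card h1).trans ?_
  refine (card_biUnion_le_card_mul _ _ (2 ^ s) ?_).trans ?_
  · intro S hS
    simp only [mem_filter, mem_univ, true_and] at hS
    rw [card_powerset]
    exact Nat.pow_le_pow_right (by norm_num) hS.2
  · calc _ ≤ 2 ^ (2 * s + 1) * 2 ^ s := Nat.mul_le_mul_right _ (count_clo n s)
      _ = 2 ^ (3 * s + 1) := by rw [← pow_add]; congr 1; omega

/-- hash functions with expansion at one scale -/
lemma exists_hash (n k i c : ℕ) (hk : 1 ≤ k) (hi : 2 ^ i ≤ k) (hc : 2 ≤ c) :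
    ∃ N : Fin n × Fin (4 * c * 2 ^ i) → Fin (16 * (4 * c) * k),
      ∀ S : Finset (Fin n), Clo S → S.card ≤ k → ∀ V ⊆ S, V.card = k / 2 ^ i →
        4 * c * 2 ^ i * V.card ≤ 4 * ((V ×ˢ (univ : Finset (Fin (4 * c * 2 ^ i)))).image N).card := by
  classical
  set s := 4 * c * 2 ^ i with hs
  set m := 16 * (4 * c) * k with hm
  set p := k / 2 ^ i with hp
  have hm0 : 0 < m := by positivity
  have hp1 : 1 ≤ p := (Nat.one_le_div_iff (by positivity)).mpr hi
  have hpk : 2 ^ i * p ≤ k := Nat.mul_div_le k (2 ^ i)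
  have hpk2 : k ≤ 2 * (2 ^ i * p) := by
    have h1 := Nat.div_add_mod k (2 ^ i)
    have h2 := Nat.mod_lt k (show 0 < 2 ^ i by positivity)
    rw [← hp] at h1
    have h3 : 2 ^ i * 1 ≤ 2 ^ i * p := Nat.mul_le_mul_left _ hp1
    omega
  by_contra hcon
  push Not at hcon
  set Ω := Fin n × Fin s with hΩ
  set y := c * (2 ^ i * p) with hy
  set 𝒱 := ((univ : Finset (Finset (Fin n))).filter
      (fun V => ∃ S, Clo S ∧ S.card ≤ k ∧ V ⊆ S)).filter (fun V => V.card = p) with h𝒱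
  have hcov : (univ : Finset (Ω → Fin m)) ⊆ 𝒱.biUnion (fun V =>
      univ.filter (fun g : Ω → Fin m => ((V ×ˢ (univ : Finset (Fin s))).image g).card + 3 * y ≤
        (V ×ˢ (univ : Finset (Fin s))).card)) := by
    intro g _
    obtain ⟨S, hS, hSk, V, hVS, hVp, hbad⟩ := hcon g
    simp only [h𝒱, mem_biUnion, mem_filter, mem_univ, true_and]
    refine ⟨V, ⟨⟨S, hS, hSk, hVS⟩, hVp⟩, ?_⟩
    rw [card_product, card_univ, Fintype.card_fin]
    have e1 : s * V.card = 4 * y := by rw [hVp, hs, hy]; ring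
    have e2 : V.card * s = 4 * y := by rw [mul_comm]; exact e1
    rw [e1] at hbad
    omega
  have hcard := card_le_card hcov
  have hcard2 := hcard.trans card_biUnion_le
  have huniv : (univ : Finset (Ω → Fin m)).card = m ^ (Fintype.card Ω) := by simp
  rw [huniv] at hcard2
  have hreal : (m : ℝ) ^ (Fintype.card Ω) ≤ ∑ V ∈ 𝒱,
      ((univ.filter (fun g : Ω → Fin m => ((V ×ˢ (univ : Finset (Fin s))).image g).card + 3 * y ≤
        (V ×ˢ (univ : Finset (Fin s))).card)).card : ℝ) := by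
    exact_mod_cast hcard2
  have hterm : ∀ V ∈ 𝒱,
      ((univ.filter (fun g : Ω → Fin m => ((V ×ˢ (univ : Finset (Fin s))).image g).card + 3 * y ≤
        (V ×ˢ (univ : Finset (Fin s))).card)).card : ℝ) ≤
      (1 / 2) ^ (8 * y) * (m : ℝ) ^ (Fintype.card Ω) := by
    intro V hV
    simp only [h𝒱, mem_filter, mem_univ, true_and] at hV
    refine (count_fun hm0 _ _).trans ?_
    have hx : (V ×ˢ (univ : Finset (Fin s))).card = 4 * y := by
      rw [card_product, card_univ, Fintype.card_fin, hV.2, hs, hy]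
      ring
    rw [hx]
    apply mul_le_mul_of_nonneg_right _ (by positivity)
    have h1 : ((4 * y).choose (3 * y) : ℝ) ≤ 2 ^ (4 * y) := by
      exact_mod_cast Nat.choose_le_two_pow _ _
    have h2 : ((4 * y : ℕ) : ℝ) / m ≤ 1 / 16 := by
      have hm0' : (0 : ℝ) < m := by exact_mod_cast hm0
      rw [div_le_div_iff₀ hm0' (by norm_num)]
      have : 4 * y * 16 ≤ m := by
        rw [hy, hm]
        calc 4 * (c * (2 ^ i * p)) * 16 = 64 * c * (2 ^ i * p) := by ring
          _ ≤ 64 * c * k := Nat.mul_le_mul_left _ hpk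
          _ = _ := by ring
      have h3 : ((4 * y * 16 : ℕ) : ℝ) ≤ m := by exact_mod_cast this
      push_cast at h3 ⊢
      linarith
    calc ((4 * y).choose (3 * y) : ℝ) * (((4 * y : ℕ) : ℝ) / m) ^ (3 * y)
        ≤ 2 ^ (4 * y) * (1 / 16) ^ (3 * y) := by gcongr
      _ = (1 / 2) ^ (8 * y) := by
        have e1 : (1 / 16 : ℝ) ^ (3 * y) = (1 / 2) ^ (12 * y) := by
          rw [show 12 * y = 4 * (3 * y) by ring, pow_mul (1 / 2 : ℝ) 4]
          norm_num
        rw [e1, show 12 * y = 8 * y + 4 * y by ring, pow_add (1 / 2 : ℝ)]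
        rw [mul_comm, mul_assoc, ← mul_pow]
        norm_num
  have h𝒱card : (𝒱.card : ℝ) ≤ 2 ^ (3 * k + 1) := by
    have h1 : 𝒱.card ≤ 2 ^ (3 * k + 1) := (card_filter_le _ _).trans (count_sub n k)
    exact_mod_cast h1
  have hM : (0 : ℝ) < (m : ℝ) ^ (Fintype.card Ω) := by positivity
  have h8y : 4 * c * k ≤ 8 * y := by
    rw [hy]
    calc 4 * c * k ≤ 4 * c * (2 * (2 ^ i * p)) := Nat.mul_le_mul_left _ hpk2
      _ = _ := by ring
  have hfin : (m : ℝ) ^ (Fintype.card Ω) ≤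
      2 ^ (3 * k + 1) * ((1 / 2) ^ (8 * y) * (m : ℝ) ^ (Fintype.card Ω)) := by
    refine hreal.trans ((sum_le_sum hterm).trans ?_)
    rw [sum_const, nsmul_eq_mul]
    gcongr
  have hlt : (2 : ℝ) ^ (3 * k + 1) * (1 / 2) ^ (8 * y) < 1 := by
    have h1 : 3 * k + 2 ≤ 8 * y := by
      have : 8 * k ≤ 4 * c * k := by
        have : 8 ≤ 4 * c := by omega
        exact Nat.mul_le_mul_right _ this
      omega
    calc (2 : ℝ) ^ (3 * k + 1) * (1 / 2) ^ (8 * y) ≤ 2 ^ (3 * k + 1) * (1 / 2) ^ (3 * k + 2) := by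
          apply mul_le_mul_of_nonneg_left _ (by positivity)
          exact pow_le_pow_of_le_one (by norm_num) (by norm_num) h1
      _ = 1 / 2 := by
        rw [show 3 * k + 2 = 3 * k + 1 + 1 by ring, pow_succ (1 / 2 : ℝ), ← mul_assoc, ← mul_pow]
        norm_num
      _ < 1 := by norm_num
  nlinarith

lemma choose_le_three (n r : ℕ) (hr : 1 ≤ r) : (n.choose r : ℝ) ≤ (3 * n / r) ^ r := by
  have hr0 : (0 : ℝ) < r := by exact_mod_cast hr
  have h1 := Nat.choose_le_pow_div (α := ℝ) r n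
  have h2 := Real.pow_div_factorial_le_exp (x := (r : ℝ)) hr0.le r
  have h3 : Real.exp (r : ℝ) ≤ 3 ^ r := by
    have : Real.exp (r : ℝ) = Real.exp 1 ^ r := by
      rw [← Real.exp_nat_mul, mul_one]
    rw [this]
    exact pow_le_pow_left₀ (Real.exp_pos _).le Real.exp_one_lt_three.le r
  have hf : (0 : ℝ) < (r.factorial : ℝ) := by exact_mod_cast Nat.factorial_pos r
  have h4 : (r : ℝ) ^ r ≤ 3 ^ r * r.factorial := by
    have := h2.trans h3
    rwa [div_le_iff₀ hf] at this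
  refine h1.trans ?_
  rw [div_pow, div_le_div_iff₀ hf (by positivity), mul_pow]
  calc (n : ℝ) ^ r * (r : ℝ) ^ r ≤ (n : ℝ) ^ r * (3 ^ r * r.factorial) := by gcongr
    _ = _ := by ring

lemma gamma_bound (Γ : ℕ) (hΓ : 1 ≤ Γ) : (Γ : ℝ) * (3 / 8) ^ (Γ - 1) ≤ 1 := by
  obtain ⟨g, rfl⟩ : ∃ g, Γ = g + 1 := ⟨Γ - 1, by omega⟩
  rw [Nat.add_sub_cancel]
  induction g with
  | zero => norm_num
  | succ g ih =>
    have h1 := ih (by omega)
    push_cast at h1 ⊢
    have hg : (0 : ℝ) ≤ g := Nat.cast_nonneg g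
    have hp : (0 : ℝ) ≤ (3 / 8 : ℝ) ^ g := by positivity
    rw [pow_succ]
    nlinarith

/-- the expander stage -/
lemma exists_exp (n k L Γ K : ℕ) (hk : 1 ≤ k) (hΓ : 1 ≤ Γ) (hL : L ≤ Γ) (hn : n ≤ 2 ^ L * k)
    (hK : 1 ≤ K) :
    ∃ N : Fin n × Fin (K * Γ) → Fin (256 * K ^ 2 * k), ∀ V : Finset (Fin n), Γ * V.card ≤ 16 * k →
      K * Γ * V.card ≤ ((V ×ˢ (univ : Finset (Fin (K * Γ)))).image N).card + Γ * V.card := by
  classical
  set s := K * Γ with hs
  set m := 256 * K ^ 2 * k with hm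
  have hm0 : 0 < m := by positivity
  have hkR : (0 : ℝ) < k := by exact_mod_cast hk
  have hΓR : (0 : ℝ) < Γ := by exact_mod_cast hΓ
  have hKR : (0 : ℝ) < K := by exact_mod_cast hK
  by_contra hcon
  push Not at hcon
  set Ω := Fin n × Fin s with hΩ
  set M : ℝ := (m : ℝ) ^ (Fintype.card Ω) with hM
  have hM0 : 0 < M := by positivity
  set 𝒱 := (univ : Finset (Finset (Fin n))).filter (fun V => 1 ≤ V.card ∧ Γ * V.card ≤ 16 * k)
    with h𝒱
  have hcov : (univ : Finset (Ω → Fin m)) ⊆ 𝒱.biUnion (fun V =>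
      univ.filter (fun g : Ω → Fin m => ((V ×ˢ (univ : Finset (Fin s))).image g).card + Γ * V.card ≤
        (V ×ˢ (univ : Finset (Fin s))).card)) := by
    intro g _
    obtain ⟨V, hV, hbad⟩ := hcon g
    simp only [h𝒱, mem_biUnion, mem_filter, mem_univ, true_and]
    refine ⟨V, ⟨?_, hV⟩, ?_⟩
    · by_contra h0
      have : V.card = 0 := by omega
      rw [this] at hbad
      omega
    · rw [card_product, card_univ, Fintype.card_fin, mul_comm V.card s]
      exact hbad.le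
  have hcard := card_le_card hcov
  have hcard2 := hcard.trans card_biUnion_le
  have huniv : (univ : Finset (Ω → Fin m)).card = m ^ (Fintype.card Ω) := by simp
  rw [huniv] at hcard2
  have hreal : M ≤ ∑ V ∈ 𝒱,
      ((univ.filter (fun g : Ω → Fin m => ((V ×ˢ (univ : Finset (Fin s))).image g).card + Γ * V.card ≤
        (V ×ˢ (univ : Finset (Fin s))).card)).card : ℝ) := by
    rw [hM]
    exact_mod_cast hcard2
  set f : ℕ → ℝ := fun q => if 1 ≤ q ∧ Γ * q ≤ 16 * k then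
    (3 * (Γ : ℝ) * q / (256 * k)) ^ (Γ * q) * M else 0 with hf
  have hterm : ∀ V ∈ 𝒱,
      ((univ.filter (fun g : Ω → Fin m => ((V ×ˢ (univ : Finset (Fin s))).image g).card + Γ * V.card ≤
        (V ×ˢ (univ : Finset (Fin s))).card)).card : ℝ) ≤ f V.card := by
    intro V hV
    simp only [h𝒱, mem_filter, mem_univ, true_and] at hV
    rw [hf]
    simp only
    rw [if_pos hV]
    refine (count_fun hm0 _ _).trans ?_
    have hx : (V ×ˢ (univ : Finset (Fin s))).card = K * (Γ * V.card) := by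
      rw [card_product, card_univ, Fintype.card_fin, hs]
      ring
    rw [hx]
    apply mul_le_mul_of_nonneg_right _ hM0.le
    set q := V.card with hq
    have hqR : (0 : ℝ) < q := by exact_mod_cast hV.1
    have hR1 : 1 ≤ Γ * q := Nat.mul_pos hΓ hV.1
    have h1 := choose_le_three (K * (Γ * q)) (Γ * q) hR1
    have h2 : (3 * ((K * (Γ * q) : ℕ) : ℝ) / ((Γ * q : ℕ) : ℝ)) = 3 * K := by
      push_cast
      field_simp
    rw [h2] at h1
    calc ((K * (Γ * q)).choose (Γ * q) : ℝ) * (((K * (Γ * q) : ℕ) : ℝ) / m) ^ (Γ * q)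
        ≤ (3 * K) ^ (Γ * q) * (((K * (Γ * q) : ℕ) : ℝ) / m) ^ (Γ * q) := by gcongr
      _ = (3 * (Γ : ℝ) * q / (256 * k)) ^ (Γ * q) := by
        rw [← mul_pow]
        congr 1
        rw [hm]
        push_cast
        field_simp
  have hsum1 : M ≤ ∑ V ∈ 𝒱, f V.card := hreal.trans (sum_le_sum hterm)
  have hsum2 : ∑ V ∈ 𝒱, f V.card ≤ ∑ V ∈ (univ : Finset (Fin n)).powerset, f V.card := by
    rw [powerset_univ]
    apply sum_le_sum_of_subset_of_nonneg (subset_univ _)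
    intro V _ _
    simp only [hf]
    split_ifs
    · positivity
    · exact le_rfl
  rw [sum_powerset_apply_card, card_univ, Fintype.card_fin] at hsum2
  have hterm2 : ∀ q ∈ range (n + 1), (n.choose q) • f q ≤ (1 / 2) ^ (q + 1) * M := by
    intro q _
    rw [nsmul_eq_mul]
    simp only [hf]
    split_ifs with hq
    swap
    · rw [mul_zero]; positivity
    have hqR : (1 : ℝ) ≤ q := by exact_mod_cast hq.1
    have hq0 : (0 : ℝ) < q := by linarith
    rw [← mul_assoc]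
    apply mul_le_mul_of_nonneg_right _ hM0.le
    have h1 := choose_le_three n q hq.1
    set ρ : ℝ := 3 * (Γ : ℝ) * q / (256 * k) with hρ
    have hρ0 : 0 < ρ := by positivity
    have hρ1 : ρ ≤ 3 / 16 := by
      rw [hρ, div_le_div_iff₀ (by positivity) (by norm_num)]
      have : ((Γ * q : ℕ) : ℝ) ≤ ((16 * k : ℕ) : ℝ) := by exact_mod_cast hq.2
      push_cast at this
      linarith
    have hnR : (n : ℝ) ≤ 2 ^ Γ * k := by
      have h2 : n ≤ 2 ^ Γ * k := hn.trans (Nat.mul_le_mul_right _ (Nat.pow_le_pow_right (by norm_num) hL))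
      exact_mod_cast h2
    have hbase : (3 * (n : ℝ) / q) * ρ ^ Γ ≤ 1 / 4 := by
      obtain ⟨g, hg⟩ : ∃ g, Γ = g + 1 := ⟨Γ - 1, by omega⟩
      have hgb := gamma_bound Γ hΓ
      have e1 : ρ ^ Γ = ρ * ρ ^ (Γ - 1) := by
        rw [← pow_succ', Nat.sub_add_cancel hΓ]
      have e2 : (2 : ℝ) ^ Γ = 2 * 2 ^ (Γ - 1) := by
        rw [← pow_succ', Nat.sub_add_cancel hΓ]
      have h3 : ρ ^ (Γ - 1) ≤ (3 / 16) ^ (Γ - 1) := pow_le_pow_left₀ hρ0.le hρ1 _
      calc (3 * (n : ℝ) / q) * ρ ^ Γ ≤ (3 * (2 ^ Γ * k) / q) * ρ ^ Γ := by gcongr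
        _ = (3 * (2 * 2 ^ (Γ - 1) * k) / q) * (ρ * ρ ^ (Γ - 1)) := by rw [e1, e2]
        _ ≤ (3 * (2 * 2 ^ (Γ - 1) * k) / q) * (ρ * (3 / 16) ^ (Γ - 1)) := by gcongr
        _ = (9 / 128) * ((Γ : ℝ) * (2 ^ (Γ - 1) * (3 / 16) ^ (Γ - 1))) := by
          rw [hρ]
          field_simp
          ring
        _ = (9 / 128) * ((Γ : ℝ) * (3 / 8) ^ (Γ - 1)) := by
          rw [← mul_pow]
          norm_num
        _ ≤ (9 / 128) * 1 := by gcongr
        _ ≤ 1 / 4 := by norm_num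
    calc (n.choose q : ℝ) * ρ ^ (Γ * q) ≤ (3 * n / q) ^ q * ρ ^ (Γ * q) := by gcongr
      _ = ((3 * (n : ℝ) / q) * ρ ^ Γ) ^ q := by rw [mul_pow, ← pow_mul]
      _ ≤ (1 / 4) ^ q := by gcongr
      _ = (1 / 2) ^ (2 * q) := by rw [pow_mul]; norm_num
      _ ≤ (1 / 2) ^ (q + 1) := by
        apply pow_le_pow_of_le_one (by norm_num) (by norm_num)
        omega
  have hgeo : ∀ N : ℕ, ∑ q ∈ range N, (1 / 2 : ℝ) ^ (q + 1) < 1 := by
    intro N
    have : ∑ q ∈ range N, (1 / 2 : ℝ) ^ (q + 1) = 1 - (1 / 2) ^ N := by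
      induction N with
      | zero => simp
      | succ N ih =>
        rw [sum_range_succ, ih, pow_succ]
        ring
    rw [this]
    have : (0 : ℝ) < (1 / 2) ^ N := by positivity
    linarith
  have hfin : M ≤ (∑ q ∈ range (n + 1), (1 / 2 : ℝ) ^ (q + 1)) * M := by
    rw [sum_mul]
    exact hsum1.trans (hsum2.trans (sum_le_sum hterm2))
  have := hgeo (n + 1)
  nlinarith

/-- kernel inequality -/
lemma ker_ineq {Ω ρ : Type*} [Fintype Ω] [DecidableEq Ω] [DecidableEq ρ] (N : Ω → ρ) (g : Ω → ℝ)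
    (hker : ∀ c : ρ, ∑ x ∈ univ.filter (fun x => N x = c), g x = 0) (X Y : Finset Ω) (hYX : Y ⊆ X)
    (hinj : Set.InjOn N Y) :
    ∑ y ∈ Y, |g y| ≤ ∑ x ∈ X \ Y, |g x| +
      ∑ x ∈ univ.filter (fun x => x ∉ X ∧ N x ∈ X.image N), |g x| := by
  have h1 : ∀ y ∈ Y, |g y| ≤ ∑ z, if z ≠ y ∧ N z = N y then |g z| else 0 := by
    intro y _
    have h2 := hker (N y)
    have hy : y ∈ univ.filter (fun x => N x = N y) := by simp
    rw [← add_sum_erase _ _ hy] at h2
    have h3 : g y = -∑ x ∈ (univ.filter (fun x => N x = N y)).erase y, g x := by linarith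
    have h4 : (univ.filter (fun x => N x = N y)).erase y = univ.filter (fun z => z ≠ y ∧ N z = N y) := by
      ext z; simp
    rw [h3, abs_neg, h4, ← sum_filter]
    exact abs_sum_le_sum_abs _ _
  have h5 : ∑ y ∈ Y, |g y| ≤ ∑ z, |g z| * ((Y.filter (fun y => z ≠ y ∧ N z = N y)).card : ℝ) := by
    refine (sum_le_sum h1).trans ?_
    rw [sum_comm]
    apply sum_le_sum
    intro z _
    rw [← sum_filter, sum_const, nsmul_eq_mul, mul_comm]
  refine h5.trans ?_
  have h6 : ∀ z, |g z| * ((Y.filter (fun y => z ≠ y ∧ N z = N y)).card : ℝ) ≤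
      if z ∉ Y ∧ N z ∈ X.image N then |g z| else 0 := by
    intro z
    by_cases hzY : z ∈ Y
    · have : Y.filter (fun y => z ≠ y ∧ N z = N y) = ∅ := by
        apply filter_eq_empty_iff.mpr
        intro y hy h
        exact h.1 (hinj hzY hy h.2)
      rw [this, card_empty, Nat.cast_zero, mul_zero, if_neg (fun h => h.1 hzY)]
    · by_cases hne : (Y.filter (fun y => z ≠ y ∧ N z = N y)).Nonempty
      · obtain ⟨y, hy⟩ := hne
        rw [mem_filter] at hy
        rw [if_pos ⟨hzY, by rw [hy.2.2]; exact mem_image_of_mem N (hYX hy.1)⟩]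
        have hc : (Y.filter (fun y => z ≠ y ∧ N z = N y)).card ≤ 1 := by
          rw [card_le_one]
          intro a ha b hb
          rw [mem_filter] at ha hb
          exact hinj ha.1 hb.1 (ha.2.2.symm.trans hb.2.2)
        have hc' : ((Y.filter (fun y => z ≠ y ∧ N z = N y)).card : ℝ) ≤ 1 := by exact_mod_cast hc
        calc _ ≤ |g z| * 1 := mul_le_mul_of_nonneg_left hc' (abs_nonneg _)
          _ = _ := mul_one _
      · rw [not_nonempty_iff_eq_empty] at hne
        rw [hne, card_empty, Nat.cast_zero, mul_zero]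
        split_ifs
        · exact abs_nonneg _
        · exact le_rfl
  refine (sum_le_sum fun z _ => h6 z).trans ?_
  rw [← sum_filter]
  have h7 : univ.filter (fun z => z ∉ Y ∧ N z ∈ X.image N) ⊆
      (X \ Y) ∪ univ.filter (fun x => x ∉ X ∧ N x ∈ X.image N) := by
    intro z hz
    simp only [mem_filter, mem_univ, true_and] at hz
    simp only [mem_union, mem_sdiff, mem_filter, mem_univ, true_and]
    by_cases h : z ∈ X
    · exact Or.inl ⟨h, hz.1⟩
    · exact Or.inr ⟨h, hz.2⟩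
  have hdis : Disjoint (X \ Y) (univ.filter (fun x => x ∉ X ∧ N x ∈ X.image N)) := by
    rw [disjoint_left]
    intro z hz hz'
    simp only [mem_sdiff, mem_filter, mem_univ, true_and] at hz hz'
    exact hz'.1 hz.1
  rw [← sum_union hdis]
  exact sum_le_sum_of_subset_of_nonneg h7 (fun _ _ _ => abs_nonneg _)

lemma top_sum {ι : Type*} [DecidableEq ι] (Λ : Finset ι) (w f : ι → ℝ) (t R : ℝ) (q : ℕ)
    (hq : 1 ≤ q) (hw0 : ∀ j ∈ Λ, 0 ≤ w j) (hwt : ∀ j ∈ Λ, w j ≤ t) (hf0 : ∀ j ∈ Λ, 0 ≤ f j)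
    (ht : 0 ≤ t) (hR : 0 ≤ R)
    (hQ : ∀ Q ⊆ Λ, Q.card ≤ q → ∑ j ∈ Q, f j ≤ R) :
    ∑ j ∈ Λ, w j * f j ≤ R * t + R / q * ∑ j ∈ Λ, w j := by
  have hqR : (0 : ℝ) < q := by exact_mod_cast hq
  set Q := Λ.filter (fun j => R / q < f j) with hQd
  have hQc : Q.card ≤ q := by
    by_contra hlt
    push Not at hlt
    obtain ⟨Q', hQ', hc⟩ := exists_subset_card_eq hlt.le
    have h1 := hQ Q' (hQ'.trans (filter_subset _ _)) hc.le
    have hne : Q'.Nonempty := by
      rw [← card_pos, hc]; exact hq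
    have h2 : ∑ j ∈ Q', R / q < ∑ j ∈ Q', f j :=
      sum_lt_sum_of_nonempty hne (fun j hj => (mem_filter.mp (hQ' hj)).2)
    rw [sum_const, hc, nsmul_eq_mul, mul_div_cancel₀ _ hqR.ne'] at h2
    linarith
  rw [← sum_filter_add_sum_filter_not Λ (fun j => R / q < f j)]
  have hA : ∑ j ∈ Λ.filter (fun j => R / q < f j), w j * f j ≤ R * t := by
    calc _ ≤ ∑ j ∈ Λ.filter (fun j => R / q < f j), t * f j := by
          apply sum_le_sum
          intro j hj
          have := (mem_filter.mp hj).1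
          exact mul_le_mul_of_nonneg_right (hwt j this) (hf0 j this)
      _ = t * ∑ j ∈ Q, f j := by rw [mul_sum]
      _ ≤ t * R := mul_le_mul_of_nonneg_left (hQ Q (filter_subset _ _) hQc) ht
      _ = R * t := mul_comm _ _
  have hB : ∑ j ∈ Λ.filter (fun j => ¬ R / q < f j), w j * f j ≤ R / q * ∑ j ∈ Λ, w j := by
    calc _ ≤ ∑ j ∈ Λ.filter (fun j => ¬ R / q < f j), w j * (R / q) := by
          apply sum_le_sum
          intro j hj
          have := mem_filter.mp hj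
          exact mul_le_mul_of_nonneg_left (not_lt.mp this.2) (hw0 j this.1)
      _ = R / q * ∑ j ∈ Λ.filter (fun j => ¬ R / q < f j), w j := by
        rw [← sum_mul, mul_comm]
      _ ≤ _ := by
        apply mul_le_mul_of_nonneg_left _ (by positivity)
        exact sum_le_sum_of_subset_of_nonneg (filter_subset _ _) (fun j hj _ => hw0 j hj)
  linarith

lemma exp_det {n m k Γ K s : ℕ} (hΓ : 1 ≤ Γ) (hK : 2 ≤ K) (hs : s = K * Γ)
    (N : Fin n × Fin s → Fin m)
    (hN : ∀ V : Finset (Fin n), Γ * V.card ≤ 16 * k →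
      s * V.card ≤ ((V ×ˢ (univ : Finset (Fin s))).image N).card + Γ * V.card)
    (g : Fin n → ℝ) (hker : ∀ c : Fin m, ∑ x ∈ univ.filter (fun x => N x = c), g x.1 = 0)
    (S V : Finset (Fin n)) (hVS : V ⊆ S) (hV : Γ * V.card ≤ 8 * k) (t : ℝ) (ht0 : 0 ≤ t)
    (ht : ∀ j ∈ S \ V, |g j| ≤ t) :
    ((K : ℝ) - 2) * Γ * ∑ j ∈ V, |g j| ≤ 16 * k * t + 2 * Γ * ∑ j ∈ S, |g j| +
      K * Γ * ∑ j ∈ Sᶜ, |g j| := by
  classical
  have hΓR : (0 : ℝ) < Γ := by exact_mod_cast hΓ
  have hS0 : 0 ≤ ∑ j ∈ S, |g j| := sum_nonneg fun _ _ => abs_nonneg _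
  have hSc0 : 0 ≤ ∑ j ∈ Sᶜ, |g j| := sum_nonneg fun _ _ => abs_nonneg _
  set q := 8 * k / Γ with hq
  have hVq : V.card ≤ q := by
    rw [hq, Nat.le_div_iff_mul_le hΓ, mul_comm]
    exact hV
  rcases Nat.eq_zero_or_pos q with hq0 | hq1
  · have : V = ∅ := by rw [← card_eq_zero]; omega
    rw [this, sum_empty, mul_zero]
    positivity
  have hqΓ : Γ * q ≤ 8 * k := Nat.mul_div_le _ _
  set b := (K - 1) * Γ with hb
  have hbs : b + Γ = s := by
    rw [hb, hs, ← Nat.succ_mul]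
    congr 1
    omega
  set X : Finset (Fin n × Fin s) := V ×ˢ univ with hX
  -- Hall
  have hall := (Finset.all_card_le_biUnion_card_iff_exists_injective
    (fun p : {j // j ∈ V} × Fin b => (({p.1.val} : Finset (Fin n)) ×ˢ
      (univ : Finset (Fin s))).image N)).mp (by
    intro I
    set U := I.image (fun p => p.1.val) with hU
    have hUV : U ⊆ V := by
      intro j hj
      rw [hU, mem_image] at hj
      obtain ⟨p, _, rfl⟩ := hj
      exact p.1.2
    have h1 : I.card ≤ U.card * b := by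
      have : I.image (fun p => (p.1.val, p.2)) ⊆ U ×ˢ (univ : Finset (Fin b)) := by
        intro x hx
        rw [mem_image] at hx
        obtain ⟨p, hp, rfl⟩ := hx
        rw [mem_product]
        exact ⟨mem_image_of_mem _ hp, mem_univ _⟩
      have h2 := card_le_card this
      rw [card_image_of_injective, card_product, card_univ, Fintype.card_fin] at h2
      · exact h2
      · intro p p' h
        simp only [Prod.mk.injEq] at h
        exact Prod.ext (Subtype.ext h.1) h.2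
    have h2 : (U ×ˢ (univ : Finset (Fin s))).image N ⊆ I.biUnion
        (fun p : {j // j ∈ V} × Fin b => (({p.1.val} : Finset (Fin n)) ×ˢ
          (univ : Finset (Fin s))).image N) := by
      intro c hc
      simp only [mem_image, mem_product, mem_univ, and_true] at hc
      obtain ⟨x, hx, rfl⟩ := hc
      rw [hU, mem_image] at hx
      obtain ⟨p, hp, hpx⟩ := hx
      simp only [mem_biUnion, mem_image, mem_product, mem_univ, and_true, mem_singleton]
      exact ⟨p, hp, x, hpx.symm, rfl⟩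
    have h3 := card_le_card h2
    have hUc := card_le_card hUV
    have h4 := hN U (by
      calc Γ * U.card ≤ Γ * V.card := Nat.mul_le_mul_left _ hUc
        _ ≤ 8 * k := hV
        _ ≤ 16 * k := by omega)
    have h5 : s * U.card = U.card * b + Γ * U.card := by
      rw [← hbs]; ring
    rw [h5] at h4
    omega)
  obtain ⟨f, hfinj, hf⟩ := hall
  have hex : ∀ p : {j // j ∈ V} × Fin b, ∃ e : Fin s, N (p.1.val, e) = f p := by
    intro p
    have := hf p
    simp only [mem_image, mem_product, mem_univ, and_true, mem_singleton] at this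
    obtain ⟨x, hx, hxf⟩ := this
    exact ⟨x.2, by rw [← hxf, ← hx]⟩
  choose e he using hex
  set Φ : {j // j ∈ V} × Fin b → Fin n × Fin s := fun p => (p.1.val, e p) with hΦ
  have hNΦ : ∀ p, N (Φ p) = f p := he
  have hΦinj : Function.Injective Φ := by
    intro p p' h
    apply hfinj
    rw [← hNΦ, ← hNΦ, h]
  set Y : Finset (Fin n × Fin s) := univ.image Φ with hY
  have hYX : Y ⊆ X := by
    intro y hy
    rw [hY, mem_image] at hy
    obtain ⟨p, _, rfl⟩ := hy
    rw [hX, mem_product]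
    exact ⟨p.1.2, mem_univ _⟩
  have hYinj : Set.InjOn N Y := by
    intro y hy y' hy' h
    rw [hY, mem_coe, mem_image] at hy hy'
    obtain ⟨p, _, rfl⟩ := hy
    obtain ⟨p', _, rfl⟩ := hy'
    rw [hNΦ, hNΦ] at h
    rw [hfinj h]
  have hk := ker_ineq N (fun x => g x.1) hker X Y hYX hYinj
  have hsY : ∑ y ∈ Y, |g y.1| = b * ∑ j ∈ V, |g j| := by
    rw [hY, sum_image (fun p _ p' _ h => hΦinj h)]
    rw [← univ_product_univ, sum_product]
    simp only [hΦ, sum_const, card_univ, Fintype.card_fin, nsmul_eq_mul]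
    rw [← mul_sum]
    congr 1
    exact sum_coe_sort V (fun j => |g j|)
  have hsX : ∑ x ∈ X, |g x.1| = s * ∑ j ∈ V, |g j| := by
    rw [hX, sum_product]
    simp only [sum_const, card_univ, Fintype.card_fin, nsmul_eq_mul]
    rw [← mul_sum]
  have hsXY : ∑ x ∈ X \ Y, |g x.1| = Γ * ∑ j ∈ V, |g j| := by
    have h1 := sum_sdiff (f := fun x : Fin n × Fin s => |g x.1|) hYX
    have hbsR : (b : ℝ) + Γ = s := by exact_mod_cast hbs
    rw [hsY, hsX, ← hbsR] at h1
    linarith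
  -- the remaining edges
  set ed : Fin n → ℝ := fun j => ((univ.filter (fun e : Fin s => N (j, e) ∈ X.image N)).card : ℝ)
    with hed
  have hT : ∑ x ∈ univ.filter (fun x => x ∉ X ∧ N x ∈ X.image N), |g x.1| =
      ∑ j ∈ Vᶜ, |g j| * ed j := by
    rw [sum_filter, ← univ_product_univ, sum_product]
    rw [← sum_add_sum_compl V]
    have hz : ∑ j ∈ V, ∑ e : Fin s, (if (j, e) ∉ X ∧ N (j, e) ∈ X.image N then |g (j, e).1| else 0) = 0 := by
      apply sum_eq_zero
      intro j hj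
      apply sum_eq_zero
      intro e _
      rw [if_neg]
      intro h
      apply h.1
      rw [hX, mem_product]
      exact ⟨hj, mem_univ _⟩
    rw [hz, zero_add]
    apply sum_congr rfl
    intro j hj
    rw [hed]
    simp only
    rw [card_filter]
    push_cast
    rw [mul_sum]
    apply sum_congr rfl
    intro e _
    have : (j, e) ∉ X := by
      rw [hX, mem_product]
      intro h
      exact (mem_compl.mp hj) h.1
    by_cases h : N (j, e) ∈ X.image N
    · rw [if_pos ⟨this, h⟩, if_pos h, mul_one]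
    · rw [if_neg (fun h' => h h'.2), if_neg h, mul_zero]
  have heds : ∀ j, ed j ≤ s := by
    intro j
    have := card_filter_le (univ : Finset (Fin s)) (fun e => N (j, e) ∈ X.image N)
    rw [card_univ, Fintype.card_fin] at this
    rw [hed]
    simp only
    exact_mod_cast this
  have hed0 : ∀ j, 0 ≤ ed j := fun j => Nat.cast_nonneg _
  have hVc : Vᶜ = (S \ V) ∪ Sᶜ := by
    ext j
    simp only [mem_compl, mem_union, mem_sdiff]
    constructor
    · intro h
      by_cases hj : j ∈ S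
      · exact Or.inl ⟨hj, h⟩
      · exact Or.inr hj
    · rintro (h | h)
      · exact h.2
      · exact fun h' => h (hVS h')
  have hdis : Disjoint (S \ V) Sᶜ := by
    rw [disjoint_left]
    intro j hj hj'
    exact (mem_compl.mp hj') (mem_sdiff.mp hj).1
  rw [hVc, sum_union hdis] at hT
  have hT2 : ∑ j ∈ Sᶜ, |g j| * ed j ≤ s * ∑ j ∈ Sᶜ, |g j| := by
    rw [mul_sum]
    apply sum_le_sum
    intro j _
    rw [mul_comm]
    exact mul_le_mul_of_nonneg_right (heds j) (abs_nonneg _)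
  have hT1 := top_sum (S \ V) (fun j => |g j|) ed t (2 * q * Γ) q hq1
    (fun j _ => abs_nonneg _) ht (fun j _ => hed0 j) ht0 (by positivity) (by
      intro Q hQ hQq
      have hdisQ : Disjoint V Q := by
        rw [disjoint_left]
        intro j hj hj'
        exact (mem_sdiff.mp (hQ hj')).2 hj
      have hc : (V ∪ Q).card = V.card + Q.card := card_union_of_disjoint hdisQ
      have hle : Γ * (V ∪ Q).card ≤ 16 * k := by
        calc Γ * (V ∪ Q).card ≤ Γ * (q + q) := Nat.mul_le_mul_left _ (by omega)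
          _ = 2 * (Γ * q) := by ring
          _ ≤ 16 * k := by omega
      have h1 := hN (V ∪ Q) hle
      -- image of (V ∪ Q) x univ
      have h2 : (((V ∪ Q) ×ˢ (univ : Finset (Fin s))).image N) ⊆
          X.image N ∪ ((Q ×ˢ (univ : Finset (Fin s))).filter (fun x => N x ∉ X.image N)).image N := by
        intro c hc
        rw [mem_image] at hc
        obtain ⟨x, hx, rfl⟩ := hc
        rw [mem_product, mem_union] at hx
        rw [mem_union]
        by_cases h : N x ∈ X.image N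
        · exact Or.inl h
        · right
          apply mem_image_of_mem
          rw [mem_filter, mem_product]
          refine ⟨⟨?_, mem_univ _⟩, h⟩
          rcases hx.1 with h' | h'
          · exact absurd (mem_image_of_mem N (by rw [hX, mem_product]; exact ⟨h', mem_univ _⟩)) h
          · exact h'
      have h3 := (card_le_card h2).trans (card_union_le _ _)
      have h4 : (X.image N).card ≤ V.card * s := by
        refine card_image_le.trans ?_
        rw [hX, card_product, card_univ, Fintype.card_fin]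
      have h5 := (card_image_le (s := (Q ×ˢ (univ : Finset (Fin s))).filter
        (fun x => N x ∉ X.image N)) (f := N))
      have h6 := card_filter_add_card_filter_not (s := Q ×ˢ (univ : Finset (Fin s)))
        (fun x => N x ∈ X.image N)
      rw [card_product, card_univ, Fintype.card_fin] at h6
      have h7 : ∑ j ∈ Q, ed j = (((Q ×ˢ (univ : Finset (Fin s))).filter
          (fun x => N x ∈ X.image N)).card : ℝ) := by
        rw [card_filter, sum_product]
        push_cast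
        apply sum_congr rfl
        intro j _
        rw [hed]
        simp only
        rw [card_filter]
        push_cast
        rfl
      have h8 : ((Q ×ˢ (univ : Finset (Fin s))).filter
          (fun x => N x ∈ X.image N)).card ≤ 2 * q * Γ := by
        rw [hc] at h1
        have e1 : s * (V.card + Q.card) = V.card * s + Q.card * s := by ring
        have e2 : Γ * (V.card + Q.card) ≤ 2 * q * Γ := by
          calc Γ * (V.card + Q.card) ≤ Γ * (q + q) := Nat.mul_le_mul_left _ (by omega)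
            _ = _ := by ring
        rw [e1] at h1
        omega
      rw [h7]
      exact_mod_cast h8)
  have hqR : (0 : ℝ) < q := by exact_mod_cast hq1
  have hSV : ∑ j ∈ S \ V, |g j| ≤ ∑ j ∈ S, |g j| :=
    sum_le_sum_of_subset_of_nonneg sdiff_subset (fun _ _ _ => abs_nonneg _)
  have hq2 : (2 * (q : ℝ) * Γ) / q = 2 * Γ := by field_simp
  rw [hq2] at hT1
  have hqΓR : (Γ : ℝ) * q ≤ 8 * k := by exact_mod_cast hqΓ
  have hbR : (b : ℝ) = (K - 1) * Γ := by
    rw [hb]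
    push_cast [Nat.cast_sub (show 1 ≤ K by omega)]
    ring
  have hsR : (s : ℝ) = K * Γ := by rw [hs]; push_cast; ring
  simp only at hk
  rw [hsY, hsXY, hT, hbR] at hk
  rw [hsR] at hT2
  have h9 : 2 * (q : ℝ) * Γ * t ≤ 16 * k * t := by
    have : 2 * (q : ℝ) * Γ ≤ 16 * k := by linarith
    exact mul_le_mul_of_nonneg_right this ht0
  have h10 : 2 * (Γ : ℝ) * ∑ j ∈ S \ V, |g j| ≤ 2 * Γ * ∑ j ∈ S, |g j| := by gcongr
  linarith

/-- sign of a bit -/
noncomputable def sg (b : Bool) : ℝ := if b then 1 else -1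

lemma sg_sq (b : Bool) : sg b * sg b = 1 := by
  cases b <;> simp [sg]

lemma sg_not (b : Bool) : sg (!b) = -sg b := by
  cases b <;> simp [sg]

lemma abs_sg (b : Bool) : |sg b| = 1 := by
  cases b <;> simp [sg]

section rad

variable {E : Type*} [Fintype E] [DecidableEq E]

lemma sum_flip (x : E) (f : (E → Bool) → ℝ)
    (hf : ∀ ω, f (Function.update ω x (!ω x)) = f ω) :
    ∑ ω : E → Bool, f ω * sg (ω x) = 0 := by
  have hinv : Function.Involutive (fun ω : E → Bool => Function.update ω x (!ω x)) := by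
    intro ω
    funext z
    by_cases hz : z = x
    · subst hz; simp
    · simp [Function.update_of_ne hz]
  have h1 : ∑ ω : E → Bool, f ω * sg (ω x) =
      ∑ ω : E → Bool, -(f ω * sg (ω x)) := by
    refine Fintype.sum_equiv (Function.Involutive.toPerm _ hinv) _ _ ?_
    intro ω
    have e1 : Function.Involutive.toPerm _ hinv ω = Function.update ω x (!ω x) := rfl
    rw [e1, hf, Function.update_self, sg_not]
    ring
  rw [sum_neg_distrib] at h1
  linarith

omit [Fintype E] in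
lemma rad_inv (a : E → ℝ) (X : Finset E) (x : E) (hx : x ∉ X) (ω : E → Bool) :
    ∑ z ∈ X, a z * sg (Function.update ω x (!ω x) z) = ∑ z ∈ X, a z * sg (ω z) := by
  apply sum_congr rfl
  intro z hz
  have hzx : z ≠ x := by
    rintro rfl
    exact hx hz
  rw [Function.update_of_ne hzx]

lemma card_fb : ((univ : Finset (E → Bool)).card : ℝ) = 2 ^ Fintype.card E := by
  rw [card_univ, Fintype.card_fun, Fintype.card_bool]
  push_cast
  rfl

lemma rad_sq (a : E → ℝ) (X : Finset E) :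
    ∑ ω : E → Bool, (∑ z ∈ X, a z * sg (ω z)) ^ 2 = 2 ^ Fintype.card E * ∑ z ∈ X, a z ^ 2 := by
  induction X using Finset.induction_on with
  | empty => simp
  | insert x X hx ih =>
    have h0 : ∑ ω : E → Bool, (∑ z ∈ X, a z * sg (ω z)) * sg (ω x) = 0 :=
      sum_flip x _ (fun ω => rad_inv a X x hx ω)
    have h1 : ∀ ω : E → Bool, (∑ z ∈ insert x X, a z * sg (ω z)) ^ 2 =
        (∑ z ∈ X, a z * sg (ω z)) ^ 2 + 2 * a x * ((∑ z ∈ X, a z * sg (ω z)) * sg (ω x)) +
          a x ^ 2 := by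
      intro ω
      rw [sum_insert hx]
      have := sg_sq (ω x)
      linear_combination (a x) ^ 2 * this
    rw [sum_congr rfl (fun ω _ => h1 ω), sum_add_distrib, sum_add_distrib, ← mul_sum, h0, ih,
      sum_insert hx, sum_const, nsmul_eq_mul, card_fb]
    ring

lemma rad_four (a : E → ℝ) (X : Finset E) :
    ∑ ω : E → Bool, (∑ z ∈ X, a z * sg (ω z)) ^ 4 ≤
      2 ^ Fintype.card E * (3 * (∑ z ∈ X, a z ^ 2) ^ 2) := by
  induction X using Finset.induction_on with
  | empty => simp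
  | insert x X hx ih =>
    have h0 : ∑ ω : E → Bool, (∑ z ∈ X, a z * sg (ω z)) * sg (ω x) = 0 :=
      sum_flip x _ (fun ω => rad_inv a X x hx ω)
    have h3 : ∑ ω : E → Bool, (∑ z ∈ X, a z * sg (ω z)) ^ 3 * sg (ω x) = 0 :=
      sum_flip x _ (fun ω => by rw [rad_inv a X x hx ω])
    have h1 : ∀ ω : E → Bool, (∑ z ∈ insert x X, a z * sg (ω z)) ^ 4 =
        (∑ z ∈ X, a z * sg (ω z)) ^ 4 + 4 * a x * ((∑ z ∈ X, a z * sg (ω z)) ^ 3 * sg (ω x)) +
          6 * a x ^ 2 * (∑ z ∈ X, a z * sg (ω z)) ^ 2 +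
          4 * a x ^ 3 * ((∑ z ∈ X, a z * sg (ω z)) * sg (ω x)) + a x ^ 4 := by
      intro ω
      rw [sum_insert hx]
      have h := sg_sq (ω x)
      generalize (∑ z ∈ X, a z * sg (ω z)) = Y
      generalize sg (ω x) = s at *
      linear_combination (6 * Y ^ 2 * a x ^ 2 + 4 * Y * a x ^ 3 * s + a x ^ 4 * (s * s + 1)) * h
    rw [sum_congr rfl (fun ω _ => h1 ω)]
    simp only [sum_add_distrib, ← mul_sum]
    rw [h0, h3, rad_sq, sum_insert hx, sum_const, nsmul_eq_mul, card_fb]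
    have hA : (0 : ℝ) < 2 ^ Fintype.card E := by positivity
    set A : ℝ := 2 ^ Fintype.card E
    set σ : ℝ := ∑ z ∈ X, a z ^ 2
    have : A * (3 * (a x ^ 2 + σ) ^ 2) - (A * (3 * σ ^ 2) + 6 * a x ^ 2 * (A * σ) + A * a x ^ 4) =
        A * (2 * a x ^ 4) := by ring
    have h4 : 0 ≤ A * (2 * a x ^ 4) := by positivity
    linarith

lemma exp_poly (T : ℝ) (hT : 0 ≤ T) : Real.exp (-(2 * T)) ≤ 1 - T ^ 2 + T ^ 4 / 2 := by
  have h1 := Real.quadratic_le_exp_of_nonneg (show 0 ≤ 2 * T by linarith)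
  have h2 : 1 ≤ (1 - T ^ 2 + T ^ 4 / 2) * (1 + 2 * T + (2 * T) ^ 2 / 2) := by
    have e : (1 - T ^ 2 + T ^ 4 / 2) * (1 + 2 * T + (2 * T) ^ 2 / 2) - 1 =
        T * (T * (T ^ 2 - 3 / 4) ^ 2 + (T ^ 2 - 1) ^ 2 + 1 + 7 / 16 * T) := by ring
    have : 0 ≤ T * (T * (T ^ 2 - 3 / 4) ^ 2 + (T ^ 2 - 1) ^ 2 + 1 + 7 / 16 * T) := by positivity
    linarith
  have h3 : 0 < 1 + 2 * T + (2 * T) ^ 2 / 2 := by positivity
  rw [Real.exp_neg]
  have h4 : (Real.exp (2 * T))⁻¹ ≤ (1 + 2 * T + (2 * T) ^ 2 / 2)⁻¹ := inv_anti₀ h3 h1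
  refine h4.trans ?_
  rw [inv_le_iff_one_le_mul₀ h3]
  exact h2

lemma rad_neg_exp (a : E → ℝ) (lam : ℝ) (hlam : 0 ≤ lam) (h : 4 / 3 ≤ lam ^ 2 * ∑ z, a z ^ 2) :
    ∑ ω : E → Bool, Real.exp (-(lam * |∑ z, a z * sg (ω z)|)) ≤ 5 / 6 * 2 ^ Fintype.card E := by
  set σ : ℝ := ∑ z, a z ^ 2 with hσ
  have hσ0 : 0 < σ := by
    by_contra hle
    push Not at hle
    have h0 : 0 ≤ σ := sum_nonneg fun _ _ => sq_nonneg _
    have : σ = 0 := le_antisymm hle h0
    rw [this, mul_zero] at h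
    norm_num at h
  set l : ℝ := Real.sqrt (4 / 3 / σ) with hl
  have hl0 : 0 ≤ l := Real.sqrt_nonneg _
  have hl2 : l ^ 2 = 4 / 3 / σ := Real.sq_sqrt (by positivity)
  have hll : l ≤ lam := by
    rw [hl]
    apply Real.sqrt_le_iff.mpr
    refine ⟨hlam, ?_⟩
    rw [div_le_iff₀ hσ0]
    exact h
  have hpt : ∀ ω : E → Bool, Real.exp (-(lam * |∑ z, a z * sg (ω z)|)) ≤
      1 - l ^ 2 / 4 * (∑ z, a z * sg (ω z)) ^ 2 + l ^ 4 / 32 * (∑ z, a z * sg (ω z)) ^ 4 := by
    intro ω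
    set y := ∑ z, a z * sg (ω z)
    have h1 : Real.exp (-(lam * |y|)) ≤ Real.exp (-(2 * (l * |y| / 2))) := by
      apply Real.exp_le_exp.mpr
      have := mul_le_mul_of_nonneg_right hll (abs_nonneg y)
      linarith
    have h2 := exp_poly (l * |y| / 2) (by positivity)
    refine h1.trans (h2.trans (le_of_eq ?_))
    have e1 : |y| ^ 2 = y ^ 2 := sq_abs y
    have e2 : |y| ^ 4 = y ^ 4 := by
      rw [show (4 : ℕ) = 2 * 2 by norm_num, pow_mul, pow_mul, e1]
    rw [div_pow, div_pow, mul_pow, mul_pow, e1, e2]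
    ring
  refine (sum_le_sum fun ω _ => hpt ω).trans ?_
  rw [sum_add_distrib, sum_sub_distrib, ← mul_sum, ← mul_sum, rad_sq, sum_const, nsmul_eq_mul,
    card_fb, mul_one]
  have h4 := rad_four a (univ : Finset E)
  rw [← hσ] at h4 ⊢
  have hA : (0 : ℝ) < 2 ^ Fintype.card E := by positivity
  set A : ℝ := 2 ^ Fintype.card E
  have e4 : l ^ 4 = (4 / 3 / σ) ^ 2 := by rw [← hl2]; ring
  rw [hl2, e4]
  calc A - 4 / 3 / σ / 4 * (A * σ) + (4 / 3 / σ) ^ 2 / 32 *
        ∑ ω : E → Bool, (∑ z, a z * sg (ω z)) ^ 4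
      ≤ A - 4 / 3 / σ / 4 * (A * σ) + (4 / 3 / σ) ^ 2 / 32 * (A * (3 * σ ^ 2)) := by gcongr
    _ = 5 / 6 * A := by
      field_simp
      ring

lemma rad_exp (a : E → ℝ) (lam : ℝ) :
    ∑ ω : E → Bool, Real.exp (lam * ∑ z, a z * sg (ω z)) ≤
      2 ^ Fintype.card E * Real.exp (lam ^ 2 * (∑ z, a z ^ 2) / 2) := by
  have h1 : ∑ ω : E → Bool, Real.exp (lam * ∑ z, a z * sg (ω z)) =
      ∏ z : E, ∑ b : Bool, Real.exp (lam * (a z * sg b)) := by
    rw [Finset.prod_univ_sum, Fintype.piFinset_univ]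
    apply sum_congr rfl
    intro ω _
    rw [mul_sum, Real.exp_sum]
  rw [h1]
  have h2 : ∀ z : E, ∑ b : Bool, Real.exp (lam * (a z * sg b)) ≤
      2 * Real.exp (lam ^ 2 * (a z) ^ 2 / 2) := by
    intro z
    have e1 : ∑ b : Bool, Real.exp (lam * (a z * sg b)) = 2 * Real.cosh (lam * a z) := by
      rw [Real.cosh_eq, Fintype.sum_bool]
      simp only [sg, if_true]
      simp
      ring
    rw [e1]
    have := Real.cosh_le_exp_half_sq (lam * a z)
    rw [mul_pow] at this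
    linarith
  calc ∏ z : E, ∑ b : Bool, Real.exp (lam * (a z * sg b))
      ≤ ∏ z : E, (2 * Real.exp (lam ^ 2 * (a z) ^ 2 / 2)) :=
        prod_le_prod (fun z _ => sum_nonneg fun _ _ => (Real.exp_pos _).le) (fun z _ => h2 z)
    _ = _ := by
      rw [prod_mul_distrib, prod_const, card_univ, ← Real.exp_sum]
      congr 2
      rw [mul_sum, sum_div]

lemma rad_abs_exp (a : E → ℝ) (lam : ℝ) :
    ∑ ω : E → Bool, Real.exp (lam * |∑ z, a z * sg (ω z)|) ≤
      2 * (2 ^ Fintype.card E * Real.exp (lam ^ 2 * (∑ z, a z ^ 2) / 2)) := by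
  have h1 : ∀ ω : E → Bool, Real.exp (lam * |∑ z, a z * sg (ω z)|) ≤
      Real.exp (lam * ∑ z, a z * sg (ω z)) + Real.exp ((-lam) * ∑ z, a z * sg (ω z)) := by
    intro ω
    rcases abs_cases (∑ z, a z * sg (ω z)) with h | h
    · rw [h.1]
      have := Real.exp_pos ((-lam) * ∑ z, a z * sg (ω z))
      linarith
    · rw [h.1]
      have := Real.exp_pos (lam * ∑ z, a z * sg (ω z))
      rw [show lam * -(∑ z, a z * sg (ω z)) = (-lam) * ∑ z, a z * sg (ω z) by ring]
      linarith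
  refine (sum_le_sum fun ω _ => h1 ω).trans ?_
  rw [sum_add_distrib]
  have h2 := rad_exp a lam
  have h3 := rad_exp a (-lam)
  rw [neg_sq] at h3
  linarith

end rad

section rows

variable {ρ E : Type*} [Fintype ρ] [DecidableEq ρ] [Fintype E] [DecidableEq E]

lemma sum_prod_rows (f : ρ → (E → Bool) → ℝ) :
    ∑ ω : ρ → E → Bool, ∏ c, f c (ω c) = ∏ c, ∑ ν : E → Bool, f c ν := by
  rw [Finset.prod_univ_sum, Fintype.piFinset_univ]

lemma low_count (a : ρ → E → ℝ) (T G : Finset ρ) (hG : G ⊆ T) (lam u : ℝ) (hlam : 0 ≤ lam)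
    (h : ∀ c ∈ G, 4 / 3 ≤ lam ^ 2 * ∑ x, a c x ^ 2) :
    ((univ.filter (fun ω : ρ → E → Bool => ∑ c ∈ T, |∑ x, a c x * sg (ω c x)| < u)).card : ℝ) ≤
      Real.exp (lam * u) * (5 / 6) ^ G.card * (2 ^ Fintype.card E) ^ Fintype.card ρ := by
  classical
  set A : ℝ := 2 ^ Fintype.card E with hA
  set Y : (ρ → E → Bool) → ρ → ℝ := fun ω c => |∑ x, a c x * sg (ω c x)| with hY
  have h1 : ((univ.filter (fun ω : ρ → E → Bool => ∑ c ∈ T, Y ω c < u)).card : ℝ) ≤
      ∑ ω : ρ → E → Bool, Real.exp (lam * u) * ∏ c, (if c ∈ G then Real.exp (-(lam * Y ω c)) else 1) := by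
    rw [card_filter]
    push_cast
    apply sum_le_sum
    intro ω _
    have hpos : 0 ≤ Real.exp (lam * u) * ∏ c, (if c ∈ G then Real.exp (-(lam * Y ω c)) else 1) := by
      apply mul_nonneg (Real.exp_pos _).le
      apply prod_nonneg
      intro c _
      split_ifs
      · exact (Real.exp_pos _).le
      · exact zero_le_one
    split_ifs with hlt
    swap
    · exact hpos
    have e1 : ∏ c, (if c ∈ G then Real.exp (-(lam * Y ω c)) else 1) =
        Real.exp (-(lam * ∑ c ∈ G, Y ω c)) := by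
      rw [prod_ite_mem, univ_inter, ← Real.exp_sum, sum_neg_distrib, mul_sum]
    rw [e1, ← Real.exp_add]
    apply Real.one_le_exp
    have h2 : ∑ c ∈ G, Y ω c ≤ ∑ c ∈ T, Y ω c :=
      sum_le_sum_of_subset_of_nonneg hG (fun _ _ _ => abs_nonneg _)
    have h3 : lam * ∑ c ∈ G, Y ω c ≤ lam * u :=
      mul_le_mul_of_nonneg_left (by linarith) hlam
    linarith
  refine h1.trans ?_
  rw [← mul_sum]
  have h4 : ∑ ω : ρ → E → Bool, ∏ c, (if c ∈ G then Real.exp (-(lam * Y ω c)) else 1) =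
      ∏ c, ∑ ν : E → Bool, (if c ∈ G then Real.exp (-(lam * |∑ x, a c x * sg (ν x)|)) else 1) :=
    sum_prod_rows (fun c ν => if c ∈ G then Real.exp (-(lam * |∑ x, a c x * sg (ν x)|)) else 1)
  rw [h4]
  have h5 : ∏ c, ∑ ν : E → Bool, (if c ∈ G then Real.exp (-(lam * |∑ x, a c x * sg (ν x)|)) else 1) ≤
      ∏ c : ρ, ((if c ∈ G then (5 / 6 : ℝ) else 1) * A) := by
    apply prod_le_prod
    · intro c _
      apply sum_nonneg
      intro ν _
      split_ifs
      · exact (Real.exp_pos _).le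
      · exact zero_le_one
    · intro c _
      by_cases hc : c ∈ G
      · simp only [if_pos hc]
        exact rad_neg_exp (a c) lam hlam (h c hc)
      · simp only [if_neg hc, one_mul]
        rw [sum_const, nsmul_eq_mul, mul_one, card_fb]
  have h6 : ∏ c : ρ, ((if c ∈ G then (5 / 6 : ℝ) else 1) * A) = (5 / 6) ^ G.card *
      A ^ Fintype.card ρ := by
    rw [prod_mul_distrib, prod_ite_mem, univ_inter, prod_const, prod_const, card_univ]
  rw [h6] at h5
  calc _ ≤ Real.exp (lam * u) * ((5 / 6) ^ G.card * A ^ Fintype.card ρ) :=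
        mul_le_mul_of_nonneg_left h5 (Real.exp_pos _).le
    _ = _ := by ring

lemma up_count (a : ρ → E → ℝ) (lam u : ℝ) (hlam : 0 ≤ lam) :
    ((univ.filter (fun ω : ρ → E → Bool => u < ∑ c, |∑ x, a c x * sg (ω c x)|)).card : ℝ) ≤
      2 ^ Fintype.card ρ * Real.exp (lam ^ 2 * (∑ c, ∑ x, a c x ^ 2) / 2 - lam * u) *
        (2 ^ Fintype.card E) ^ Fintype.card ρ := by
  classical
  set A : ℝ := 2 ^ Fintype.card E with hA
  set Y : (ρ → E → Bool) → ρ → ℝ := fun ω c => |∑ x, a c x * sg (ω c x)| with hY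
  have h1 : ((univ.filter (fun ω : ρ → E → Bool => u < ∑ c, Y ω c)).card : ℝ) ≤
      ∑ ω : ρ → E → Bool, Real.exp (-(lam * u)) * ∏ c, Real.exp (lam * Y ω c) := by
    rw [card_filter]
    push_cast
    apply sum_le_sum
    intro ω _
    have hpos : 0 ≤ Real.exp (-(lam * u)) * ∏ c, Real.exp (lam * Y ω c) :=
      mul_nonneg (Real.exp_pos _).le (prod_nonneg fun _ _ => (Real.exp_pos _).le)
    split_ifs with hlt
    swap
    · exact hpos
    rw [← Real.exp_sum, ← mul_sum, ← Real.exp_add]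
    apply Real.one_le_exp
    have h3 : lam * u ≤ lam * ∑ c, Y ω c := mul_le_mul_of_nonneg_left hlt.le hlam
    linarith
  refine h1.trans ?_
  rw [← mul_sum]
  have h4 : ∑ ω : ρ → E → Bool, ∏ c, Real.exp (lam * Y ω c) =
      ∏ c, ∑ ν : E → Bool, Real.exp (lam * |∑ x, a c x * sg (ν x)|) :=
    sum_prod_rows (fun c ν => Real.exp (lam * |∑ x, a c x * sg (ν x)|))
  rw [h4]
  have h5 : ∏ c, ∑ ν : E → Bool, Real.exp (lam * |∑ x, a c x * sg (ν x)|) ≤
      ∏ c : ρ, (2 * (A * Real.exp (lam ^ 2 * (∑ x, a c x ^ 2) / 2))) :=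
    prod_le_prod (fun c _ => sum_nonneg fun _ _ => (Real.exp_pos _).le)
      (fun c _ => rad_abs_exp (a c) lam)
  have h6 : ∏ c : ρ, (2 * (A * Real.exp (lam ^ 2 * (∑ x, a c x ^ 2) / 2))) =
      2 ^ Fintype.card ρ * (A ^ Fintype.card ρ *
        Real.exp (lam ^ 2 * (∑ c, ∑ x, a c x ^ 2) / 2)) := by
    rw [prod_mul_distrib, prod_mul_distrib, prod_const, prod_const, card_univ, ← Real.exp_sum]
    congr 3
    rw [mul_sum, sum_div]
  rw [h6] at h5
  calc _ ≤ Real.exp (-(lam * u)) * (2 ^ Fintype.card ρ * (A ^ Fintype.card ρ *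
        Real.exp (lam ^ 2 * (∑ c, ∑ x, a c x ^ 2) / 2))) :=
        mul_le_mul_of_nonneg_left h5 (Real.exp_pos _).le
    _ = _ := by
      rw [sub_eq_add_neg, Real.exp_add]
      ring

end rows

lemma size_sum (b : ℕ) : ∑ m ∈ range (2 ^ b), (1 / 4 : ℝ) ^ Nat.size m ≤
    3 / 2 - 1 / 2 * (1 / 2) ^ b := by
  induction b with
  | zero => simp; norm_num
  | succ b ih =>
    have e : 2 ^ (b + 1) = 2 ^ b + 2 ^ b := by ring
    rw [e, sum_range_add]
    have h : ∀ x ∈ range (2 ^ b), (1 / 4 : ℝ) ^ Nat.size (2 ^ b + x) = (1 / 4) ^ (b + 1) := by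
      intro x hx
      rw [mem_range] at hx
      congr 1
      apply le_antisymm
      · apply Nat.size_le.mpr
        rw [pow_succ]; omega
      · have : b < Nat.size (2 ^ b + x) := Nat.lt_size.mpr (by omega)
        omega
    rw [sum_congr rfl h, sum_const, card_range, nsmul_eq_mul]
    push_cast
    have e2 : (2 : ℝ) ^ b * (1 / 4) ^ (b + 1) = 1 / 4 * (1 / 2) ^ b := by
      rw [pow_succ, ← mul_assoc, ← mul_pow]
      norm_num
      ring
    rw [e2, pow_succ (1 / 2 : ℝ) b]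
    linarith

/-- integers of absolute value below `2 ^ b` -/
noncomputable def zr (b : ℕ) : Finset ℤ :=
  (range (2 ^ b)).image (fun m : ℕ => (m : ℤ)) ∪ (range (2 ^ b)).image (fun m : ℕ => -(m : ℤ))

lemma mem_zr {b : ℕ} {z : ℤ} (h : Nat.size z.natAbs ≤ b) : z ∈ zr b := by
  have h1 := Nat.size_le.mp h
  rw [zr, mem_union, mem_image, mem_image]
  rcases Int.natAbs_eq z with h2 | h2
  · left
    exact ⟨z.natAbs, mem_range.mpr h1, h2.symm⟩
  · right
    exact ⟨z.natAbs, mem_range.mpr h1, h2.symm⟩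

lemma zr_sum (b : ℕ) : ∑ z ∈ zr b, (1 / 4 : ℝ) ^ Nat.size z.natAbs ≤ 3 := by
  have h1 : ∑ z ∈ zr b, (1 / 4 : ℝ) ^ Nat.size z.natAbs ≤
      ∑ z ∈ (range (2 ^ b)).image (fun m : ℕ => (m : ℤ)), (1 / 4 : ℝ) ^ Nat.size z.natAbs +
      ∑ z ∈ (range (2 ^ b)).image (fun m : ℕ => -(m : ℤ)), (1 / 4 : ℝ) ^ Nat.size z.natAbs := by
    rw [← sum_union_inter, zr]
    have : 0 ≤ ∑ z ∈ (range (2 ^ b)).image (fun m : ℕ => (m : ℤ)) ∩
      (range (2 ^ b)).image (fun m : ℕ => -(m : ℤ)), (1 / 4 : ℝ) ^ Nat.size z.natAbs :=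
      sum_nonneg fun _ _ => by positivity
    linarith
  refine h1.trans ?_
  rw [sum_image (fun a _ b _ h => by exact_mod_cast h),
    sum_image (fun a _ b _ h => by
      have : (a : ℤ) = b := neg_injective h
      exact_mod_cast this)]
  simp only [Int.natAbs_natCast, Int.natAbs_neg]
  have := size_sum b
  have h2 : (0 : ℝ) < (1 / 2) ^ b := by positivity
  linarith

/-- integer vectors supported on `S` of total binary length at most `B` -/
noncomputable def zs {n : ℕ} (B : ℕ) (S : Finset (Fin n)) : Finset (Fin n → ℤ) := by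
  classical
  exact (Fintype.piFinset (fun j => if j ∈ S then zr B else {0})).filter
    (fun z => ∑ j, Nat.size (z j).natAbs ≤ B)

lemma mem_zs {n : ℕ} {B : ℕ} {S : Finset (Fin n)} {z : Fin n → ℤ} (h0 : ∀ j, j ∉ S → z j = 0)
    (h : ∑ j, Nat.size (z j).natAbs ≤ B) : z ∈ zs B S := by
  classical
  rw [zs, mem_filter, Fintype.mem_piFinset]
  refine ⟨fun j => ?_, h⟩
  split_ifs with hj
  · apply mem_zr
    exact (single_le_sum (f := fun j => Nat.size (z j).natAbs) (fun _ _ => Nat.zero_le _)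
      (mem_univ j)).trans h
  · rw [mem_singleton]
    exact h0 j hj

lemma zs_supp {n : ℕ} {B : ℕ} {S : Finset (Fin n)} {z : Fin n → ℤ} (hz : z ∈ zs B S) :
    ∀ j, j ∉ S → z j = 0 := by
  classical
  rw [zs, mem_filter, Fintype.mem_piFinset] at hz
  intro j hj
  have := hz.1 j
  rw [if_neg hj, mem_singleton] at this
  exact this

lemma card_zs {n : ℕ} (B : ℕ) (S : Finset (Fin n)) : (zs B S).card ≤ 4 ^ B * 4 ^ S.card := by
  classical
  have h1 : ∑ z ∈ zs B S, (1 / 4 : ℝ) ^ (∑ j, Nat.size (z j).natAbs) ≤ 3 ^ S.card := by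
    calc ∑ z ∈ zs B S, (1 / 4 : ℝ) ^ (∑ j, Nat.size (z j).natAbs)
        ≤ ∑ z ∈ Fintype.piFinset (fun j => if j ∈ S then zr B else {0}),
            (1 / 4 : ℝ) ^ (∑ j, Nat.size (z j).natAbs) := by
          apply sum_le_sum_of_subset_of_nonneg
          · rw [zs]; exact filter_subset _ _
          · intro _ _ _; positivity
      _ = ∑ z ∈ Fintype.piFinset (fun j => if j ∈ S then zr B else {0}),
            ∏ j, (1 / 4 : ℝ) ^ (Nat.size (z j).natAbs) := by
          apply sum_congr rfl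
          intro z _
          rw [prod_pow_eq_pow_sum]
      _ = ∏ j : Fin n, ∑ w ∈ (if j ∈ S then zr B else {0}), (1 / 4 : ℝ) ^ (Nat.size w.natAbs) := by
          rw [Finset.prod_univ_sum]
      _ ≤ ∏ j : Fin n, (if j ∈ S then (3 : ℝ) else 1) := by
          apply prod_le_prod
          · intro j _
            exact sum_nonneg fun _ _ => by positivity
          · intro j _
            split_ifs
            · exact zr_sum B
            · simp
      _ = 3 ^ S.card := by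
          rw [prod_ite_mem, univ_inter, prod_const]
  have h2 : ((zs B S).card : ℝ) * (1 / 4) ^ B ≤ ∑ z ∈ zs B S, (1 / 4 : ℝ) ^ (∑ j, Nat.size (z j).natAbs) := by
    rw [← nsmul_eq_mul, ← sum_const]
    apply sum_le_sum
    intro z hz
    rw [zs, mem_filter] at hz
    exact pow_le_pow_of_le_one (by norm_num) (by norm_num) hz.2
  have h3 : ((zs B S).card : ℝ) ≤ 4 ^ B * 3 ^ S.card := by
    have h4 := h2.trans h1
    have e : ((zs B S).card : ℝ) = 4 ^ B * (((zs B S).card : ℝ) * (1 / 4) ^ B) := by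
      have : (4 : ℝ) ^ B * (1 / 4) ^ B = 1 := by rw [← mul_pow]; norm_num
      calc ((zs B S).card : ℝ) = ((zs B S).card : ℝ) * ((4 : ℝ) ^ B * (1 / 4) ^ B) := by
            rw [this, mul_one]
        _ = _ := by ring
    rw [e]
    exact mul_le_mul_of_nonneg_left h4 (by positivity)
  have h5 : ((zs B S).card : ℝ) ≤ 4 ^ B * 4 ^ S.card := by
    refine h3.trans ?_
    gcongr
    norm_num
  exact_mod_cast h5

/-- the test family -/
noncomputable def fam (n k B : ℕ) : Finset ((Fin n → ℤ) × Finset (Fin n)) := by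
  classical
  exact ((univ : Finset (Finset (Fin n))).filter (fun S => Clo S ∧ S.card ≤ k)).biUnion
    (fun S => zs B S ×ˢ S.powerset)

lemma mem_fam {n k B : ℕ} {S : Finset (Fin n)} (hS : Clo S) (hk : S.card ≤ k) {z : Fin n → ℤ}
    (h0 : ∀ j, j ∉ S → z j = 0) (h : ∑ j, Nat.size (z j).natAbs ≤ B) {D : Finset (Fin n)}
    (hD : D ⊆ S) : (z, D) ∈ fam n k B := by
  classical
  rw [fam, mem_biUnion]
  refine ⟨S, ?_, ?_⟩
  · rw [mem_filter]
    exact ⟨mem_univ _, hS, hk⟩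
  · rw [mem_product, mem_powerset]
    exact ⟨mem_zs h0 h, hD⟩

lemma fam_elim {n k B : ℕ} {z : Fin n → ℤ} {D : Finset (Fin n)} (h : (z, D) ∈ fam n k B) :
    ∃ S : Finset (Fin n), Clo S ∧ S.card ≤ k ∧ (∀ j, j ∉ S → z j = 0) ∧ D ⊆ S := by
  classical
  rw [fam, mem_biUnion] at h
  obtain ⟨S, hS, hz⟩ := h
  rw [mem_filter] at hS
  rw [mem_product, mem_powerset] at hz
  exact ⟨S, hS.2.1, hS.2.2, zs_supp hz.1, hz.2⟩

lemma card_fam (n k B : ℕ) : (fam n k B).card ≤ 2 ^ (2 * B + 5 * k + 1) := by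
  classical
  rw [fam]
  refine (card_biUnion_le_card_mul _ _ (4 ^ B * 4 ^ k * 2 ^ k) ?_).trans ?_
  · intro S hS
    simp only [mem_filter, mem_univ, true_and] at hS
    rw [card_product, card_powerset]
    have h1 := card_zs B S
    have h2 : (4 : ℕ) ^ S.card ≤ 4 ^ k := Nat.pow_le_pow_right (by norm_num) hS.2
    have h3 : (2 : ℕ) ^ S.card ≤ 2 ^ k := Nat.pow_le_pow_right (by norm_num) hS.2
    calc (zs B S).card * 2 ^ S.card ≤ (4 ^ B * 4 ^ S.card) * 2 ^ S.card := Nat.mul_le_mul_right _ h1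
      _ ≤ (4 ^ B * 4 ^ k) * 2 ^ k := by gcongr
  · calc _ ≤ 2 ^ (2 * k + 1) * (4 ^ B * 4 ^ k * 2 ^ k) := Nat.mul_le_mul_right _ (count_clo n k)
      _ = 2 ^ (2 * B + 5 * k + 1) := by
        have : (4 : ℕ) = 2 ^ 2 := by norm_num
        rw [this, ← pow_mul, ← pow_mul, ← pow_add, ← pow_add, ← pow_add]
        congr 1
        ring

/-- edges: scale, atom, copy -/
abbrev Ed (n J c : ℕ) := Σ i : Fin (J + 1), Fin n × Fin (4 * c * 2 ^ (i : ℕ))

/-- weight of an edge -/
noncomputable def wt {n J c : ℕ} (x : Ed n J c) : ℝ := 1 / (4 * c * 2 ^ (x.1 : ℕ))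

lemma wt_nonneg {n J c : ℕ} (x : Ed n J c) : 0 ≤ wt x := by
  unfold wt; positivity

lemma sum_ed {n J c : ℕ} (f : Ed n J c → ℝ) :
    ∑ x, f x = ∑ i : Fin (J + 1), ∑ j : Fin n, ∑ e : Fin (4 * c * 2 ^ (i : ℕ)), f ⟨i, j, e⟩ := by
  rw [Fintype.sum_sigma]
  apply sum_congr rfl
  intro i _
  rw [← univ_product_univ, sum_product]

lemma geo_half (J : ℕ) : ∑ i : Fin (J + 1), (1 / 2 : ℝ) ^ (i : ℕ) ≤ 2 := by
  rw [Fin.sum_univ_eq_sum_range (fun i => (1 / 2 : ℝ) ^ i)]
  have h : ∀ N : ℕ, ∑ i ∈ range N, (1 / 2 : ℝ) ^ i = 2 - 2 * (1 / 2) ^ N := by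
    intro N
    induction N with
    | zero => simp
    | succ N ih => rw [sum_range_succ, ih, pow_succ]; ring
  rw [h]
  have : (0 : ℝ) < (1 / 2) ^ (J + 1) := by positivity
  linarith

lemma sum_wt_sq {n J c : ℕ} (hc : 1 ≤ c) (z : Fin n → ℝ) :
    ∑ x : Ed n J c, (wt x * z x.2.1) ^ 2 ≤ 1 / (2 * c) * ∑ j, z j ^ 2 := by
  have hcR : (0 : ℝ) < c := by exact_mod_cast hc
  rw [sum_ed]
  have h1 : ∀ i : Fin (J + 1), ∑ j : Fin n, ∑ e : Fin (4 * c * 2 ^ (i : ℕ)),
      (wt (⟨i, j, e⟩ : Ed n J c) * z j) ^ 2 = (1 / 2 : ℝ) ^ (i : ℕ) * (1 / (4 * c) * ∑ j, z j ^ 2) := by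
    intro i
    simp only [wt, sum_const, card_univ, Fintype.card_fin, nsmul_eq_mul]
    rw [mul_sum, mul_sum]
    apply sum_congr rfl
    intro j _
    push_cast
    rw [mul_pow, div_pow, div_pow, one_pow, one_pow]
    field_simp
  simp only [h1]
  rw [← sum_mul]
  have h2 := geo_half J
  have h3 : 0 ≤ 1 / (4 * (c : ℝ)) * ∑ j, z j ^ 2 :=
    mul_nonneg (by positivity) (sum_nonneg fun _ _ => sq_nonneg _)
  calc _ ≤ 2 * (1 / (4 * (c : ℝ)) * ∑ j, z j ^ 2) := mul_le_mul_of_nonneg_right h2 h3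
    _ = _ := by field_simp; ring

lemma sum_wt_atom {n J c : ℕ} (hc : 1 ≤ c) (j : Fin n) :
    ∑ x : Ed n J c, (if x.2.1 = j then wt x else 0) = J + 1 := by
  have hcR : (0 : ℝ) < c := by exact_mod_cast hc
  rw [sum_ed]
  have h1 : ∀ i : Fin (J + 1), ∑ j' : Fin n, ∑ e : Fin (4 * c * 2 ^ (i : ℕ)),
      (if (⟨i, j', e⟩ : Ed n J c).2.1 = j then wt (⟨i, j', e⟩ : Ed n J c) else 0) = 1 := by
    intro i
    rw [sum_eq_single j]
    · simp only [if_true, wt, sum_const, card_univ, Fintype.card_fin, nsmul_eq_mul]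
      push_cast
      field_simp
    · intro j' _ hj
      apply sum_eq_zero
      intro e _
      rw [if_neg hj]
    · intro h
      exact absurd (mem_univ _) h
  simp only [h1]
  simp

lemma touched {n J c : ℕ} {m : ℕ} (N : Ed n J c → Fin m) (D : Finset (Fin n)) :
    ((univ.filter (fun x : Ed n J c => x.2.1 ∈ D)).image N).card ≤ 8 * c * 2 ^ J * D.card := by
  refine card_image_le.trans ?_
  have h1 : ((univ.filter (fun x : Ed n J c => x.2.1 ∈ D)).card : ℝ) =
      ∑ i : Fin (J + 1), (4 * c * 2 ^ (i : ℕ) : ℝ) * D.card := by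
    rw [card_filter]
    push_cast
    rw [sum_ed]
    apply sum_congr rfl
    intro i _
    have : ∀ j : Fin n, ∑ e : Fin (4 * c * 2 ^ (i : ℕ)),
        (if (⟨i, j, e⟩ : Ed n J c).2.1 ∈ D then (1 : ℝ) else 0) =
        if j ∈ D then (4 * c * 2 ^ (i : ℕ) : ℝ) else 0 := by
      intro j
      by_cases hj : j ∈ D
      · simp [hj]
      · simp [hj]
    simp only [this]
    rw [sum_ite_mem, univ_inter, sum_const, nsmul_eq_mul]
    ring
  have h2 : ∑ i : Fin (J + 1), (4 * c * 2 ^ (i : ℕ) : ℝ) * D.card ≤ 8 * c * 2 ^ J * D.card := by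
    rw [← sum_mul, ← mul_sum]
    have h3 : ∑ i : Fin (J + 1), (2 : ℝ) ^ (i : ℕ) ≤ 2 * 2 ^ J := by
      rw [Fin.sum_univ_eq_sum_range (fun i => (2 : ℝ) ^ i)]
      have h : ∀ N : ℕ, ∑ i ∈ range N, (2 : ℝ) ^ i = 2 ^ N - 1 := by
        intro N
        induction N with
        | zero => simp
        | succ N ih => rw [sum_range_succ, ih, pow_succ]; ring
      rw [h, pow_succ]
      linarith
    calc 4 * (c : ℝ) * (∑ i : Fin (J + 1), (2 : ℝ) ^ (i : ℕ)) * D.card
        ≤ 4 * (c : ℝ) * (2 * 2 ^ J) * D.card := by gcongr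
      _ = _ := by ring
  have h3 : ((univ.filter (fun x : Ed n J c => x.2.1 ∈ D)).card : ℝ) ≤
      ((8 * c * 2 ^ J * D.card : ℕ) : ℝ) := by
    rw [h1]
    push_cast
    exact h2
  exact_mod_cast h3

/-- many rows with a heavy entry -/
lemma rich {n k J c m : ℕ} (hc : 1 ≤ c) (N : Ed n J c → Fin m)
    (hN : ∀ i : Fin (J + 1), 2 ^ (i : ℕ) ≤ k → ∀ S : Finset (Fin n), Clo S → S.card ≤ k →
      ∀ V ⊆ S, V.card = k / 2 ^ (i : ℕ) → 4 * c * 2 ^ (i : ℕ) * V.card ≤
        4 * ((V ×ˢ (univ : Finset (Fin (4 * c * 2 ^ (i : ℕ))))).image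
          (fun x => N ⟨i, x⟩)).card)
    (S : Finset (Fin n)) (hS : Clo S) (hSk : S.card ≤ k) (z : Fin n → ℤ)
    (hz : ∀ j, j ∉ S → z j = 0) (D : Finset (Fin n)) (hD : 32 * 2 ^ J * D.card ≤ k)
    (i : Fin (J + 1)) (hi : 2 ^ (i : ℕ) ≤ k) (l : ℕ) (hl1 : 1 ≤ l)
    (hV : k / 2 ^ (i : ℕ) ≤ (univ.filter (fun j => l ≤ (z j).natAbs)).card)
    (hl : 2 ^ 14 * 2 ^ (i : ℕ) ≤ 5 * l) :
    ∃ G : Finset (Fin m), G ⊆ univ.filter (fun r => ∀ x, N x = r → x.2.1 ∉ D) ∧
      c * k ≤ 4 * G.card ∧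
      ∀ r ∈ G, ∃ x, N x = r ∧ 2 ^ 14 / (20 * c : ℝ) ≤ wt x * |(z x.2.1 : ℝ)| := by
  classical
  have hcR : (0 : ℝ) < c := by exact_mod_cast hc
  obtain ⟨V, hV1, hV2⟩ := exists_subset_card_eq hV
  have hVS : V ⊆ S := by
    intro j hj
    by_contra hjS
    have h1 := (mem_filter.mp (hV1 hj)).2
    rw [hz j hjS] at h1
    simp at h1
    omega
  have h1 := hN i hi S hS hSk V hVS hV2
  set I := (V ×ˢ (univ : Finset (Fin (4 * c * 2 ^ (i : ℕ))))).image (fun x => N ⟨i, x⟩) with hI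
  set Tc := (univ.filter (fun x : Ed n J c => x.2.1 ∈ D)).image N with hTc
  have h2 : Tc.card ≤ 8 * c * 2 ^ J * D.card := touched N D
  refine ⟨I \ Tc, ?_, ?_, ?_⟩
  · intro r hr
    rw [mem_sdiff] at hr
    rw [mem_filter]
    refine ⟨mem_univ _, fun x hx hxD => hr.2 ?_⟩
    rw [hTc, ← hx]
    exact mem_image_of_mem N (mem_filter.mpr ⟨mem_univ _, hxD⟩)
  · have h3 : I.card ≤ (I \ Tc).card + Tc.card := by
      have := card_le_card (subset_union_left (s₁ := I) (s₂ := Tc))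
      rw [← sdiff_union_self_eq_union] at this
      exact this.trans (card_union_le _ _)
    have h4 : k ≤ 2 * (2 ^ (i : ℕ) * V.card) := by
      rw [hV2]
      have h5 := Nat.div_add_mod k (2 ^ (i : ℕ))
      have h6 := Nat.mod_lt k (show 0 < 2 ^ (i : ℕ) by positivity)
      have h7 : 1 ≤ k / 2 ^ (i : ℕ) := (Nat.one_le_div_iff (by positivity)).mpr hi
      have h8 : 2 ^ (i : ℕ) * 1 ≤ 2 ^ (i : ℕ) * (k / 2 ^ (i : ℕ)) := Nat.mul_le_mul_left _ h7
      omega
    have h5 : c * k ≤ 2 * I.card := by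
      have h6 : c * k ≤ c * (2 * (2 ^ (i : ℕ) * V.card)) := Nat.mul_le_mul_left _ h4
      have h7 : 4 * c * 2 ^ (i : ℕ) * V.card = 4 * (c * (2 ^ (i : ℕ) * V.card)) := by ring
      have h8 : c * (2 * (2 ^ (i : ℕ) * V.card)) = 2 * (c * (2 ^ (i : ℕ) * V.card)) := by ring
      omega
    have h6 : 4 * Tc.card ≤ c * k := by
      calc 4 * Tc.card ≤ 4 * (8 * c * 2 ^ J * D.card) := Nat.mul_le_mul_left _ h2
        _ = c * (32 * 2 ^ J * D.card) := by ring
        _ ≤ c * k := Nat.mul_le_mul_left _ hD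
    omega
  · intro r hr
    rw [mem_sdiff, hI, mem_image] at hr
    obtain ⟨⟨x, hx, hxr⟩, -⟩ := hr
    rw [mem_product] at hx
    refine ⟨⟨i, x⟩, hxr, ?_⟩
    have h3 : l ≤ (z x.1).natAbs := (mem_filter.mp (hV1 hx.1)).2
    have h4 : (l : ℝ) ≤ |(z x.1 : ℝ)| := by
      have : ((z x.1).natAbs : ℝ) = |(z x.1 : ℝ)| := by
        rw [Nat.cast_natAbs, Int.cast_abs]
      rw [← this]
      exact_mod_cast h3
    have h5 : (2 : ℝ) ^ 14 * 2 ^ (i : ℕ) ≤ 5 * l := by exact_mod_cast hl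
    simp only [wt]
    rw [one_div_mul_eq_div, div_le_div_iff₀ (by positivity) (by positivity)]
    calc (2 : ℝ) ^ 14 * (4 * (c : ℝ) * (2 : ℝ) ^ (i : ℕ)) =
          4 * (c : ℝ) * ((2 : ℝ) ^ 14 * (2 : ℝ) ^ (i : ℕ)) := by ring
      _ ≤ 4 * (c : ℝ) * (5 * (l : ℝ)) := by gcongr
      _ = (l : ℝ) * (20 * (c : ℝ)) := by ring
      _ ≤ |(z x.1 : ℝ)| * (20 * (c : ℝ)) := by gcongr

/-- the signed matrix -/
noncomputable def AA {n J c m : ℕ} (N : Ed n J c → Fin m) (ω : Fin m → Ed n J c → Bool)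
    (r : Fin m) (j : Fin n) : ℝ :=
  ∑ x : Ed n J c, if N x = r ∧ x.2.1 = j then wt x * sg (ω r x) else 0

lemma AA_mul {n J c m : ℕ} (N : Ed n J c → Fin m) (ω : Fin m → Ed n J c → Bool)
    (r : Fin m) (v : Fin n → ℝ) :
    ∑ j, AA N ω r j * v j = ∑ x, (if N x = r then wt x * v x.2.1 else 0) * sg (ω r x) := by
  simp only [AA, sum_mul]
  rw [sum_comm]
  apply sum_congr rfl
  intro x _
  rw [sum_eq_single x.2.1]
  · by_cases h : N x = r
    · rw [if_pos ⟨h, rfl⟩, if_pos h]; ring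
    · rw [if_neg (fun h' => h h'.1), if_neg h]; ring
  · intro j _ hj
    rw [if_neg (fun h => hj h.2.symm), zero_mul]
  · intro h; exact absurd (mem_univ _) h

lemma AA_col {n J c m : ℕ} (hc : 1 ≤ c) (N : Ed n J c → Fin m) (ω : Fin m → Ed n J c → Bool)
    (j : Fin n) : ∑ r, |AA N ω r j| ≤ J + 1 := by
  rw [← sum_wt_atom (n := n) (J := J) hc j]
  calc ∑ r, |AA N ω r j| ≤ ∑ r, ∑ x : Ed n J c, (if N x = r ∧ x.2.1 = j then wt x else 0) := by
        apply sum_le_sum
        intro r _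
        refine (abs_sum_le_sum_abs _ _).trans ?_
        apply sum_le_sum
        intro x _
        split_ifs
        · rw [abs_mul, abs_sg, mul_one, abs_of_nonneg (wt_nonneg x)]
        · rw [abs_zero]
    _ = ∑ x : Ed n J c, (if x.2.1 = j then wt x else 0) := by
        rw [sum_comm]
        apply sum_congr rfl
        intro x _
        rw [sum_eq_single (N x)]
        · by_cases h : x.2.1 = j
          · rw [if_pos ⟨rfl, h⟩, if_pos h]
          · rw [if_neg (fun h' => h h'.2), if_neg h]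
        · intro r _ hr
          rw [if_neg (fun h => hr h.1.symm)]
        · intro h; exact absurd (mem_univ _) h
    _ ≤ _ := le_refl _

lemma AA_zero {n J c m : ℕ} (N : Ed n J c → Fin m) (ω : Fin m → Ed n J c → Bool)
    (D : Finset (Fin n)) :
    (univ.filter (fun r : Fin m => ∀ x, N x = r → x.2.1 ∉ D)) ⊆
      univ.filter (fun r => ∀ j ∈ D, AA N ω r j = 0) := by
  intro r hr
  rw [mem_filter] at hr ⊢
  refine ⟨mem_univ _, fun j hj => ?_⟩
  apply sum_eq_zero
  intro x _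
  rw [if_neg]
  rintro ⟨h1, h2⟩
  exact hr.2 x h1 (h2 ▸ hj)

lemma num1 : Real.exp 1 * (5 / 6 : ℝ) ^ 10 ≤ 1 / 2 := by
  have h := Real.exp_one_lt_d9
  have : (5 / 6 : ℝ) ^ 10 ≤ 1616 / 10000 := by norm_num
  have h2 : (0 : ℝ) ≤ (5 / 6 : ℝ) ^ 10 := by positivity
  calc Real.exp 1 * (5 / 6 : ℝ) ^ 10 ≤ 2.7182818286 * (1616 / 10000) := by gcongr
    _ ≤ 1 / 2 := by norm_num

lemma num2 : (2 : ℝ) ^ 16 * Real.exp (-12) ≤ 1 / 2 := by
  rw [Real.exp_neg]
  have h := Real.exp_one_gt_d9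
  have h1 : Real.exp 12 = Real.exp 1 ^ 12 := by
    rw [← Real.exp_nat_mul]; norm_num
  have h2 : (2.7182818283 : ℝ) ^ 12 ≤ Real.exp 12 := by
    rw [h1]
    exact pow_le_pow_left₀ (by norm_num) h.le 12
  have h3 : (131072 : ℝ) ≤ Real.exp 12 := le_trans (by norm_num) h2
  rw [← div_eq_mul_inv, div_le_iff₀ (Real.exp_pos _)]
  norm_num
  linarith

lemma exists_signs (n k J : ℕ) (hk : 1 ≤ k) :
    ∃ A : Fin (16 * (4 * 10240) * k) → Fin n → ℝ,
      (∀ j, ∑ r, |A r j| ≤ J + 1) ∧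
      (∀ S : Finset (Fin n), Clo S → S.card ≤ k → ∀ z : Fin n → ℤ, (∀ j, j ∉ S → z j = 0) →
        (∀ j, (z j).natAbs ≤ 1) → ∑ r, |∑ j, A r j * (z j : ℝ)| ≤ 7 * k) ∧
      (∀ S : Finset (Fin n), Clo S → S.card ≤ k → ∀ D ⊆ S, 32 * 2 ^ J * D.card ≤ k →
        ∀ z : Fin n → ℤ, (∀ j, j ∉ S → z j = 0) → ∑ j, Nat.size (z j).natAbs ≤ 52 * k →
        ∀ i l : ℕ, i ≤ J → 2 ^ i ≤ k → 1 ≤ l →
          k / 2 ^ i ≤ (univ.filter (fun j => l ≤ (z j).natAbs)).card → 2 ^ 14 * 2 ^ i ≤ 5 * l →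
          (2 ^ 14 / 960 : ℝ) * k ≤ ∑ r ∈ univ.filter (fun r => ∀ j ∈ D, A r j = 0),
            |∑ j, A r j * (z j : ℝ)|) := by
  classical
  set c : ℕ := 10240 with hc
  have hc1 : 1 ≤ c := by rw [hc]; norm_num
  have hcR : (0 : ℝ) < c := by exact_mod_cast hc1
  have hkR : (0 : ℝ) < k := by exact_mod_cast hk
  set m := 16 * (4 * c) * k with hm
  have hm0 : 0 < m := by positivity
  -- hash functions
  have hex : ∀ i : Fin (J + 1), ∃ N : Fin n × Fin (4 * c * 2 ^ (i : ℕ)) → Fin m, 2 ^ (i : ℕ) ≤ k →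
      ∀ S : Finset (Fin n), Clo S → S.card ≤ k →
      ∀ V ⊆ S, V.card = k / 2 ^ (i : ℕ) → 4 * c * 2 ^ (i : ℕ) * V.card ≤
        4 * ((V ×ˢ (univ : Finset (Fin (4 * c * 2 ^ (i : ℕ))))).image N).card := by
    intro i
    by_cases hi : 2 ^ (i : ℕ) ≤ k
    · obtain ⟨N, hN⟩ := exists_hash n k i c hk hi (by rw [hc]; norm_num)
      exact ⟨N, fun _ => hN⟩
    · exact ⟨fun _ => ⟨0, hm0⟩, fun h => absurd h hi⟩
  choose N0 hN0 using hex
  set N : Ed n J c → Fin m := fun x => N0 x.1 x.2 with hN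
  -- coefficients
  set a : (Fin n → ℤ) → Fin m → Ed n J c → ℝ := fun z r x =>
    if N x = r then wt x * (z x.2.1 : ℝ) else 0 with ha
  set T : Finset (Fin n) → Finset (Fin m) := fun D =>
    univ.filter (fun r : Fin m => ∀ x, N x = r → x.2.1 ∉ D) with hT
  set u : ℝ := (2 ^ 14 / 960 : ℝ) * k with hu
  set tot : ℝ := (2 ^ Fintype.card (Ed n J c)) ^ Fintype.card (Fin m) with htot
  have htot0 : 0 < tot := by positivity
  set CL : (Fin n → ℤ) → Finset (Fin n) → Prop := fun z D => 32 * 2 ^ J * D.card ≤ k ∧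
    ∃ (i : Fin (J + 1)) (l : ℕ), 2 ^ (i : ℕ) ≤ k ∧ 1 ≤ l ∧
      k / 2 ^ (i : ℕ) ≤ (univ.filter (fun j => l ≤ (z j).natAbs)).card ∧
      2 ^ 14 * 2 ^ (i : ℕ) ≤ 5 * l with hCL
  set badL : (Fin n → ℤ) × Finset (Fin n) → Finset (Fin m → Ed n J c → Bool) := fun p =>
    univ.filter (fun ω => CL p.1 p.2 ∧ ∑ r ∈ T p.2, |∑ x, a p.1 r x * sg (ω r x)| < u) with hbadL
  set badU : (Fin n → ℤ) × Finset (Fin n) → Finset (Fin m → Ed n J c → Bool) := fun p =>
    univ.filter (fun ω => (∀ j, (p.1 j).natAbs ≤ 1) ∧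
      7 * (k : ℝ) < ∑ r, |∑ x, a p.1 r x * sg (ω r x)|) with hbadU
  have hL : ∀ p ∈ fam n k (52 * k), ((badL p).card : ℝ) ≤ (1 / 2) ^ (256 * k) * tot := by
    rintro ⟨z, D⟩ hp
    by_cases hCLp : CL z D
    swap
    · have : badL (z, D) = ∅ := by
        rw [hbadL]
        apply filter_eq_empty_iff.mpr
        intro ω _ h
        exact hCLp h.1
      rw [this, card_empty, Nat.cast_zero]
      positivity
    obtain ⟨S, hS, hSk, hzS, hDS⟩ := fam_elim hp
    obtain ⟨hDc, i, l, hi, hl1, hV, hl⟩ := hCLp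
    obtain ⟨G, hGT, hGc, hG⟩ := rich hc1 N (fun i hi S hS hSk V hV hVc => hN0 i hi S hS hSk V hV hVc)
      S hS hSk z hzS D hDc i hi l hl1 hV hl
    have hsub : badL (z, D) ⊆ univ.filter (fun ω : Fin m → Ed n J c → Bool =>
        ∑ r ∈ T D, |∑ x, a z r x * sg (ω r x)| < u) := by
      intro ω hω
      rw [hbadL, mem_filter] at hω
      rw [mem_filter]
      exact ⟨mem_univ _, hω.2.2⟩
    have h1 : ((badL (z, D)).card : ℝ) ≤ ((univ.filter (fun ω : Fin m → Ed n J c → Bool =>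
        ∑ r ∈ T D, |∑ x, a z r x * sg (ω r x)| < u)).card : ℝ) := by
      exact_mod_cast card_le_card hsub
    refine h1.trans ?_
    set lam : ℝ := 24 * c / 2 ^ 14 with hlam
    have h2 := low_count (a z) (T D) G hGT lam u (by positivity) (by
      intro r hr
      obtain ⟨x, hx, hxw⟩ := hG r hr
      have h3 : (a z r x) ^ 2 ≤ ∑ x, a z r x ^ 2 :=
        single_le_sum (f := fun x => a z r x ^ 2) (fun _ _ => sq_nonneg _) (mem_univ x)
      have h4 : a z r x = wt x * (z x.2.1 : ℝ) := by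
        rw [ha]; simp only; rw [if_pos hx]
      have h5 : (2 ^ 14 / (20 * c : ℝ)) ^ 2 ≤ (a z r x) ^ 2 := by
        rw [h4, ← sq_abs (wt x * (z x.2.1 : ℝ)), abs_mul, abs_of_nonneg (wt_nonneg x)]
        exact pow_le_pow_left₀ (by positivity) hxw 2
      calc (4 / 3 : ℝ) ≤ lam ^ 2 * (2 ^ 14 / (20 * c : ℝ)) ^ 2 := by
            rw [hlam, ← mul_pow]
            have : (24 * (c : ℝ) / 2 ^ 14) * (2 ^ 14 / (20 * c)) = 6 / 5 := by
              field_simp
              norm_num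
            rw [this]
            norm_num
        _ ≤ lam ^ 2 * ∑ x, a z r x ^ 2 := by
            apply mul_le_mul_of_nonneg_left (h5.trans h3) (sq_nonneg _))
    refine h2.trans ?_
    rw [← htot]
    apply mul_le_mul_of_nonneg_right _ htot0.le
    have h6 : lam * u = ((256 * k : ℕ) : ℝ) := by
      rw [hlam, hu, hc]
      push_cast
      ring
    have h7 : 2560 * k ≤ G.card := by
      rw [hc] at hGc
      omega
    have h8 : (5 / 6 : ℝ) ^ G.card ≤ (5 / 6) ^ (2560 * k) :=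
      pow_le_pow_of_le_one (by norm_num) (by norm_num) h7
    calc Real.exp (lam * u) * (5 / 6) ^ G.card ≤ Real.exp (lam * u) * (5 / 6) ^ (2560 * k) := by gcongr
      _ = (Real.exp 1 * (5 / 6 : ℝ) ^ 10) ^ (256 * k) := by
        rw [h6, mul_pow, ← pow_mul, ← Real.exp_nat_mul, mul_one]
        congr 2
        ring
      _ ≤ (1 / 2) ^ (256 * k) := by
        apply pow_le_pow_left₀ (by positivity) num1
  have hU : ∀ p ∈ fam n k (52 * k), ((badU p).card : ℝ) ≤ (1 / 2) ^ (256 * k) * tot := by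
    rintro ⟨z, D⟩ hp
    by_cases hz1 : ∀ j, (z j).natAbs ≤ 1
    swap
    · have : badU (z, D) = ∅ := by
        rw [hbadU]
        apply filter_eq_empty_iff.mpr
        intro ω _ h
        exact hz1 h.1
      rw [this, card_empty, Nat.cast_zero]
      positivity
    obtain ⟨S, hS, hSk, hzS, hDS⟩ := fam_elim hp
    have hsub : badU (z, D) ⊆ univ.filter (fun ω : Fin m → Ed n J c → Bool =>
        7 * (k : ℝ) < ∑ r, |∑ x, a z r x * sg (ω r x)|) := by
      intro ω hω
      rw [hbadU, mem_filter] at hω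
      rw [mem_filter]
      exact ⟨mem_univ _, hω.2.2⟩
    have h1 : ((badU (z, D)).card : ℝ) ≤ ((univ.filter (fun ω : Fin m → Ed n J c → Bool =>
        7 * (k : ℝ) < ∑ r, |∑ x, a z r x * sg (ω r x)|)).card : ℝ) := by
      exact_mod_cast card_le_card hsub
    refine h1.trans ?_
    have h2 := up_count (a z) (12 * c : ℝ) (7 * k) (by positivity)
    refine h2.trans ?_
    rw [← htot]
    apply mul_le_mul_of_nonneg_right _ htot0.le
    have h3 : ∑ r, ∑ x, a z r x ^ 2 ≤ 1 / (2 * c) * k := by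
      have e1 : ∑ r, ∑ x, a z r x ^ 2 = ∑ x : Ed n J c, (wt x * (z x.2.1 : ℝ)) ^ 2 := by
        rw [sum_comm]
        apply sum_congr rfl
        intro x _
        rw [sum_eq_single (N x)]
        · rw [ha]; simp only [if_true]
        · intro r _ hr
          rw [ha]; simp only; rw [if_neg (fun h => hr h.symm)]; norm_num
        · intro h; exact absurd (mem_univ _) h
      rw [e1]
      refine (sum_wt_sq hc1 (fun j => (z j : ℝ))).trans ?_
      apply mul_le_mul_of_nonneg_left _ (by positivity)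
      calc ∑ j, (z j : ℝ) ^ 2 = ∑ j ∈ S, (z j : ℝ) ^ 2 := by
            symm
            apply sum_subset (subset_univ S)
            intro j _ hj
            rw [hzS j hj]; norm_num
        _ ≤ ∑ j ∈ S, 1 := by
            apply sum_le_sum
            intro j _
            have h4 : ((z j).natAbs : ℝ) ≤ 1 := by exact_mod_cast hz1 j
            rw [Nat.cast_natAbs, Int.cast_abs] at h4
            rw [← sq_abs]
            exact pow_le_one₀ (abs_nonneg _) h4
        _ = S.card := by simp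
        _ ≤ k := by exact_mod_cast hSk
    have h4 : (12 * (c : ℝ)) ^ 2 * (∑ r, ∑ x, a z r x ^ 2) / 2 - 12 * c * (7 * k) ≤
        -(48 * c * k) := by
      have : (12 * (c : ℝ)) ^ 2 * (∑ r, ∑ x, a z r x ^ 2) / 2 ≤
          (12 * (c : ℝ)) ^ 2 * (1 / (2 * c) * k) / 2 := by gcongr
      have e : (12 * (c : ℝ)) ^ 2 * (1 / (2 * c) * k) / 2 = 36 * c * k := by
        field_simp
        norm_num
      rw [e] at this
      linarith
    have h5 : Fintype.card (Fin m) = 16 * (4 * c * k) := by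
      rw [Fintype.card_fin, hm]; ring
    calc (2 : ℝ) ^ Fintype.card (Fin m) *
          Real.exp ((12 * (c : ℝ)) ^ 2 * (∑ r, ∑ x, a z r x ^ 2) / 2 - 12 * c * (7 * k))
        ≤ (2 : ℝ) ^ Fintype.card (Fin m) * Real.exp (-(48 * c * k)) := by
          gcongr
      _ = ((2 : ℝ) ^ 16 * Real.exp (-12)) ^ (4 * c * k) := by
        rw [h5, mul_pow, ← pow_mul, ← Real.exp_nat_mul]
        congr 2
        push_cast
        ring
      _ ≤ (1 / 2) ^ (4 * c * k) := pow_le_pow_left₀ (by positivity) num2 _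
      _ ≤ (1 / 2) ^ (256 * k) := by
        apply pow_le_pow_of_le_one (by norm_num) (by norm_num)
        rw [hc]
        omega
  -- union bound
  obtain ⟨ω, hω⟩ : ∃ ω : Fin m → Ed n J c → Bool, ∀ p ∈ fam n k (52 * k), ω ∉ badL p ∧ ω ∉ badU p := by
    by_contra hcon
    push Not at hcon
    have hcov : (univ : Finset (Fin m → Ed n J c → Bool)) ⊆
        (fam n k (52 * k)).biUnion (fun p => badL p ∪ badU p) := by
      intro ω _
      obtain ⟨p, hp, h⟩ := hcon ω
      rw [mem_biUnion]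
      refine ⟨p, hp, ?_⟩
      rw [mem_union]
      by_cases h' : ω ∈ badL p
      · exact Or.inl h'
      · exact Or.inr (h h')
    have h1 := (card_le_card hcov).trans card_biUnion_le
    have h2 : ((univ : Finset (Fin m → Ed n J c → Bool)).card : ℝ) ≤
        ∑ p ∈ fam n k (52 * k), (((badL p ∪ badU p).card : ℕ) : ℝ) := by exact_mod_cast h1
    have h3 : ((univ : Finset (Fin m → Ed n J c → Bool)).card : ℝ) = tot := by
      rw [card_univ, Fintype.card_fun, Fintype.card_fun, Fintype.card_bool, htot]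
      push_cast
      rfl
    have h4 : ∑ p ∈ fam n k (52 * k), (((badL p ∪ badU p).card : ℕ) : ℝ) ≤
        ∑ p ∈ fam n k (52 * k), 2 * ((1 / 2) ^ (256 * k) * tot) := by
      apply sum_le_sum
      intro p hp
      have h5 := card_union_le (badL p) (badU p)
      have h6 : (((badL p ∪ badU p).card : ℕ) : ℝ) ≤ (badL p).card + (badU p).card := by
        exact_mod_cast h5
      have := hL p hp
      have := hU p hp
      linarith
    rw [sum_const, nsmul_eq_mul] at h4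
    have h7 : ((fam n k (52 * k)).card : ℝ) ≤ 2 ^ (109 * k + 1) := by
      have := card_fam n k (52 * k)
      have e : 2 * (52 * k) + 5 * k + 1 = 109 * k + 1 := by ring
      rw [e] at this
      exact_mod_cast this
    have h8 : (2 : ℝ) ^ (109 * k + 1) * (2 * (1 / 2) ^ (256 * k)) < 1 := by
      calc (2 : ℝ) ^ (109 * k + 1) * (2 * (1 / 2) ^ (256 * k))
          = 2 ^ (109 * k + 2) * (1 / 2) ^ (256 * k) := by ring
        _ ≤ 2 ^ (109 * k + 2) * (1 / 2) ^ (109 * k + 3) := by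
            apply mul_le_mul_of_nonneg_left _ (by positivity)
            apply pow_le_pow_of_le_one (by norm_num) (by norm_num)
            omega
        _ = 1 / 2 := by
            rw [show 109 * k + 3 = 109 * k + 2 + 1 by ring, pow_succ (1 / 2 : ℝ), ← mul_assoc,
              ← mul_pow]
            norm_num
        _ < 1 := by norm_num
    have h9 : tot ≤ ((2 : ℝ) ^ (109 * k + 1) * (2 * (1 / 2) ^ (256 * k))) * tot := by
      calc tot ≤ ((fam n k (52 * k)).card : ℝ) * (2 * ((1 / 2) ^ (256 * k) * tot)) := by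
            rw [← h3]
            rw [h3]
            rw [h3] at h2
            exact h2.trans h4
        _ ≤ 2 ^ (109 * k + 1) * (2 * ((1 / 2) ^ (256 * k) * tot)) := by gcongr
        _ = _ := by ring
    nlinarith
  have hrow : ∀ (z : Fin n → ℤ) (r : Fin m), ∑ j, AA N ω r j * (z j : ℝ) =
      ∑ x, a z r x * sg (ω r x) := fun z r => AA_mul N ω r (fun j => (z j : ℝ))
  refine ⟨AA N ω, AA_col hc1 N ω, ?_, ?_⟩
  · intro S hS hSk z hz hz1
    have hsz : ∑ j, Nat.size (z j).natAbs ≤ 52 * k := by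
      calc ∑ j, Nat.size (z j).natAbs = ∑ j ∈ S, Nat.size (z j).natAbs := by
            symm
            apply sum_subset (subset_univ S)
            intro j _ hj
            rw [hz j hj]; rfl
        _ ≤ ∑ j ∈ S, 1 := by
            apply sum_le_sum
            intro j _
            apply Nat.size_le.mpr
            have := hz1 j
            omega
        _ = S.card := by simp
        _ ≤ 52 * k := by omega
    have hp := mem_fam (B := 52 * k) hS hSk hz hsz (empty_subset S)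
    have h1 := (hω _ hp).2
    rw [hbadU, mem_filter] at h1
    push Not at h1
    have h2 := h1 (mem_univ _) hz1
    simp only [hrow]
    exact h2
  · intro S hS hSk D hD hDc z hz hsz i l hi hik hl1 hV hl
    have hp := mem_fam (B := 52 * k) hS hSk hz hsz hD
    have h1 := (hω _ hp).1
    rw [hbadL, mem_filter] at h1
    push Not at h1
    have h2 := h1 (mem_univ _) ⟨hDc, ⟨i, by omega⟩, l, hik, hl1, hV, hl⟩
    simp only [hrow]
    refine h2.trans ?_
    exact sum_le_sum_of_subset_of_nonneg (AA_zero N ω D) (fun _ _ _ => abs_nonneg _)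

lemma convU {m n : ℕ} (A : Fin m → Fin n → ℝ) (S : Finset (Fin n)) (C : ℝ)
    (hU : ∀ z : Fin n → ℤ, (∀ j, j ∉ S → z j = 0) → (∀ j, (z j).natAbs ≤ 1) →
      ∑ r, |∑ j, A r j * (z j : ℝ)| ≤ C)
    (v : Fin n → ℝ) (hv0 : ∀ j, j ∉ S → v j = 0) (hv1 : ∀ j, |v j| ≤ 1) :
    ∑ r, |∑ j, A r j * v j| ≤ C := by
  classical
  set θ : Fin m → ℝ := fun r => if 0 ≤ ∑ j, A r j * v j then 1 else -1 with hθ
  have hθ1 : ∀ r, |∑ j, A r j * v j| = θ r * ∑ j, A r j * v j := by
    intro r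
    rw [hθ]
    simp only
    split_ifs with h
    · rw [abs_of_nonneg h, one_mul]
    · rw [abs_of_neg (not_le.mp h)]; ring
  have hθabs : ∀ r, |θ r| = 1 := by
    intro r
    rw [hθ]
    simp only
    split_ifs <;> simp
  set B : Fin n → ℝ := fun j => ∑ r, θ r * A r j with hB
  have hswap : ∀ w : Fin n → ℝ, ∑ r, θ r * ∑ j, A r j * w j = ∑ j, B j * w j := by
    intro w
    simp only [mul_sum, hB, sum_mul]
    rw [sum_comm]
    apply sum_congr rfl
    intro j _
    apply sum_congr rfl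
    intro r _
    ring
  set z : Fin n → ℤ := fun j => if j ∈ S then (if 0 ≤ B j then 1 else -1) else 0 with hz
  have hBz : ∀ j, B j * v j ≤ B j * (z j : ℝ) := by
    intro j
    rw [hz]
    simp only
    by_cases hj : j ∈ S
    · rw [if_pos hj]
      have h1 := hv1 j
      rw [abs_le] at h1
      split_ifs with h
      · push_cast
        exact mul_le_mul_of_nonneg_left h1.2 h
      · push_cast
        have h2 : B j < 0 := not_le.mp h
        nlinarith [h1.1]
    · rw [hv0 j hj, if_neg hj]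
      push_cast
      exact le_rfl
  calc ∑ r, |∑ j, A r j * v j| = ∑ r, θ r * ∑ j, A r j * v j := sum_congr rfl (fun r _ => hθ1 r)
    _ = ∑ j, B j * v j := hswap v
    _ ≤ ∑ j, B j * (z j : ℝ) := sum_le_sum (fun j _ => hBz j)
    _ = ∑ r, θ r * ∑ j, A r j * (z j : ℝ) := (hswap _).symm
    _ ≤ ∑ r, |∑ j, A r j * (z j : ℝ)| := by
      apply sum_le_sum
      intro r _
      calc θ r * ∑ j, A r j * (z j : ℝ) ≤ |θ r * ∑ j, A r j * (z j : ℝ)| := le_abs_self _
        _ = _ := by rw [abs_mul, hθabs, one_mul]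
    _ ≤ C := hU z (fun j hj => by rw [hz]; simp only; rw [if_neg hj]) (fun j => by
      rw [hz]; simp only
      split_ifs <;> simp)

lemma dyad (x0 : ℝ) (hx0 : 0 < x0) (J : ℕ) (y : ℝ) (hy : y < 2 ^ J * x0) :
    y ≤ x0 + ∑ b ∈ range J, (if 2 ^ b * x0 ≤ y then 2 ^ b * x0 else 0) := by
  induction J with
  | zero =>
    simp only [pow_zero, one_mul] at hy
    simp only [range_zero, sum_empty]
    linarith
  | succ J ih =>
    rw [sum_range_succ]
    by_cases h : y < 2 ^ J * x0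
    · have h1 := ih h
      have h2 : 0 ≤ (if 2 ^ J * x0 ≤ y then 2 ^ J * x0 else 0) := by
        split_ifs
        · positivity
        · exact le_rfl
      linarith
    · push Not at h
      rw [if_pos h]
      have h3 : ∀ b ∈ range J, (if 2 ^ b * x0 ≤ y then 2 ^ b * x0 else 0) = 2 ^ b * x0 := by
        intro b hb
        rw [if_pos]
        refine le_trans ?_ h
        have : (2 : ℝ) ^ b ≤ 2 ^ J := pow_le_pow_right₀ (by norm_num) (mem_range.mp hb).le
        exact mul_le_mul_of_nonneg_right this hx0.le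
      rw [sum_congr rfl h3, ← sum_mul]
      have h4 : ∑ b ∈ range J, (2 : ℝ) ^ b = 2 ^ J - 1 := by
        clear h3 h hy ih
        induction J with
        | zero => simp
        | succ J ih => rw [sum_range_succ, ih, pow_succ]; ring
      rw [h4]
      rw [pow_succ] at hy
      nlinarith

lemma size_eq (m B : ℕ) (h : m < 2 ^ B) : Nat.size m = ((range B).filter (fun b => 2 ^ b ≤ m)).card := by
  have h1 : (range B).filter (fun b => 2 ^ b ≤ m) = range (Nat.size m) := by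
    ext b
    rw [mem_filter, mem_range, mem_range]
    constructor
    · rintro ⟨-, h2⟩
      exact Nat.lt_size.mpr h2
    · intro h2
      exact ⟨lt_of_lt_of_le h2 (Nat.size_le.mpr h), Nat.lt_size.mp h2⟩
  rw [h1, card_range]

lemma geo16 (t : ℕ) : ∑ b ∈ range (15 + t), (if b < 15 then (1 : ℝ) else (1 / 2) ^ (b - 14)) =
    16 - (1 / 2) ^ t := by
  induction t with
  | zero =>
    rw [add_zero, sum_congr rfl (fun b hb => if_pos (mem_range.mp hb))]
    simp
    norm_num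
  | succ t ih =>
    rw [← add_assoc, sum_range_succ, ih, if_neg (by omega)]
    have : 15 + t - 14 = t + 1 := by omega
    rw [this, pow_succ]
    ring

lemma pow36 (J0 : ℕ) (h : 1 ≤ J0) : ((J0 : ℝ) + 8) * 8 ≤ 36 * 2 ^ J0 := by
  obtain ⟨t, rfl⟩ : ∃ t, J0 = t + 1 := ⟨J0 - 1, by omega⟩
  induction t with
  | zero => norm_num
  | succ t ih =>
    have h1 := ih (by omega)
    push_cast at h1 ⊢
    have h2 : (1 : ℝ) ≤ 2 ^ (t + 1) := one_le_pow₀ (by norm_num)
    rw [pow_succ (2 : ℝ) (t + 1)]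
    linarith

lemma weak {n : ℕ} (S : Finset (Fin n)) (g : Fin n → ℝ) (tB : ℝ) (htB : 0 < tB)
    (hne : ∃ j ∈ S, g j ≠ 0) : ∃ y : ℝ, 0 < y ∧ y ≤ tB ∧ ∀ y' : ℝ, 0 < y' → y' ≤ tB →
      y' * ((S.filter (fun j => y' ≤ |g j|)).card : ℝ) ≤
        y * ((S.filter (fun j => y ≤ |g j|)).card : ℝ) := by
  classical
  obtain ⟨j0, hj0, hgj0⟩ := hne
  set F : Fin n → ℝ := fun j => min |g j| tB *
    ((S.filter (fun j' => min |g j| tB ≤ |g j'|)).card : ℝ) with hF
  obtain ⟨js, hjs, hmax⟩ := exists_max_image S F ⟨j0, hj0⟩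
  have hF0 : ∀ j ∈ S, g j ≠ 0 → 0 < F j := by
    intro j hj hg
    have h1 : 0 < min |g j| tB := lt_min (abs_pos.mpr hg) htB
    have h2 : 0 < (S.filter (fun j' => min |g j| tB ≤ |g j'|)).card := by
      apply card_pos.mpr
      exact ⟨j, mem_filter.mpr ⟨hj, min_le_left _ _⟩⟩
    have h3 : (0 : ℝ) < ((S.filter (fun j' => min |g j| tB ≤ |g j'|)).card : ℝ) := by
      exact_mod_cast h2
    exact mul_pos h1 h3
  have hFs : 0 < F js := lt_of_lt_of_le (hF0 j0 hj0 hgj0) (hmax j0 hj0)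
  have hy0 : 0 < min |g js| tB := by
    by_contra hle
    have h1 : 0 ≤ min |g js| tB := le_min (abs_nonneg _) htB.le
    have h2 : min |g js| tB = 0 := le_antisymm (not_lt.mp hle) h1
    rw [hF] at hFs
    simp only at hFs
    rw [h2, zero_mul] at hFs
    exact lt_irrefl _ hFs
  refine ⟨min |g js| tB, hy0, min_le_right _ _, fun y' hy' hy't => ?_⟩
  show _ ≤ F js
  by_cases hemp : (S.filter (fun j => y' ≤ |g j|)).Nonempty
  · obtain ⟨j1, hj1, hmin⟩ := exists_min_image _ (fun j => |g j|) hemp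
    rw [mem_filter] at hj1
    have h1 : y' ≤ min |g j1| tB := le_min hj1.2 hy't
    have h2 : S.filter (fun j => y' ≤ |g j|) ⊆ S.filter (fun j' => min |g j1| tB ≤ |g j'|) := by
      intro j hj
      have h3 := hmin j hj
      rw [mem_filter] at hj ⊢
      exact ⟨hj.1, (min_le_left _ _).trans h3⟩
    have h4 : ((S.filter (fun j => y' ≤ |g j|)).card : ℝ) ≤
        ((S.filter (fun j' => min |g j1| tB ≤ |g j'|)).card : ℝ) := by
      exact_mod_cast card_le_card h2
    calc y' * ((S.filter (fun j => y' ≤ |g j|)).card : ℝ) ≤ F j1 := by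
          rw [hF]
          exact mul_le_mul h1 h4 (Nat.cast_nonneg _) (hy'.le.trans h1)
      _ ≤ F js := hmax j1 hj1.1
  · rw [not_nonempty_iff_eq_empty] at hemp
    rw [hemp, card_empty, Nat.cast_zero, mul_zero]
    exact hFs.le

lemma mass_le {n : ℕ} (S S' : Finset (Fin n)) (hS' : S' ⊆ S) (g : Fin n → ℝ) (x0 Q : ℝ)
    (hx0 : 0 < x0) (J : ℕ) (hlt : ∀ j ∈ S', |g j| < 2 ^ J * x0)
    (hQ : ∀ b < J, 2 ^ b * x0 * ((S.filter (fun j => 2 ^ b * x0 ≤ |g j|)).card : ℝ) ≤ Q) :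
    ∑ j ∈ S', |g j| ≤ S'.card * x0 + J * Q := by
  classical
  calc ∑ j ∈ S', |g j| ≤ ∑ j ∈ S', (x0 + ∑ b ∈ range J, (if 2 ^ b * x0 ≤ |g j| then 2 ^ b * x0 else 0)) :=
        sum_le_sum (fun j hj => dyad x0 hx0 J _ (hlt j hj))
    _ = S'.card * x0 + ∑ b ∈ range J, ∑ j ∈ S', (if 2 ^ b * x0 ≤ |g j| then 2 ^ b * x0 else 0) := by
        rw [sum_add_distrib, sum_const, nsmul_eq_mul, sum_comm]
    _ ≤ S'.card * x0 + ∑ b ∈ range J, Q := by
        have : ∀ b ∈ range J, ∑ j ∈ S', (if 2 ^ b * x0 ≤ |g j| then 2 ^ b * x0 else 0) ≤ Q := by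
          intro b hb
          refine le_trans ?_ (hQ b (mem_range.mp hb))
          rw [← sum_filter, sum_const, nsmul_eq_mul, mul_comm]
          apply mul_le_mul_of_nonneg_left _ (by positivity)
          have : S'.filter (fun j => 2 ^ b * x0 ≤ |g j|) ⊆ S.filter (fun j => 2 ^ b * x0 ≤ |g j|) :=
            filter_subset_filter _ hS'
          exact_mod_cast card_le_card this
        have h2 := sum_le_sum this
        linarith
    _ = _ := by rw [sum_const, card_range, nsmul_eq_mul]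

lemma sizes {n k J0 : ℕ} (hJ0 : 1 ≤ J0) (S' : Finset (Fin n)) (f : Fin n → ℕ) (g : Fin n → ℝ)
    (δ tB Y : ℝ) (hδ : 0 < δ) (htB : 0 < tB) (hk : S'.card ≤ k)
    (hf : ∀ j ∈ S', (f j : ℝ) * δ ≤ |g j|) (hgY : ∀ j ∈ S', |g j| < Y)
    (hQ : ∀ y : ℝ, 0 < y → y ≤ tB → y * ((S'.filter (fun j => y ≤ |g j|)).card : ℝ) ≤ 2 ^ 14 * k * δ)
    (hB : 2 ^ J0 * ((S'.filter (fun j => tB ≤ |g j|)).card : ℝ) ≤ 8 * k)
    (hY : Y ≤ 2 ^ (J0 + 8) * tB) :
    ∑ j ∈ S', Nat.size (f j) ≤ 52 * k := by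
  classical
  have hkR : (0 : ℝ) ≤ k := Nat.cast_nonneg k
  have h2J : (0 : ℝ) < 2 ^ J0 := by positivity
  set t := ∑ j ∈ S', f j with ht
  have hft : ∀ j ∈ S', f j < 2 ^ (15 + t) := by
    intro j hj
    have h1 : f j ≤ t := single_le_sum (f := f) (fun _ _ => Nat.zero_le _) hj
    calc f j < 2 ^ f j := Nat.lt_two_pow_self
      _ ≤ 2 ^ (15 + t) := Nat.pow_le_pow_right (by norm_num) (by omega)
  have h1 : ∑ j ∈ S', Nat.size (f j) = ∑ b ∈ range (15 + t), (S'.filter (fun j => 2 ^ b ≤ f j)).card := by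
    calc ∑ j ∈ S', Nat.size (f j) = ∑ j ∈ S', ((range (15 + t)).filter (fun b => 2 ^ b ≤ f j)).card :=
          sum_congr rfl (fun j hj => size_eq _ _ (hft j hj))
      _ = _ := by
          simp only [card_filter]
          rw [sum_comm]
  have h2 : ∀ b, ((S'.filter (fun j => 2 ^ b ≤ f j)).card : ℝ) ≤
      k * (if b < 15 then (1 : ℝ) else (1 / 2) ^ (b - 14)) +
        (if tB < 2 ^ b * δ ∧ 2 ^ b * δ < Y then 8 * (k : ℝ) / 2 ^ J0 else 0) := by
    intro b
    have hsub : ∀ y : ℝ, y ≤ 2 ^ b * δ → S'.filter (fun j => 2 ^ b ≤ f j) ⊆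
        S'.filter (fun j => y ≤ |g j|) := by
      intro y hy j hj
      rw [mem_filter] at hj ⊢
      refine ⟨hj.1, hy.trans ?_⟩
      refine le_trans ?_ (hf j hj.1)
      apply mul_le_mul_of_nonneg_right _ hδ.le
      exact_mod_cast hj.2
    have hpos1 : 0 ≤ k * (if b < 15 then (1 : ℝ) else (1 / 2) ^ (b - 14)) := by
      apply mul_nonneg hkR
      split_ifs <;> positivity
    have hpos2 : 0 ≤ (if tB < 2 ^ b * δ ∧ 2 ^ b * δ < Y then 8 * (k : ℝ) / 2 ^ J0 else 0) := by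
      split_ifs
      · positivity
      · exact le_rfl
    by_cases hb : tB < 2 ^ b * δ
    · by_cases hbY : 2 ^ b * δ < Y
      · rw [if_pos (⟨hb, hbY⟩ : tB < 2 ^ b * δ ∧ 2 ^ b * δ < Y)]
        have h3 : ((S'.filter (fun j => 2 ^ b ≤ f j)).card : ℝ) ≤
            ((S'.filter (fun j => tB ≤ |g j|)).card : ℝ) := by
          exact_mod_cast card_le_card (hsub tB hb.le)
        have h4 : ((S'.filter (fun j => tB ≤ |g j|)).card : ℝ) ≤ 8 * k / 2 ^ J0 := by
          rw [le_div_iff₀ h2J]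
          linarith
        linarith
      · have h3 : S'.filter (fun j => 2 ^ b ≤ f j) = ∅ := by
          rw [← subset_empty]
          intro j hj
          have h4 := hsub (2 ^ b * δ) le_rfl hj
          rw [mem_filter] at h4
          exact absurd (h4.2.trans_lt (hgY j h4.1)) hbY
        rw [h3, card_empty, Nat.cast_zero]
        linarith
    · push Not at hb
      have h3 : 2 ^ b * δ * ((S'.filter (fun j => 2 ^ b ≤ f j)).card : ℝ) ≤ 2 ^ 14 * k * δ := by
        refine le_trans ?_ (hQ (2 ^ b * δ) (by positivity) hb)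
        apply mul_le_mul_of_nonneg_left _ (by positivity)
        exact_mod_cast card_le_card (hsub (2 ^ b * δ) le_rfl)
      have h4 : ((S'.filter (fun j => 2 ^ b ≤ f j)).card : ℝ) ≤ k := by
        exact_mod_cast (card_filter_le _ _).trans hk
      have h5 : ((S'.filter (fun j => 2 ^ b ≤ f j)).card : ℝ) ≤
          k * (if b < 15 then (1 : ℝ) else (1 / 2) ^ (b - 14)) := by
        split_ifs with hb15
        · rw [mul_one]; exact h4
        · have h6 : (2 : ℝ) ^ b * ((S'.filter (fun j => 2 ^ b ≤ f j)).card : ℝ) ≤ 2 ^ 14 * k := by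
            have : δ * ((2 : ℝ) ^ b * ((S'.filter (fun j => 2 ^ b ≤ f j)).card : ℝ)) ≤
                δ * (2 ^ 14 * k) := by linarith
            exact le_of_mul_le_mul_left this hδ
          have h7 : (2 : ℝ) ^ b = 2 ^ 14 * 2 ^ (b - 14) := by
            rw [← pow_add]; congr 1; omega
          rw [h7, mul_assoc] at h6
          have h8 := le_of_mul_le_mul_left h6 (by positivity)
          rw [one_div, inv_pow, ← div_eq_mul_inv, le_div_iff₀ (by positivity), mul_comm]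
          exact h8
      linarith
  have h3 : ((range (15 + t)).filter (fun b => tB < 2 ^ b * δ ∧ 2 ^ b * δ < Y)).card ≤ J0 + 8 := by
    by_cases hemp : ((range (15 + t)).filter (fun b => tB < 2 ^ b * δ ∧ 2 ^ b * δ < Y)).Nonempty
    · set b0 := ((range (15 + t)).filter (fun b => tB < 2 ^ b * δ ∧ 2 ^ b * δ < Y)).min' hemp with hb0
      have hb0m := min'_mem _ hemp
      rw [← hb0, mem_filter] at hb0m
      have hsub : (range (15 + t)).filter (fun b => tB < 2 ^ b * δ ∧ 2 ^ b * δ < Y) ⊆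
          Ico b0 (b0 + (J0 + 8)) := by
        intro b hb
        rw [mem_Ico]
        refine ⟨min'_le _ _ hb, ?_⟩
        by_contra hge
        push Not at hge
        rw [mem_filter] at hb
        have h4 : (2 : ℝ) ^ (b0 + (J0 + 8)) ≤ 2 ^ b := pow_le_pow_right₀ (by norm_num) hge
        have h5 : 2 ^ (J0 + 8) * tB < 2 ^ b * δ := by
          calc 2 ^ (J0 + 8) * tB < 2 ^ (J0 + 8) * (2 ^ b0 * δ) :=
                mul_lt_mul_of_pos_left hb0m.2.1 (by positivity)
            _ = 2 ^ (b0 + (J0 + 8)) * δ := by rw [pow_add]; ring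
            _ ≤ 2 ^ b * δ := mul_le_mul_of_nonneg_right h4 hδ.le
        linarith [hb.2.2]
      refine (card_le_card hsub).trans ?_
      rw [Nat.card_Ico]
      omega
    · rw [not_nonempty_iff_eq_empty] at hemp
      rw [hemp, card_empty]
      omega
  have h4 : ((∑ j ∈ S', Nat.size (f j) : ℕ) : ℝ) ≤ 52 * k := by
    rw [h1]
    push_cast
    calc ∑ b ∈ range (15 + t), ((S'.filter (fun j => 2 ^ b ≤ f j)).card : ℝ)
        ≤ ∑ b ∈ range (15 + t), (k * (if b < 15 then (1 : ℝ) else (1 / 2) ^ (b - 14)) +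
        (if tB < 2 ^ b * δ ∧ 2 ^ b * δ < Y then 8 * (k : ℝ) / 2 ^ J0 else 0)) :=
          sum_le_sum (fun b _ => h2 b)
      _ = k * (16 - (1 / 2) ^ t) + ((range (15 + t)).filter
          (fun b => tB < 2 ^ b * δ ∧ 2 ^ b * δ < Y)).card * (8 * k / 2 ^ J0) := by
          rw [sum_add_distrib, ← mul_sum, geo16, ← sum_filter, sum_const, nsmul_eq_mul]
      _ ≤ k * 16 + ((J0 + 8 : ℕ) : ℝ) * (8 * k / 2 ^ J0) := by
          have h5 : (0 : ℝ) < (1 / 2) ^ t := by positivity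
          have h6 : (((range (15 + t)).filter
            (fun b => tB < 2 ^ b * δ ∧ 2 ^ b * δ < Y)).card : ℝ) ≤ ((J0 + 8 : ℕ) : ℝ) := by
            exact_mod_cast h3
          have h7 : (0 : ℝ) ≤ 8 * k / 2 ^ J0 := by positivity
          have h8 := mul_le_mul_of_nonneg_right h6 h7
          have h9 : (k : ℝ) * (16 - (1 / 2) ^ t) ≤ k * 16 :=
            mul_le_mul_of_nonneg_left (by linarith) hkR
          linarith
      _ ≤ k * 16 + 36 * k := by
          have h5 := pow36 J0 hJ0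
          have h6 : ((J0 + 8 : ℕ) : ℝ) * (8 * k / 2 ^ J0) ≤ 36 * k := by
            rw [← mul_div_assoc, div_le_iff₀ h2J]
            push_cast
            have := mul_le_mul_of_nonneg_right h5 hkR
            linarith
          linarith
      _ = 52 * k := by ring
  exact_mod_cast h4

lemma scale {k NV J : ℕ} (hNV : 1 ≤ NV) (hNk : NV ≤ k) (hJ : k ≤ 2 ^ J * NV) :
    ∃ i, i ≤ J ∧ 2 ^ i ≤ k ∧ k / 2 ^ i ≤ NV ∧ 2 ^ i * NV ≤ 2 * k := by
  classical
  have hex : ∃ i, k / 2 ^ i ≤ NV := ⟨J, Nat.div_le_of_le_mul hJ⟩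
  refine ⟨Nat.find hex, Nat.find_min' hex (Nat.div_le_of_le_mul hJ), ?_, Nat.find_spec hex, ?_⟩
  · rcases Nat.eq_zero_or_pos (Nat.find hex) with h | h
    · rw [h, pow_zero]; omega
    · obtain ⟨i, hi⟩ : ∃ i, Nat.find hex = i + 1 := ⟨Nat.find hex - 1, by omega⟩
      have h1 := Nat.find_min hex (m := i) (by omega)
      push Not at h1
      have h2 : (NV + 1) * 2 ^ i ≤ k := (Nat.le_div_iff_mul_le (by positivity)).mp h1
      rw [hi, pow_succ]
      have h3 : 2 * 2 ^ i ≤ (NV + 1) * 2 ^ i := Nat.mul_le_mul_right _ (by omega)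
      omega
  · rcases Nat.eq_zero_or_pos (Nat.find hex) with h | h
    · rw [h, pow_zero]; omega
    · obtain ⟨i, hi⟩ : ∃ i, Nat.find hex = i + 1 := ⟨Nat.find hex - 1, by omega⟩
      have h1 := Nat.find_min hex (m := i) (by omega)
      push Not at h1
      have h2 : (NV + 1) * 2 ^ i ≤ k := (Nat.le_div_iff_mul_le (by positivity)).mp h1
      rw [hi, pow_succ]
      have h3 : 2 ^ i * 2 * NV = 2 * (NV * 2 ^ i) := by ring
      have h4 : NV * 2 ^ i ≤ (NV + 1) * 2 ^ i := Nat.mul_le_mul_right _ (by omega)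
      omega

/-- the mass of the heavy atoms is small, so some dyadic level is rich -/
lemma core1 {n k J0 : ℕ} (hk : 1 ≤ k) (g : Fin n → ℝ)
    (S : Finset (Fin n)) (hSk : S.card ≤ k) (W Vm tB : ℝ) (hW : W = ∑ j ∈ S, |g j|)
    (hVm : Vm = ∑ j ∈ Sᶜ, |g j|) (htBd : tB = 2 ^ J0 * W / (8 * k)) (hW0 : 0 < W)
    (h16 : 16 * Vm < W)
    (hE : ∀ V ⊆ S, ∀ t : ℝ, 0 ≤ t → 2 ^ J0 * V.card ≤ 8 * k → (∀ j ∈ S \ V, |g j| ≤ t) →
      64 * 2 ^ J0 * ∑ j ∈ V, |g j| ≤ 16 * k * t + 2 * 2 ^ J0 * ∑ j ∈ S, |g j| +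
        66 * 2 ^ J0 * ∑ j ∈ Sᶜ, |g j|) :
    2 ^ J0 * ((S.filter (fun j => tB ≤ |g j|)).card : ℝ) ≤ 8 * k ∧
    ∃ y : ℝ, 0 < y ∧ y ≤ tB ∧ (∀ y' : ℝ, 0 < y' → y' ≤ tB →
      y' * ((S.filter (fun j => y' ≤ |g j|)).card : ℝ) ≤
        y * ((S.filter (fun j => y ≤ |g j|)).card : ℝ)) ∧
      W ≤ 2 * J0 * (y * ((S.filter (fun j => y ≤ |g j|)).card : ℝ)) := by
  classical
  have hkR : (0 : ℝ) < k := by exact_mod_cast hk
  have h2J : (0 : ℝ) < 2 ^ J0 := by positivity
  have htB : 0 < tB := by rw [htBd]; positivity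
  set VB := S.filter (fun j => tB ≤ |g j|) with hVB
  have hVBS : VB ⊆ S := filter_subset _ _
  have hc1 : (VB.card : ℝ) * tB ≤ W := by
    rw [← nsmul_eq_mul, ← sum_const, hW]
    calc ∑ j ∈ VB, tB ≤ ∑ j ∈ VB, |g j| := sum_le_sum (fun j hj => (mem_filter.mp hj).2)
      _ ≤ _ := sum_le_sum_of_subset_of_nonneg hVBS (fun _ _ _ => abs_nonneg _)
  have hc2 : 2 ^ J0 * (VB.card : ℝ) ≤ 8 * k := by
    rw [htBd] at hc1
    have h1 : (VB.card : ℝ) * (2 ^ J0 * W) ≤ W * (8 * k) := by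
      rw [mul_div_assoc', div_le_iff₀ (by positivity)] at hc1
      exact hc1
    have h2 : W * (2 ^ J0 * (VB.card : ℝ)) ≤ W * (8 * k) := by linarith
    exact le_of_mul_le_mul_left h2 hW0
  refine ⟨hc2, ?_⟩
  have hc3 : 2 ^ J0 * VB.card ≤ 8 * k := by exact_mod_cast hc2
  have hE1 := hE VB hVBS tB htB.le hc3 (fun j hj => by
    rw [mem_sdiff, hVB, mem_filter] at hj
    by_contra h
    exact hj.2 ⟨hj.1, (not_le.mp h).le⟩)
  rw [← hW, ← hVm] at hE1
  have e1 : 16 * (k : ℝ) * tB = 2 * 2 ^ J0 * W := by rw [htBd]; field_simp; norm_num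
  rw [e1] at hE1
  set μ := ∑ j ∈ VB, |g j| with hμ
  have hμ1 : 64 * μ ≤ 4 * W + 66 * Vm := by
    have : 2 ^ J0 * (64 * μ) ≤ 2 ^ J0 * (4 * W + 66 * Vm) := by linarith
    exact le_of_mul_le_mul_left this h2J
  have hrest : ∑ j ∈ S \ VB, |g j| = W - μ := by
    have := sum_sdiff (f := fun j => |g j|) hVBS
    rw [hW, hμ]
    linarith
  have hrest2 : 3 / 4 * W ≤ ∑ j ∈ S \ VB, |g j| := by
    rw [hrest]
    linarith
  have hne : ∃ j ∈ S, g j ≠ 0 := by
    by_contra h
    push Not at h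
    have : W = 0 := by
      rw [hW]
      exact sum_eq_zero (fun j hj => by rw [h j hj, abs_zero])
    linarith
  obtain ⟨y, hy0, hyt, hmax⟩ := weak S g tB htB hne
  refine ⟨y, hy0, hyt, hmax, ?_⟩
  set Q := y * ((S.filter (fun j => y ≤ |g j|)).card : ℝ) with hQ
  set x0 := W / (4 * k) with hx0
  have hx0p : 0 < x0 := by positivity
  have e2 : 2 ^ J0 * x0 = 2 * tB := by rw [hx0, htBd]; field_simp; norm_num
  have hm := mass_le S (S \ VB) sdiff_subset g x0 Q hx0p J0 (fun j hj => by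
      rw [mem_sdiff, hVB, mem_filter] at hj
      rw [e2]
      have : |g j| < tB := by
        by_contra h
        exact hj.2 ⟨hj.1, not_lt.mp h⟩
      linarith) (fun b hb => by
      apply hmax _ (by positivity)
      have h1 : (2 : ℝ) ^ b * 2 ≤ 2 ^ J0 := by
        rw [← pow_succ]
        exact pow_le_pow_right₀ (by norm_num) hb
      have h2 : (2 : ℝ) ^ b * 2 * x0 ≤ 2 ^ J0 * x0 := mul_le_mul_of_nonneg_right h1 hx0p.le
      linarith)
  have h3 : ((S \ VB).card : ℝ) * x0 ≤ W / 4 := by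
    have h4 : ((S \ VB).card : ℝ) ≤ k := by
      exact_mod_cast (card_le_card sdiff_subset).trans hSk
    calc ((S \ VB).card : ℝ) * x0 ≤ k * x0 := mul_le_mul_of_nonneg_right h4 hx0p.le
      _ = W / 4 := by rw [hx0]; field_simp
  linarith

lemma round_exists {n : ℕ} (g : Fin n → ℝ) (S' : Finset (Fin n)) (δ : ℝ) (hδ : 0 < δ) :
    ∃ (z : Fin n → ℤ) (fl : Fin n → ℕ), (∀ j ∈ S', (z j).natAbs = fl j) ∧
      (∀ j, j ∉ S' → z j = 0) ∧ (∀ j, (fl j : ℝ) * δ ≤ |g j|) ∧
      (∀ j ∈ S', |g j / δ - (z j : ℝ)| ≤ 1) ∧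
      (∀ (y : ℝ) (j : Fin n), y ≤ |g j| → ⌊y / δ⌋₊ ≤ fl j) := by
  classical
  have hfl1 : ∀ j, (⌊|g j| / δ⌋₊ : ℝ) * δ ≤ |g j| := by
    intro j
    rw [← le_div_iff₀ hδ]
    exact Nat.floor_le (div_nonneg (abs_nonneg _) hδ.le)
  have hfl2 : ∀ j, |g j| / δ < ⌊|g j| / δ⌋₊ + 1 := fun j => Nat.lt_floor_add_one _
  refine ⟨fun j => if j ∈ S' then (if 0 ≤ g j then (⌊|g j| / δ⌋₊ : ℤ) else -(⌊|g j| / δ⌋₊ : ℤ)) else 0,
    fun j => ⌊|g j| / δ⌋₊, ?_, ?_, hfl1, ?_, ?_⟩
  · intro j hj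
    simp only
    rw [if_pos hj]
    split_ifs <;> simp
  · intro j hj
    simp only
    rw [if_neg hj]
  · intro j hj
    have h1 := hfl1 j
    have h1' : (⌊|g j| / δ⌋₊ : ℝ) ≤ |g j| / δ := by rw [le_div_iff₀ hδ]; exact h1
    have h2 := hfl2 j
    simp only
    rw [if_pos hj]
    generalize ⌊|g j| / δ⌋₊ = f at *
    split_ifs with h3
    · rw [abs_of_nonneg h3] at h1' h2
      push_cast
      rw [abs_le]
      constructor <;> linarith
    · rw [abs_of_neg (not_le.mp h3), neg_div] at h1' h2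
      push_cast
      rw [abs_le]
      constructor <;> linarith
  · intro y j hy
    exact Nat.floor_mono (div_le_div_of_nonneg_right hy hδ.le)

lemma core2b {n k J0 m : ℕ} (A : Fin m → Fin n → ℝ)
    (hT : ∀ j, ∑ r, |A r j| ≤ 2 * J0 + 1)
    (g : Fin n → ℝ) (hg : ∀ r, ∑ j, A r j * g j = 0)
    (S D : Finset (Fin n)) (hDS : D ⊆ S) (δ : ℝ) (hδ : 0 < δ) (z : Fin n → ℤ)
    (hU : ∀ z : Fin n → ℤ, (∀ j, j ∉ S → z j = 0) →
        (∀ j, (z j).natAbs ≤ 1) → ∑ r, |∑ j, A r j * (z j : ℝ)| ≤ 7 * k)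
    (hz0 : ∀ j, j ∉ S \ D → z j = 0) (hz1 : ∀ j ∈ S \ D, |g j / δ - (z j : ℝ)| ≤ 1)
    (hlow : (17 : ℝ) * k ≤ ∑ r ∈ univ.filter (fun r => ∀ j ∈ D, A r j = 0),
            |∑ j, A r j * (z j : ℝ)|) :
    10 * k * δ ≤ (2 * J0 + 1) * ∑ j ∈ Sᶜ, |g j| := by
  classical
  have hδ1 : 0 < 1 / δ := one_div_pos.mpr hδ
  obtain ⟨v, hv⟩ : ∃ v : Fin n → ℝ, v = fun j => if j ∈ S \ D then g j / δ - (z j : ℝ) else 0 :=
    ⟨_, rfl⟩
  have hvin : ∀ j ∈ S \ D, v j = g j / δ - (z j : ℝ) := by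
    intro j hj
    rw [hv]
    simp only
    rw [if_pos hj]
  have hvout : ∀ j, j ∉ S \ D → v j = 0 := by
    intro j hj
    rw [hv]
    simp only
    rw [if_neg hj]
  have hv0 : ∀ j, j ∉ S → v j = 0 := fun j hj => hvout j (fun h => hj (mem_sdiff.mp h).1)
  have hv1 : ∀ j, |v j| ≤ 1 := by
    intro j
    by_cases hj : j ∈ S \ D
    · rw [hvin j hj]
      exact hz1 j hj
    · rw [hvout j hj, abs_zero]
      exact zero_le_one
  have hUv := convU A S (7 * k) hU v hv0 hv1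
  have hrow : ∀ r ∈ univ.filter (fun r => ∀ j ∈ D, A r j = 0),
      |∑ j, A r j * (z j : ℝ)| ≤ (1 / δ) * ∑ j ∈ Sᶜ, |A r j| * |g j| + |∑ j, A r j * v j| := by
    intro r hr
    have hrD := (mem_filter.mp hr).2
    have e1 : ∑ j, A r j * (z j : ℝ) = ∑ j ∈ S \ D, A r j * (g j / δ) - ∑ j, A r j * v j := by
      have h1 : ∀ j, A r j * (z j : ℝ) = (if j ∈ S \ D then A r j * (g j / δ) else 0) - A r j * v j := by
        intro j
        by_cases hj : j ∈ S \ D
        · rw [hvin j hj, if_pos hj]; ring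
        · rw [hvout j hj, if_neg hj, hz0 j hj]; simp
      rw [sum_congr rfl (fun j _ => h1 j), sum_sub_distrib, sum_ite_mem, univ_inter]
    have e2 : ∑ j ∈ S \ D, A r j * g j = -∑ j ∈ Sᶜ, A r j * g j := by
      have h1 := hg r
      rw [← sum_add_sum_compl S, ← sum_sdiff hDS] at h1
      have h2 : ∑ j ∈ D, A r j * g j = 0 := sum_eq_zero (fun j hj => by rw [hrD j hj, zero_mul])
      rw [h2] at h1
      linarith
    have e3 : ∑ j ∈ S \ D, A r j * (g j / δ) = (1 / δ) * ∑ j ∈ S \ D, A r j * g j := by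
      rw [mul_sum]
      apply sum_congr rfl
      intro j _
      ring
    rw [e1, e3, e2]
    have h3 : |(1 / δ) * -∑ j ∈ Sᶜ, A r j * g j| ≤ (1 / δ) * ∑ j ∈ Sᶜ, |A r j| * |g j| := by
      rw [abs_mul, abs_neg, abs_of_pos hδ1]
      apply mul_le_mul_of_nonneg_left _ hδ1.le
      refine (abs_sum_le_sum_abs _ _).trans (le_of_eq ?_)
      apply sum_congr rfl
      intro j _
      exact abs_mul _ _
    exact (abs_sub _ _).trans (by linarith)
  have hsum1 : ∑ r ∈ univ.filter (fun r => ∀ j ∈ D, A r j = 0), |∑ j, A r j * (z j : ℝ)| ≤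
      (1 / δ) * ((2 * J0 + 1) * ∑ j ∈ Sᶜ, |g j|) + 7 * k := by
    refine (sum_le_sum hrow).trans ?_
    rw [sum_add_distrib, ← mul_sum]
    have h1 : ∑ r ∈ univ.filter (fun r => ∀ j ∈ D, A r j = 0), ∑ j ∈ Sᶜ, |A r j| * |g j| ≤
        (2 * J0 + 1) * ∑ j ∈ Sᶜ, |g j| := by
      calc _ ≤ ∑ r : Fin m, ∑ j ∈ Sᶜ, |A r j| * |g j| :=
            sum_le_sum_of_subset_of_nonneg (subset_univ _)
              (fun _ _ _ => sum_nonneg fun _ _ => mul_nonneg (abs_nonneg _) (abs_nonneg _))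
        _ = ∑ j ∈ Sᶜ, (∑ r, |A r j|) * |g j| := by
            rw [sum_comm]
            apply sum_congr rfl
            intro j _
            rw [sum_mul]
        _ ≤ ∑ j ∈ Sᶜ, (2 * J0 + 1) * |g j| :=
            sum_le_sum (fun j _ => mul_le_mul_of_nonneg_right (hT j) (abs_nonneg _))
        _ = (2 * J0 + 1) * ∑ j ∈ Sᶜ, |g j| := by rw [← mul_sum]
    have h2 : ∑ r ∈ univ.filter (fun r => ∀ j ∈ D, A r j = 0), |∑ j, A r j * v j| ≤ 7 * k :=
      (sum_le_sum_of_subset_of_nonneg (subset_univ _) (fun _ _ _ => abs_nonneg _)).trans hUv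
    have h3 := mul_le_mul_of_nonneg_left h1 hδ1.le
    linarith
  have h17 : 10 * (k : ℝ) ≤ (1 / δ) * ((2 * J0 + 1) * ∑ j ∈ Sᶜ, |g j|) := by linarith
  rwa [one_div_mul_eq_div, le_div_iff₀ hδ] at h17

lemma core2 {n k J0 m : ℕ} (hk : 1 ≤ k) (hJ0 : 1 ≤ J0) (A : Fin m → Fin n → ℝ)
    (hT : ∀ j, ∑ r, |A r j| ≤ 2 * J0 + 1)
    (hU : ∀ S : Finset (Fin n), Clo S → S.card ≤ k → ∀ z : Fin n → ℤ, (∀ j, j ∉ S → z j = 0) →
        (∀ j, (z j).natAbs ≤ 1) → ∑ r, |∑ j, A r j * (z j : ℝ)| ≤ 7 * k)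
    (hLow : ∀ S : Finset (Fin n), Clo S → S.card ≤ k → ∀ D ⊆ S, 32 * 2 ^ (2 * J0) * D.card ≤ k →
        ∀ z : Fin n → ℤ, (∀ j, j ∉ S → z j = 0) → ∑ j, Nat.size (z j).natAbs ≤ 52 * k →
        ∀ i l : ℕ, i ≤ 2 * J0 → 2 ^ i ≤ k → 1 ≤ l →
          k / 2 ^ i ≤ (univ.filter (fun j => l ≤ (z j).natAbs)).card → 2 ^ 14 * 2 ^ i ≤ 5 * l →
          (2 ^ 14 / 960 : ℝ) * k ≤ ∑ r ∈ univ.filter (fun r => ∀ j ∈ D, A r j = 0),
            |∑ j, A r j * (z j : ℝ)|)
    (g : Fin n → ℝ) (hg : ∀ r, ∑ j, A r j * g j = 0)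
    (S : Finset (Fin n)) (hS : Clo S) (hSk : S.card ≤ k)
    (W tB : ℝ) (hW : W = ∑ j ∈ S, |g j|)
    (htBd : tB = 2 ^ J0 * W / (8 * k)) (hW0 : 0 < W)
    (hB : 2 ^ J0 * ((S.filter (fun j => tB ≤ |g j|)).card : ℝ) ≤ 8 * k)
    (y : ℝ) (hy0 : 0 < y) (hyt : y ≤ tB) (hmax : ∀ y' : ℝ, 0 < y' → y' ≤ tB →
      y' * ((S.filter (fun j => y' ≤ |g j|)).card : ℝ) ≤
        y * ((S.filter (fun j => y ≤ |g j|)).card : ℝ))
    (hWQ : W ≤ 2 * J0 * (y * ((S.filter (fun j => y ≤ |g j|)).card : ℝ))) :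
    10 * (y * ((S.filter (fun j => y ≤ |g j|)).card : ℝ)) ≤
      2 ^ 14 * (2 * J0 + 1) * ∑ j ∈ Sᶜ, |g j| := by
  classical
  have hkR : (0 : ℝ) < k := by exact_mod_cast hk
  have hJR : (1 : ℝ) ≤ J0 := by exact_mod_cast hJ0
  have htB : 0 < tB := hy0.trans_le hyt
  obtain ⟨Vs, hVs⟩ : ∃ Vs, Vs = S.filter (fun j => y ≤ |g j|) := ⟨_, rfl⟩
  rw [← hVs] at hmax hWQ ⊢
  have hVsS : Vs ⊆ S := by rw [hVs]; exact filter_subset _ _
  obtain ⟨Ns, hNs⟩ : ∃ Ns : ℝ, Ns = (Vs.card : ℝ) := ⟨_, rfl⟩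
  rw [← hNs] at hmax hWQ ⊢
  obtain ⟨Q, hQ⟩ : ∃ Q : ℝ, Q = y * Ns := ⟨_, rfl⟩
  rw [← hQ] at hmax hWQ ⊢
  have hQ0 : 0 < Q := by
    by_contra h
    push Not at h
    have : 2 * (J0 : ℝ) * Q ≤ 0 := mul_nonpos_of_nonneg_of_nonpos (by linarith) h
    linarith
  have hNs0 : 0 < Ns := by
    by_contra h
    push Not at h
    have : y * Ns ≤ 0 := mul_nonpos_of_nonneg_of_nonpos hy0.le h
    linarith
  have hNsk : Ns ≤ k := by
    rw [hNs]
    exact_mod_cast (card_le_card hVsS).trans hSk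
  -- lower bound on Ns
  obtain ⟨Γ, hΓ⟩ : ∃ Γ : ℝ, Γ = 2 ^ J0 := ⟨_, rfl⟩
  have hΓ0 : 0 < Γ := by rw [hΓ]; positivity
  have hJΓ : (J0 : ℝ) ≤ Γ := by
    rw [hΓ]
    exact_mod_cast (Nat.lt_two_pow_self (n := J0)).le
  rw [← hΓ] at htBd hB
  have hNsΓ : 4 * k ≤ Ns * Γ ^ 2 := by
    have h1 : Q ≤ tB * Ns := by rw [hQ]; exact mul_le_mul_of_nonneg_right hyt hNs0.le
    have h2 : W ≤ 2 * J0 * (tB * Ns) := hWQ.trans (by gcongr)
    have h3 : 2 * (J0 : ℝ) * (tB * Ns) = W * (J0 * Γ * Ns / (4 * k)) := by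
      rw [htBd]; field_simp; norm_num
    rw [h3] at h2
    have h4 : 1 ≤ J0 * Γ * Ns / (4 * k) := by
      by_contra h
      push Not at h
      have := mul_lt_mul_of_pos_left h hW0
      linarith
    rw [le_div_iff₀ (by positivity)] at h4
    have h5 : (J0 : ℝ) * Γ * Ns ≤ Γ * Γ * Ns := by gcongr
    linarith [sq Γ]
  have hΓ2 : ((2 : ℝ) ^ (2 * J0)) = Γ ^ 2 := by rw [hΓ, ← pow_mul, mul_comm]
  have hΓs : 0 < Γ ^ 2 := by positivity
  obtain ⟨δ, hδ⟩ : ∃ δ : ℝ, δ = Q / (2 ^ 14 * k) := ⟨_, rfl⟩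
  have hδ0 : 0 < δ := by rw [hδ]; positivity
  have hQδ : Q = 2 ^ 14 * k * δ := by rw [hδ]; field_simp
  have hyδ : 2 ^ 14 * δ ≤ y := by
    have h1 : Q ≤ y * k := by rw [hQ]; exact mul_le_mul_of_nonneg_left hNsk hy0.le
    rw [hδ, mul_div_assoc', div_le_iff₀ (by positivity)]
    linarith
  clear hδ
  -- the set D
  obtain ⟨Y, hY⟩ : ∃ Y : ℝ, Y = 32 * Γ ^ 2 * W / k := ⟨_, rfl⟩
  obtain ⟨D, hD⟩ : ∃ D, D = S.filter (fun j => Y ≤ |g j|) := ⟨_, rfl⟩
  have hDS : D ⊆ S := by rw [hD]; exact filter_subset _ _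
  have hDc : 32 * Γ ^ 2 * (D.card : ℝ) ≤ k := by
    have h1 : (D.card : ℝ) * Y ≤ W := by
      rw [← nsmul_eq_mul, ← sum_const, hW]
      calc ∑ j ∈ D, Y ≤ ∑ j ∈ D, |g j| :=
            sum_le_sum (fun j hj => by rw [hD] at hj; exact (mem_filter.mp hj).2)
        _ ≤ _ := sum_le_sum_of_subset_of_nonneg hDS (fun _ _ _ => abs_nonneg _)
    rw [hY, mul_div_assoc', div_le_iff₀ hkR] at h1
    have h2 : W * (32 * Γ ^ 2 * (D.card : ℝ)) ≤ W * k := by linarith
    exact le_of_mul_le_mul_left h2 hW0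
  have hDcN : 32 * 2 ^ (2 * J0) * D.card ≤ k := by
    have h1 := hDc
    rw [← hΓ2] at h1
    exact_mod_cast h1
  -- rounding
  obtain ⟨z, fl, hzabs, hz0, hfl1, hz1, hflm⟩ := round_exists g (S \ D) δ hδ0
  have hz0S : ∀ j, j ∉ S → z j = 0 := fun j hj => hz0 j (fun h => hj (mem_sdiff.mp h).1)
  have hsz : ∑ j, Nat.size (z j).natAbs ≤ 52 * k := by
    have e : ∑ j, Nat.size (z j).natAbs = ∑ j ∈ S \ D, Nat.size (fl j) := by
      rw [← sum_subset (subset_univ (S \ D))]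
      · apply sum_congr rfl
        intro j hj
        rw [hzabs j hj]
      · intro j _ hj
        rw [hz0 j hj]
        rfl
    rw [e]
    have hfilt : ∀ y' : ℝ, ((((S \ D).filter (fun j => y' ≤ |g j|)).card : ℕ) : ℝ) ≤
        ((S.filter (fun j => y' ≤ |g j|)).card : ℝ) := by
      intro y'
      exact_mod_cast card_le_card (filter_subset_filter _ sdiff_subset)
    apply sizes hJ0 (S \ D) fl g δ tB Y hδ0 htB ((card_le_card sdiff_subset).trans hSk)
      (fun j _ => hfl1 j)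
    · intro j hj
      rw [mem_sdiff, hD, mem_filter] at hj
      by_contra h
      exact hj.2 ⟨hj.1, not_lt.mp h⟩
    · intro y' hy' hy't
      rw [← hQδ]
      exact (mul_le_mul_of_nonneg_left (hfilt y') hy'.le).trans (hmax y' hy' hy't)
    · rw [← hΓ]
      exact (mul_le_mul_of_nonneg_left (hfilt tB) hΓ0.le).trans hB
    · rw [hY, htBd, pow_add, ← hΓ]
      apply le_of_eq
      field_simp
      norm_num
  -- the level
  obtain ⟨l, hl⟩ : ∃ l, l = ⌊y / δ⌋₊ := ⟨_, rfl⟩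
  have hyδ2 : 2 ^ 14 ≤ y / δ := by rw [le_div_iff₀ hδ0]; exact hyδ
  have hl1 : 1 ≤ l := by
    rw [hl]
    apply Nat.le_floor
    push_cast
    linarith
  have hl2 : y / δ ≤ 2 * l := by
    have h1 := Nat.lt_floor_add_one (y / δ)
    rw [← hl] at h1
    have h2 : (1 : ℝ) ≤ l := by exact_mod_cast hl1
    linarith
  obtain ⟨NV, hNV⟩ : ∃ NV, NV = (Vs \ D).card := ⟨_, rfl⟩
  have hNVl : Ns - D.card ≤ NV := by
    have h1 : Vs.card ≤ (Vs \ D).card + D.card := by
      have := card_le_card (subset_union_left (s₁ := Vs) (s₂ := D))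
      rw [← sdiff_union_self_eq_union] at this
      exact this.trans (card_union_le _ _)
    rw [← hNV] at h1
    have h2 : (Vs.card : ℝ) ≤ NV + D.card := by exact_mod_cast h1
    rw [hNs]
    linarith
  have hDN : 128 * (D.card : ℝ) ≤ Ns := by
    have h1 : Γ ^ 2 * (128 * (D.card : ℝ)) ≤ Γ ^ 2 * Ns := by linarith
    exact le_of_mul_le_mul_left h1 hΓs
  have hNVN : 127 / 128 * Ns ≤ NV := by linarith
  have hNV1 : 1 ≤ NV := by
    have h1 : (0 : ℝ) < NV := by linarith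
    exact_mod_cast h1
  have hNVk : NV ≤ k := by
    rw [hNV]
    exact (card_le_card (sdiff_subset.trans hVsS)).trans hSk
  have hkNV : k ≤ 2 ^ (2 * J0) * NV := by
    have h1 : (k : ℝ) ≤ 2 ^ (2 * J0) * NV := by
      rw [hΓ2]
      have : Γ ^ 2 * (127 / 128 * Ns) ≤ Γ ^ 2 * NV := mul_le_mul_of_nonneg_left hNVN hΓs.le
      linarith
    exact_mod_cast h1
  obtain ⟨i, hiJ, hik, hikN, hiN⟩ := scale hNV1 hNVk hkNV
  have hcount : k / 2 ^ i ≤ (univ.filter (fun j => l ≤ (z j).natAbs)).card := by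
    rw [hNV] at hikN
    refine hikN.trans (card_le_card ?_)
    intro j hj
    rw [mem_filter]
    refine ⟨mem_univ _, ?_⟩
    rw [mem_sdiff, hVs, mem_filter] at hj
    rw [hzabs j (mem_sdiff.mpr ⟨hj.1.1, hj.2⟩), hl]
    exact hflm y j hj.1.2
  have hil : 2 ^ 14 * 2 ^ i ≤ 5 * l := by
    have h1 : (2 : ℝ) ^ i * NV ≤ 2 * k := by exact_mod_cast hiN
    have h2 : (2 : ℝ) ^ i * (127 / 128 * Ns) ≤ 2 * k :=
      (mul_le_mul_of_nonneg_left hNVN (by positivity)).trans h1
    have h3 : y / δ * Ns = 2 ^ 14 * k := by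
      rw [div_mul_eq_mul_div, div_eq_iff hδ0.ne', ← hQ]
      exact hQδ
    have h4 : (2 ^ 14 : ℝ) * 2 ^ i * Ns ≤ 5 * l * Ns := by
      have h5 : y / δ * Ns ≤ 2 * l * Ns := mul_le_mul_of_nonneg_right hl2 hNs0.le
      rw [h3] at h5
      have h6 : 0 ≤ (l : ℝ) * Ns := mul_nonneg (Nat.cast_nonneg _) hNs0.le
      linarith
    have h5 := le_of_mul_le_mul_right h4 hNs0
    exact_mod_cast h5
  have hlow := hLow S hS hSk D hDS hDcN z hz0S hsz i l hiJ hik hl1 hcount hil
  have h17 : (17 : ℝ) * k ≤ 2 ^ 14 / 960 * k := by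
    apply mul_le_mul_of_nonneg_right _ hkR.le
    norm_num
  have hfin := core2b (k := k) A hT g hg S D hDS δ hδ0 z (hU S hS hSk) hz0 hz1 (h17.trans hlow)
  rw [hQδ]
  linarith

lemma core {n k J0 m : ℕ} (hk : 1 ≤ k) (hJ0 : 1 ≤ J0) (A : Fin m → Fin n → ℝ)
    (hT : ∀ j, ∑ r, |A r j| ≤ 2 * J0 + 1)
    (hU : ∀ S : Finset (Fin n), Clo S → S.card ≤ k → ∀ z : Fin n → ℤ, (∀ j, j ∉ S → z j = 0) →
        (∀ j, (z j).natAbs ≤ 1) → ∑ r, |∑ j, A r j * (z j : ℝ)| ≤ 7 * k)
    (hLow : ∀ S : Finset (Fin n), Clo S → S.card ≤ k → ∀ D ⊆ S, 32 * 2 ^ (2 * J0) * D.card ≤ k →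
        ∀ z : Fin n → ℤ, (∀ j, j ∉ S → z j = 0) → ∑ j, Nat.size (z j).natAbs ≤ 52 * k →
        ∀ i l : ℕ, i ≤ 2 * J0 → 2 ^ i ≤ k → 1 ≤ l →
          k / 2 ^ i ≤ (univ.filter (fun j => l ≤ (z j).natAbs)).card → 2 ^ 14 * 2 ^ i ≤ 5 * l →
          (2 ^ 14 / 960 : ℝ) * k ≤ ∑ r ∈ univ.filter (fun r => ∀ j ∈ D, A r j = 0),
            |∑ j, A r j * (z j : ℝ)|)
    (g : Fin n → ℝ) (hg : ∀ r, ∑ j, A r j * g j = 0)
    (S : Finset (Fin n)) (hS : Clo S) (hSk : S.card ≤ k)
    (hE : ∀ V ⊆ S, ∀ t : ℝ, 0 ≤ t → 2 ^ J0 * V.card ≤ 8 * k → (∀ j ∈ S \ V, |g j| ≤ t) →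
      64 * 2 ^ J0 * ∑ j ∈ V, |g j| ≤ 16 * k * t + 2 * 2 ^ J0 * ∑ j ∈ S, |g j| +
        66 * 2 ^ J0 * ∑ j ∈ Sᶜ, |g j|) :
    ∑ j ∈ S, |g j| ≤ 9831 * J0 ^ 2 * ∑ j ∈ Sᶜ, |g j| := by
  set W := ∑ j ∈ S, |g j| with hW
  set Vm := ∑ j ∈ Sᶜ, |g j| with hVm
  have hVm0 : 0 ≤ Vm := sum_nonneg fun _ _ => abs_nonneg _
  have hJR : (1 : ℝ) ≤ J0 := by exact_mod_cast hJ0
  by_contra hcon
  push Not at hcon
  have hJ2 : (1 : ℝ) ≤ (J0 : ℝ) ^ 2 := one_le_pow₀ hJR
  have h16 : 16 * Vm < W := by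
    have : 16 * Vm ≤ 9831 * (J0 : ℝ) ^ 2 * Vm := by
      apply mul_le_mul_of_nonneg_right _ hVm0
      linarith
    linarith
  have hW0 : 0 < W := by linarith
  obtain ⟨hB, y, hy0, hyt, hmax, hWQ⟩ := core1 (J0 := J0) hk g S hSk W Vm _ hW hVm rfl hW0 h16 hE
  have h2 := core2 hk hJ0 A hT hU hLow g hg S hS hSk W _ hW rfl hW0 hB y hy0 hyt hmax hWQ
  rw [← hVm] at h2
  set Q := y * ((S.filter (fun j => y ≤ |g j|)).card : ℝ) with hQ
  have h3 : 10 * W ≤ 2 * J0 * (2 ^ 14 * (2 * J0 + 1) * Vm) := by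
    calc 10 * W ≤ 10 * (2 * J0 * Q) := by linarith
      _ = 2 * J0 * (10 * Q) := by ring
      _ ≤ _ := mul_le_mul_of_nonneg_left h2 (by positivity)
  have h4 : 2 * (J0 : ℝ) * (2 ^ 14 * (2 * J0 + 1) * Vm) ≤ 2 * J0 * (2 ^ 14 * (3 * J0) * Vm) := by
    gcongr
    linarith
  have h5 : 2 * (J0 : ℝ) * (2 ^ 14 * (3 * J0) * Vm) = 98304 * (J0 ^ 2 * Vm) := by ring
  have h6 : 0 ≤ (J0 : ℝ) ^ 2 * Vm := by positivity
  linarith

lemma decoder {m n : ℕ} (A : Matrix (Fin m) (Fin n) ℝ) (𝒯 : Finset (Finset (Fin n))) (c : ℝ)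
    (hc : 0 ≤ c)
    (hnsp : ∀ g : Fin n → ℝ, A.mulVec g = 0 → ∀ T ∈ 𝒯, ∀ T' ∈ 𝒯,
      ∑ j ∈ T ∪ T', |g j| ≤ c * ∑ j ∈ (T ∪ T')ᶜ, |g j|) :
    ∃ R : (Fin m → ℝ) → (Fin n → ℝ), ∀ x : Fin n → ℝ, ∀ T ∈ 𝒯,
      ∑ i, |R (A.mulVec x) i - x i| ≤ 2 * (1 + c) * ∑ j ∈ Tᶜ, |x j| := by
  classical
  by_cases hne : 𝒯.Nonempty
  swap
  · rw [not_nonempty_iff_eq_empty] at hne
    subst hne
    exact ⟨fun _ => 0, fun x T hT => absurd hT (notMem_empty T)⟩
  obtain ⟨σ, hσ⟩ : ∃ σ : (Fin n → ℝ) → ℝ, σ = fun z => 𝒯.inf' hne (fun T => ∑ j ∈ Tᶜ, |z j|) :=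
    ⟨_, rfl⟩
  have hσle : ∀ z, ∀ T ∈ 𝒯, σ z ≤ ∑ j ∈ Tᶜ, |z j| := by
    intro z T hT
    rw [hσ]
    exact inf'_le _ hT
  have hσeq : ∀ z, ∃ T ∈ 𝒯, σ z = ∑ j ∈ Tᶜ, |z j| := by
    intro z
    rw [hσ]
    exact exists_mem_eq_inf' hne _
  have hσ0 : ∀ z, 0 ≤ σ z := by
    intro z
    obtain ⟨T, _, h⟩ := hσeq z
    rw [h]
    exact sum_nonneg fun _ _ => abs_nonneg _
  have hσc : Continuous σ := by
    rw [hσ]
    apply Continuous.finset_inf'_apply
    intro T _
    fun_prop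
  have key : ∀ z x : Fin n → ℝ, A.mulVec z = A.mulVec x →
      ∑ i, |z i - x i| ≤ (1 + c) * (σ z + σ x) := by
    intro z x hzx
    obtain ⟨T, hT, hTz⟩ := hσeq z
    obtain ⟨T', hT', hTx⟩ := hσeq x
    have h1 := hnsp (z - x) (by rw [Matrix.mulVec_sub, hzx, sub_self]) T hT T' hT'
    have h2 : ∑ j ∈ (T ∪ T')ᶜ, |(z - x) j| ≤ σ z + σ x := by
      calc ∑ j ∈ (T ∪ T')ᶜ, |(z - x) j| ≤ ∑ j ∈ (T ∪ T')ᶜ, (|z j| + |x j|) :=
            sum_le_sum (fun j _ => abs_sub _ _)
        _ = ∑ j ∈ (T ∪ T')ᶜ, |z j| + ∑ j ∈ (T ∪ T')ᶜ, |x j| := sum_add_distrib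
        _ ≤ ∑ j ∈ Tᶜ, |z j| + ∑ j ∈ T'ᶜ, |x j| := by
          apply add_le_add
          · exact sum_le_sum_of_subset_of_nonneg
              (compl_subset_compl.mpr subset_union_left) (fun _ _ _ => abs_nonneg _)
          · exact sum_le_sum_of_subset_of_nonneg
              (compl_subset_compl.mpr subset_union_right) (fun _ _ _ => abs_nonneg _)
        _ = σ z + σ x := by rw [hTz, hTx]
    have h3 : ∑ i, |z i - x i| = ∑ j ∈ T ∪ T', |(z - x) j| + ∑ j ∈ (T ∪ T')ᶜ, |(z - x) j| :=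
      (sum_add_sum_compl (T ∪ T') (fun j => |(z - x) j|)).symm
    rw [h3]
    have h4 : 0 ≤ ∑ j ∈ (T ∪ T')ᶜ, |(z - x) j| := sum_nonneg fun _ _ => abs_nonneg _
    calc _ ≤ (1 + c) * ∑ j ∈ (T ∪ T')ᶜ, |(z - x) j| := by linarith
      _ ≤ _ := mul_le_mul_of_nonneg_left h2 (by linarith)
  have hmin : ∀ y : Fin m → ℝ, ∃ z : Fin n → ℝ, (∃ x, A.mulVec x = y) →
      (A.mulVec z = y ∧ ∀ z', A.mulVec z' = y → σ z ≤ σ z') := by
    intro y
    by_cases hy : ∃ x, A.mulVec x = y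
    swap
    · exact ⟨0, fun h => absurd h hy⟩
    obtain ⟨x0, hx0⟩ := hy
    have hAc : Continuous (fun z : Fin n → ℝ => A.mulVec z) := by fun_prop
    have hcl : IsClosed {z : Fin n → ℝ | A.mulVec z = y} := isClosed_eq hAc continuous_const
    have hcomp : IsCompact (Metric.closedBall x0 ((1 + c) * (2 * σ x0)) ∩
        {z : Fin n → ℝ | A.mulVec z = y}) := (isCompact_closedBall _ _).inter_right hcl
    have hr0 : 0 ≤ (1 + c) * (2 * σ x0) := by
      have := hσ0 x0
      positivity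
    obtain ⟨z, hz, hzmin⟩ := hcomp.exists_isMinOn
      ⟨x0, Metric.mem_closedBall_self hr0, hx0⟩ hσc.continuousOn
    refine ⟨z, fun _ => ⟨hz.2, fun z' hz' => ?_⟩⟩
    by_cases hball : z' ∈ Metric.closedBall x0 ((1 + c) * (2 * σ x0))
    · exact hzmin ⟨hball, hz'⟩
    · have h1 : σ z ≤ σ x0 := hzmin ⟨Metric.mem_closedBall_self hr0, hx0⟩
      refine h1.trans ?_
      by_contra hlt
      push Not at hlt
      apply hball
      rw [Metric.mem_closedBall, dist_pi_le_iff hr0]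
      intro i
      rw [Real.dist_eq]
      have h2 := key z' x0 (by rw [hz', hx0])
      have h3 : |z' i - x0 i| ≤ ∑ i, |z' i - x0 i| :=
        single_le_sum (f := fun i => |z' i - x0 i|) (fun _ _ => abs_nonneg _) (mem_univ i)
      have h4 : (1 + c) * (σ z' + σ x0) ≤ (1 + c) * (2 * σ x0) :=
        mul_le_mul_of_nonneg_left (by linarith) (by linarith)
      linarith
  choose R hR using hmin
  refine ⟨R, fun x T hT => ?_⟩
  obtain ⟨h1, h2⟩ := hR (A.mulVec x) ⟨x, rfl⟩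
  have h3 := key _ _ h1
  have h4 := h2 x rfl
  have h5 := hσle x T hT
  refine h3.trans ?_
  have h6 : (1 + c) * (σ (R (A.mulVec x)) + σ x) ≤ (1 + c) * (2 * ∑ j ∈ Tᶜ, |x j|) :=
    mul_le_mul_of_nonneg_left (by linarith) (by linarith)
  linarith

lemma nsp_exists (n k L J0 : ℕ) (hk : 1 ≤ k) (hJ0 : 1 ≤ J0) (hL : L ≤ 2 ^ J0)
    (hn : n ≤ 2 ^ L * k) :
    ∃ A : Matrix (Fin (16 * (4 * 10240) * k + 256 * 66 ^ 2 * k)) (Fin n) ℝ,
      ∀ g : Fin n → ℝ, A.mulVec g = 0 → ∀ S : Finset (Fin n), Clo S → S.card ≤ k →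
        ∑ j ∈ S, |g j| ≤ 9831 * J0 ^ 2 * ∑ j ∈ Sᶜ, |g j| := by
  classical
  obtain ⟨A1, hT, hU, hLow⟩ := exists_signs n k (2 * J0) hk
  obtain ⟨N, hN⟩ := exists_exp n k L (2 ^ J0) 66 hk Nat.one_le_two_pow hL hn (by norm_num)
  set A2 : Fin (256 * 66 ^ 2 * k) → Fin n → ℝ := fun r j =>
    ∑ x : Fin n × Fin (66 * 2 ^ J0), if N x = r ∧ x.1 = j then 1 else 0 with hA2
  refine ⟨Matrix.of (fun r j => Fin.addCases (fun r1 => A1 r1 j) (fun r2 => A2 r2 j) r), ?_⟩
  intro g hg S hS hSk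
  have hg1 : ∀ r, ∑ j, A1 r j * g j = 0 := by
    intro r
    have := congrFun hg (Fin.castAdd _ r)
    simp only [Matrix.mulVec, dotProduct, Matrix.of_apply, Fin.addCases_left, Pi.zero_apply] at this
    exact this
  have hg2 : ∀ r, ∑ j, A2 r j * g j = 0 := by
    intro r
    have := congrFun hg (Fin.natAdd _ r)
    simp only [Matrix.mulVec, dotProduct, Matrix.of_apply, Fin.addCases_right, Pi.zero_apply] at this
    exact this
  have hker : ∀ c, ∑ x ∈ univ.filter (fun x => N x = c), g x.1 = 0 := by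
    intro c
    rw [← hg2 c, sum_filter]
    simp only [hA2, sum_mul]
    rw [sum_comm]
    apply sum_congr rfl
    intro x _
    rw [sum_eq_single x.1]
    · by_cases h : N x = c
      · rw [if_pos h, if_pos ⟨h, rfl⟩, one_mul]
      · rw [if_neg h, if_neg (fun h' => h h'.1), zero_mul]
    · intro j _ hj
      rw [if_neg (fun h => hj h.2.symm), zero_mul]
    · intro h; exact absurd (mem_univ _) h
  apply core hk hJ0 A1 (fun j => ?_) hU hLow g hg1 S hS hSk
  · intro V hVS t ht0 hV ht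
    have h1 := exp_det (k := k) Nat.one_le_two_pow (show 2 ≤ 66 by norm_num) rfl N hN g hker S V hVS
      hV t ht0 ht
    push_cast at h1
    linarith
  · have := hT j
    push_cast at this
    exact this

/-- `O(k)` measurements suffice for tree-sparse recovery with factor `O((log log (n/k))^2)`:
here `n = 2 ^ h - 1` and `L` is any integer with `n ≤ 2 ^ L * k`. -/
theorem result : ∃ C : ℝ, 0 < C ∧ ∃ D : ℕ, ∀ h k L : ℕ, 1 ≤ k → k ≤ 2 ^ h - 1 →
    2 ^ h - 1 ≤ 2 ^ L * k →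
    ∃ m : ℕ, m ≤ D * k ∧ ∃ A : Matrix (Fin m) (Fin (2 ^ h - 1)) ℝ,
      ∃ R : (Fin m → ℝ) → (Fin (2 ^ h - 1) → ℝ),
        ∀ x x' : Fin (2 ^ h - 1) → ℝ,
          (∃ T : Finset (Fin (2 ^ h - 1)), T.card = k ∧ (∃ r ∈ T, r.val = 0) ∧
             (∀ i ∈ T, i.val ≠ 0 → ∃ j ∈ T, j.val + 1 = (i.val + 1) / 2) ∧
             (∀ i, i ∉ T → x' i = 0)) →
          ∑ i, |R (Matrix.mulVec A x) i - x i| ≤
            C * (1 + (Nat.log 2 L : ℝ)) ^ 2 * ∑ i, |x' i - x i| := by
  classical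
  refine ⟨19664, by norm_num, 3540992, fun h k L hk _ hL => ?_⟩
  set n := 2 ^ h - 1 with hn
  set J0 := Nat.log 2 L + 1 with hJ0
  have hJ1 : 1 ≤ J0 := by omega
  have hLJ : L ≤ 2 ^ J0 := (Nat.lt_pow_succ_log_self (by norm_num) L).le
  have hn2 : n ≤ 2 ^ L * (2 * k) := by
    have : 2 ^ L * k ≤ 2 ^ L * (2 * k) := Nat.mul_le_mul_left _ (by omega)
    omega
  obtain ⟨A, hA⟩ := nsp_exists n (2 * k) L J0 (by omega) hJ1 hLJ hn2
  obtain ⟨𝒯, h𝒯⟩ : ∃ 𝒯 : Finset (Finset (Fin n)), 𝒯 = univ.filter (fun T => Clo T ∧ T.card = k) :=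
    ⟨_, rfl⟩
  have hJR : (1 : ℝ) ≤ J0 := by exact_mod_cast hJ1
  have hJ2 : (1 : ℝ) ≤ (J0 : ℝ) ^ 2 := one_le_pow₀ hJR
  obtain ⟨R, hR⟩ := decoder A 𝒯 (9831 * J0 ^ 2) (by positivity) (by
    intro g hg T hT T' hT'
    rw [h𝒯, mem_filter] at hT hT'
    apply hA g hg
    · intro i hi hi0
      rcases mem_union.mp hi with h1 | h1
      · obtain ⟨j, hj, hji⟩ := hT.2.1 i h1 hi0
        exact ⟨j, mem_union_left _ hj, hji⟩
      · obtain ⟨j, hj, hji⟩ := hT'.2.1 i h1 hi0
        exact ⟨j, mem_union_right _ hj, hji⟩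
    · refine (card_union_le _ _).trans ?_
      rw [hT.2.2, hT'.2.2]
      omega)
  refine ⟨_, ?_, A, R, ?_⟩
  · omega
  · rintro x x' ⟨T, hTk, -, hT, hx'⟩
    have h1 := hR x T (by rw [h𝒯, mem_filter]; exact ⟨mem_univ _, hT, hTk⟩)
    have h2 : ∑ j ∈ Tᶜ, |x j| ≤ ∑ i, |x' i - x i| := by
      calc ∑ j ∈ Tᶜ, |x j| = ∑ j ∈ Tᶜ, |x' j - x j| := by
            apply sum_congr rfl
            intro j hj
            rw [hx' j (mem_compl.mp hj), zero_sub, abs_neg]
        _ ≤ _ := sum_le_sum_of_subset_of_nonneg (subset_univ _) (fun _ _ _ => abs_nonneg _)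
    have h3 : (1 + (Nat.log 2 L : ℝ)) = J0 := by
      rw [hJ0]
      push_cast
      ring
    rw [h3]
    have h4 : 0 ≤ ∑ j ∈ Tᶜ, |x j| := sum_nonneg fun _ _ => abs_nonneg _
    calc ∑ i, |R (Matrix.mulVec A x) i - x i| ≤ 2 * (1 + 9831 * (J0 : ℝ) ^ 2) * ∑ j ∈ Tᶜ, |x j| := h1
      _ ≤ 19664 * (J0 : ℝ) ^ 2 * ∑ j ∈ Tᶜ, |x j| := by
        apply mul_le_mul_of_nonneg_right _ h4
        linarith
      _ ≤ 19664 * (J0 : ℝ) ^ 2 * ∑ i, |x' i - x i| :=
        mul_le_mul_of_nonneg_left h2 (by positivity)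

end Pool.Agent.Results.MP_d546a0_lc.LogLogSq
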